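import Pool.Agent.H72.BT.Span

/-!
BT-11. Norms and coefficients.

Proofs. `cl_cmb`: `ip_sum_left`, `ip_eb_jz`, `sc n k ≠ 0`. `cl_congr`: `eb_congr`. `nrm_cmb_sq`:
`ip_sum_left`, `ip_sum_right`, `ip_eb_jz`: `ip (cmb c) (cmb c) = (sc)⁻¹ ∑ |c_j|²`.
`nrm_mul_le`: `nrm (eb k l) ^ 2 = (sc)⁻¹` (`ip_eb`), `nrm (cmb c) ^ 2 ≤ (sc)⁻¹ k^n B²` (card of
`Fin n → Fin k` is `k^n`), and `√(k^n) ≤ k^n` as `k^n ≥ 1`.
`su_eq`: `gp k (jz l) = fun j => (l j)/k` up to casts (`Int.cast_natCast`).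
-/

set_option autoImplicit false

open MeasureTheory Complex
open scoped ContDiff ComplexConjugate

noncomputable section

namespace H72BT

open H99.EQ

theorem sc_pos {n k : ℕ} (hk : 1 ≤ k) : 0 < sc n k := by
  have : (0 : ℝ) < k := by exact_mod_cast (show 0 < k by omega)
  unfold sc
  positivity

theorem Norm_cont {n k : ℕ} (hk : 1 ≤ k) (l : Fin n → ℤ) : Continuous (eb k l : Ph n → ℂ) :=
  (eb_mem hk l).1.continuous

theorem Norm_ip_cmb {n k : ℕ} (hk : 1 ≤ k) (c : (Fin n → Fin k) → ℂ) (j : Fin n → Fin k) :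
    ip (cmb c) (eb k (jz j)) = c j * (sc n k : ℂ)⁻¹ := by
  have h1 := ip_sum_left Finset.univ c (fun l : Fin n → Fin k => (eb k (jz l) : Ph n → ℂ))
    (eb k (jz j)) (fun i _ => Norm_cont hk _) (Norm_cont hk _)
  have h2 : (cmb c : Ph n → ℂ) = fun q => ∑ i ∈ Finset.univ, c i * eb k (jz i) q := rfl
  rw [h2, h1]
  simp only [ip_eb_jz hk]
  simp

theorem cl_cmb {n k : ℕ} (hk : 1 ≤ k) (c : (Fin n → Fin k) → ℂ) (j : Fin n → Fin k) :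
    cl k (jz j) (cmb c) = c j := by
  unfold cl
  rw [Norm_ip_cmb hk]
  have h : (sc n k : ℂ) ≠ 0 := by exact_mod_cast (sc_pos hk).ne'
  field_simp

theorem cl_congr {n k : ℕ} (hk : 1 ≤ k) (l r : Fin n → ℤ) (h : ∀ i, (k : ℤ) ∣ l i - r i)
    (s : Ph n → ℂ) : cl k l s = cl k r s := by
  unfold cl
  rw [eb_congr hk l r h]

theorem Norm_nrm_sq {n : ℕ} (s : Ph n → ℂ) : nrm s ^ 2 = (ip s s).re :=
  Real.sq_sqrt (ip_self_re s)

theorem nrm_cmb_sq {n k : ℕ} (hk : 1 ≤ k) (c : (Fin n → Fin k) → ℂ) :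
    nrm (cmb c) ^ 2 = (sc n k)⁻¹ * ∑ i, ‖c i‖ ^ 2 := by
  rw [Norm_nrm_sq]
  have hc : Continuous (cmb c : Ph n → ℂ) := (cmb_mem hk c).1.continuous
  have h1 := ip_sum_right Finset.univ c (fun l : Fin n → Fin k => (eb k (jz l) : Ph n → ℂ))
    (cmb c) (fun i _ => Norm_cont hk _) hc
  have h2 : ip (cmb c : Ph n → ℂ) (cmb c)
      = ip (cmb c) (fun q => ∑ i ∈ Finset.univ, c i * eb k (jz i) q) := rfl
  rw [h2, h1]
  simp only [Norm_ip_cmb hk]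
  have h3 : ∀ i : Fin n → Fin k, conj (c i) * (c i * (sc n k : ℂ)⁻¹)
      = (((sc n k)⁻¹ * ‖c i‖ ^ 2 : ℝ) : ℂ) := by
    intro i
    rw [← mul_assoc, mul_comm (conj (c i)), Complex.mul_conj, Complex.normSq_eq_norm_sq]
    push_cast
    ring
  simp only [h3]
  rw [← Complex.ofReal_sum, Complex.ofReal_re, Finset.mul_sum]

theorem Norm_eb_sq {n k : ℕ} (hk : 1 ≤ k) (l : Fin n → ℤ) :
    nrm (eb k l : Ph n → ℂ) ^ 2 = (sc n k)⁻¹ := by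
  rw [Norm_nrm_sq, ip_eb hk]
  have : ∀ i, (k : ℤ) ∣ l i - l i := fun i => by simp
  rw [if_pos this, ← Complex.ofReal_inv, Complex.ofReal_re]

theorem nrm_mul_le {n k : ℕ} (hk : 1 ≤ k) (c : (Fin n → Fin k) → ℂ) (B : ℝ)
    (hB : ∀ i, ‖c i‖ ≤ B) (l : Fin n → ℤ) :
    sc n k * (nrm (cmb c) * nrm (eb k l)) ≤ B * (k : ℝ) ^ n := by
  have hs := sc_pos (n := n) hk
  have hk1 : (1 : ℝ) ≤ k := by exact_mod_cast hk
  have hkn : (1 : ℝ) ≤ (k : ℝ) ^ n := one_le_pow₀ hk1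
  have hB0 : 0 ≤ B := (norm_nonneg _).trans (hB (fun _ => ⟨0, hk⟩))
  have h1 : ∑ i, ‖c i‖ ^ 2 ≤ (k : ℝ) ^ n * B ^ 2 := by
    have h2 : ∑ i, ‖c i‖ ^ 2 ≤ ∑ _i : Fin n → Fin k, B ^ 2 :=
      Finset.sum_le_sum fun i _ => by
        have := hB i
        gcongr
    refine h2.trans_eq ?_
    rw [Finset.sum_const, Finset.card_univ, Fintype.card_fun, Fintype.card_fin, Fintype.card_fin]
    simp
  apply abs_le_of_sq_le_sq' _ (by positivity) |>.2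
  have h3 : (sc n k * (nrm (cmb c : Ph n → ℂ) * nrm (eb k l : Ph n → ℂ))) ^ 2
      = sc n k ^ 2 * (nrm (cmb c : Ph n → ℂ) ^ 2 * nrm (eb k l : Ph n → ℂ) ^ 2) := by ring
  rw [h3, nrm_cmb_sq hk, Norm_eb_sq hk]
  have h4 : sc n k ^ 2 * ((sc n k)⁻¹ * (∑ i, ‖c i‖ ^ 2) * (sc n k)⁻¹) = ∑ i, ‖c i‖ ^ 2 := by
    field_simp
  rw [h4]
  refine h1.trans ?_
  nlinarith [mul_nonneg (sub_nonneg.2 hkn) (mul_nonneg (sq_nonneg B)
    (show (0 : ℝ) ≤ (k : ℝ) ^ n by positivity))]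

theorem su_eq {n k : ℕ} (u : V n → ℂ) : su k u = cmb (fun j : Fin n → Fin k => u (gp k (jz j))) := by
  funext q
  unfold su cmb
  refine Finset.sum_congr rfl fun l _ => ?_
  have : (fun j => (((l j : ℕ) : ℝ)) / k) = gp k (jz l) := by
    funext j
    simp [gp, jz]
  rw [this]
  rfl

end H72BT
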