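import Pool.Agent.H72.BT.SymB
import Pool.Agent.H72.BT.Norm

/-!
BT-25. Asymptotics of the coefficients of `P_k su(u)`.

Proof. Let `J' = J + n` and apply the hypothesis with `J'` and `t = ⟨eb k l, eb_mem hk l⟩`; multiply by
`sc n k > 0` (`sc_pos`): since `su k u = cmb (...)` (`su_eq`) with coefficients bounded by
`B = sup |u|` (`cp_bdd u 0`), `nrm_mul_le` gives
`‖cl k l (P k s) - ∑_{j<J'} (k^j)⁻¹ cl k l (f_j su(u))‖ ≤ C/k^{J'} · B k^n = C B/k^J`.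
By `cl_mul_su`, `cl k l (f_j su(u)) = Phi (1/k) (f_j) u (gp k l)`, and by `Phi_exp` (with `J' - j`) this is
`∑_{m<J'-j} (1/k)^m QO (f_j) m u (gp k l)` up to `C_j (1/k)^{J'-j}`. Altogether
`cl k l (P k s) = ∑_{w<J'} (k^w)⁻¹ ∑_{j≤w} QO (f_j) (w-j) u (gp k l) + O(k^{-J})`
(`w = j + m`: `Finset.sum_sigma'` and a bijection, or `Finset.sum_comm'`), and the inner sum is
`opS pdx (symW f hf w) u` at `gp k l` (`opS_symW`). The terms `J ≤ w < J'` are `O(k^{-J})` because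
`opS pdx (symW f hf w) u ∈ CP n` is bounded (`cp_bdd _ 0`).
-/

set_option autoImplicit false

open MeasureTheory Complex
open scoped ContDiff ComplexConjugate

noncomputable section

namespace H72BT

open H99.EQ

/-- asymptotics of the matrix elements -/
def AsymP {n : ℕ} (P : ∀ k : ℕ, Hol n k →ₗ[ℂ] Hol n k) (f : ℕ → Ph n → ℂ) : Prop :=
  ∀ J : ℕ, ∃ C : ℝ, 0 ≤ C ∧ ∀ k : ℕ, 1 ≤ k → ∀ s t : Hol n k,
    ‖ip (P k s : Ph n → ℂ) t -
      ∑ j ∈ Finset.range J, ((k : ℂ) ^ j)⁻¹ * ip (fun q => f j q * (s : Ph n → ℂ) q) t‖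
      ≤ C / (k : ℝ) ^ J * (nrm (s : Ph n → ℂ) * nrm (t : Ph n → ℂ))

theorem Asym_bdd {n : ℕ} (u : CP n) : ∃ M : ℝ, 0 ≤ M ∧ ∀ x, ‖(u : V n → ℂ) x‖ ≤ M := by
  obtain ⟨M, hM⟩ := cp_bdd u 0
  have h : ∀ x, ‖(u : V n → ℂ) x‖ ≤ M := by
    intro x
    have := hM x
    rwa [norm_iteratedFDeriv_zero] at this
  exact ⟨M, (norm_nonneg _).trans (h 0), h⟩

theorem Asym_one {n : ℕ} {P : ∀ k : ℕ, Hol n k →ₗ[ℂ] Hol n k} {f : ℕ → Ph n → ℂ}
    (hf : ∀ j, IsSm (f j)) (h : AsymP P f) (u : CP n) (J : ℕ) :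
    ∃ C : ℝ, 0 ≤ C ∧ ∀ k : ℕ, 1 ≤ k → ∀ s : Hol n k, (s : Ph n → ℂ) = su k (u : V n → ℂ) →
      ∀ l : Fin n → ℤ, ‖cl k l (P k s : Ph n → ℂ) - ∑ j ∈ Finset.range (J + n), ((k : ℂ) ^ j)⁻¹ *
        Phi (1 / (k : ℝ)) (f j) (u : V n → ℂ) (gp k l)‖ ≤ C / (k : ℝ) ^ J := by
  obtain ⟨C1, hC1, hP⟩ := h (J + n)
  obtain ⟨B, hB0, hB⟩ := Asym_bdd u
  refine ⟨C1 * B, mul_nonneg hC1 hB0, fun k hk s hs l => ?_⟩
  have hk0 : (0 : ℝ) < k := by exact_mod_cast (show 0 < k by omega)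
  have hsc := sc_pos (n := n) hk
  have h1 := hP k hk s ⟨eb k l, eb_mem hk l⟩
  have h2 : cl k l (P k s : Ph n → ℂ) - ∑ j ∈ Finset.range (J + n), ((k : ℂ) ^ j)⁻¹ *
        Phi (1 / (k : ℝ)) (f j) (u : V n → ℂ) (gp k l) =
      (sc n k : ℂ) * (ip (P k s : Ph n → ℂ) (eb k l) -
      ∑ j ∈ Finset.range (J + n), ((k : ℂ) ^ j)⁻¹ *
        ip (fun q => f j q * (s : Ph n → ℂ) q) (eb k l)) := by
    rw [mul_sub, Finset.mul_sum]
    congr 1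
    refine Finset.sum_congr rfl (fun j _ => ?_)
    rw [← cl_mul_su hk (hf j) u l, hs]
    unfold cl
    ring
  rw [h2, norm_mul, Complex.norm_real, Real.norm_of_nonneg hsc.le]
  have h3 : sc n k * (nrm (s : Ph n → ℂ) * nrm (eb k l : Ph n → ℂ)) ≤ B * (k : ℝ) ^ n := by
    rw [hs, su_eq]
    exact nrm_mul_le hk _ B (fun i => hB _) l
  calc sc n k * ‖ip (P k s : Ph n → ℂ) (eb k l) - ∑ j ∈ Finset.range (J + n),
        ((k : ℂ) ^ j)⁻¹ * ip (fun q => f j q * (s : Ph n → ℂ) q) (eb k l)‖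
      ≤ sc n k * (C1 / (k : ℝ) ^ (J + n) * (nrm (s : Ph n → ℂ) * nrm (eb k l : Ph n → ℂ))) :=
        mul_le_mul_of_nonneg_left h1 hsc.le
    _ = C1 / (k : ℝ) ^ (J + n) * (sc n k * (nrm (s : Ph n → ℂ) * nrm (eb k l : Ph n → ℂ))) := by
        ring
    _ ≤ C1 / (k : ℝ) ^ (J + n) * (B * (k : ℝ) ^ n) :=
        mul_le_mul_of_nonneg_left h3 (by positivity)
    _ = C1 * B / (k : ℝ) ^ J := by
        rw [pow_add]
        field_simp

theorem Asym_two {n : ℕ} {f : ℕ → Ph n → ℂ} (hf : ∀ j, IsSm (f j)) (u : CP n) (J : ℕ) :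
    ∃ C : ℝ, 0 ≤ C ∧ ∀ k : ℕ, 1 ≤ k → ∀ x : V n,
      ‖∑ j ∈ Finset.range J, ((k : ℂ) ^ j)⁻¹ * Phi (1 / (k : ℝ)) (f j) (u : V n → ℂ) x -
        ∑ w ∈ Finset.range J, ((k : ℂ) ^ w)⁻¹ *
          ((opS pdx (symW f hf w) u : CP n) : V n → ℂ) x‖ ≤ C / (k : ℝ) ^ J := by
  have hex : ∀ j, ∃ C : ℝ, 0 ≤ C ∧ ∀ (κ : ℝ) (x : V n), 0 ≤ κ → κ ≤ 1 →
      ‖Phi κ (f j) (u : V n → ℂ) x -
        ∑ m ∈ Finset.range (J - j), (κ : ℂ) ^ m * QO (f j) m (u : V n → ℂ) x‖ ≤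
          C * κ ^ (J - j) := fun j => Phi_exp (hf j) u (J - j)
  choose C hC0 hC using hex
  refine ⟨∑ j ∈ Finset.range J, C j, Finset.sum_nonneg (fun j _ => hC0 j), fun k hk x => ?_⟩
  have hk0 : (0 : ℝ) < k := by exact_mod_cast (show 0 < k by omega)
  have hk1 : (1 : ℝ) ≤ k := by exact_mod_cast hk
  have hkc : (k : ℂ) ≠ 0 := by exact_mod_cast (show k ≠ 0 by omega)
  have e1 : ∑ w ∈ Finset.range J, ((k : ℂ) ^ w)⁻¹ *
        ((opS pdx (symW f hf w) u : CP n) : V n → ℂ) x =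
      ∑ j ∈ Finset.range J, ((k : ℂ) ^ j)⁻¹ * ∑ m ∈ Finset.range (J - j),
        (((1 / (k : ℝ) : ℝ)) : ℂ) ^ m * QO (f j) m (u : V n → ℂ) x := by
    have h1 := Finset.sum_range_diag_flip J (fun j m => ((k : ℂ) ^ (j + m))⁻¹ *
      QO (f j) m (u : V n → ℂ) x)
    calc ∑ w ∈ Finset.range J, ((k : ℂ) ^ w)⁻¹ *
          ((opS pdx (symW f hf w) u : CP n) : V n → ℂ) x
        = ∑ w ∈ Finset.range J, ∑ j ∈ Finset.range (w + 1), ((k : ℂ) ^ (j + (w - j)))⁻¹ *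
            QO (f j) (w - j) (u : V n → ℂ) x := by
          refine Finset.sum_congr rfl (fun w _ => ?_)
          rw [opS_symW hf w u x, Finset.mul_sum]
          refine Finset.sum_congr rfl (fun j hj => ?_)
          have : j + (w - j) = w := by
            have := Finset.mem_range.1 hj
            omega
          rw [this]
      _ = ∑ j ∈ Finset.range J, ∑ m ∈ Finset.range (J - j), ((k : ℂ) ^ (j + m))⁻¹ *
            QO (f j) m (u : V n → ℂ) x := h1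
      _ = _ := by
          refine Finset.sum_congr rfl (fun j _ => ?_)
          rw [Finset.mul_sum]
          refine Finset.sum_congr rfl (fun m _ => ?_)
          rw [pow_add]
          push_cast
          rw [one_div, inv_pow, mul_inv]
          ring
  rw [e1, ← Finset.sum_sub_distrib, Finset.sum_div]
  refine (norm_sum_le _ _).trans (Finset.sum_le_sum (fun j hj => ?_))
  rw [← mul_sub, norm_mul]
  have hjJ : j < J := Finset.mem_range.1 hj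
  have h2 := hC j (1 / (k : ℝ)) x (by positivity) (by rw [div_le_one hk0]; exact hk1)
  have h3 : ‖((k : ℂ) ^ j)⁻¹‖ = ((k : ℝ) ^ j)⁻¹ := by
    rw [norm_inv, norm_pow, Complex.norm_natCast]
  rw [h3]
  calc ((k : ℝ) ^ j)⁻¹ * ‖Phi (1 / (k : ℝ)) (f j) (u : V n → ℂ) x -
        ∑ m ∈ Finset.range (J - j), (((1 / (k : ℝ) : ℝ)) : ℂ) ^ m *
          QO (f j) m (u : V n → ℂ) x‖
      ≤ ((k : ℝ) ^ j)⁻¹ * (C j * (1 / (k : ℝ)) ^ (J - j)) :=
        mul_le_mul_of_nonneg_left h2 (by positivity)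
    _ = C j / (k : ℝ) ^ J := by
        have h4 : (k : ℝ) ^ J = (k : ℝ) ^ j * (k : ℝ) ^ (J - j) := by
          rw [← pow_add]; congr 1; omega
        rw [h4, one_div, inv_pow]
        field_simp

theorem cl_asym {n : ℕ} {P : ∀ k : ℕ, Hol n k →ₗ[ℂ] Hol n k} {f : ℕ → Ph n → ℂ}
    (hf : ∀ j, IsSm (f j)) (h : AsymP P f) (u : CP n) (J : ℕ) :
    ∃ C : ℝ, 0 ≤ C ∧ ∀ k : ℕ, 1 ≤ k → ∀ s : Hol n k, (s : Ph n → ℂ) = su k (u : V n → ℂ) →
      ∀ l : Fin n → ℤ, ‖cl k l (P k s : Ph n → ℂ) - ∑ w ∈ Finset.range J, ((k : ℂ) ^ w)⁻¹ *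
        ((opS pdx (symW f hf w) u : CP n) : V n → ℂ) (gp k l)‖ ≤ C / (k : ℝ) ^ J := by
  obtain ⟨C1, hC1, h1⟩ := Asym_one hf h u J
  obtain ⟨C2, hC2, h2⟩ := Asym_two hf u (J + n)
  have hM : ∀ w, ∃ M : ℝ, 0 ≤ M ∧ ∀ x,
      ‖((opS pdx (symW f hf w) u : CP n) : V n → ℂ) x‖ ≤ M := fun w => Asym_bdd _
  choose M hM0 hM1 using hM
  refine ⟨C1 + C2 + ∑ i ∈ Finset.range n, M (J + i), ?_, fun k hk s hs l => ?_⟩
  · have := Finset.sum_nonneg (s := Finset.range n) (fun i _ => hM0 (J + i))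
    positivity
  have hk0 : (0 : ℝ) < k := by exact_mod_cast (show 0 < k by omega)
  have hk1 : (1 : ℝ) ≤ k := by exact_mod_cast hk
  have a1 := h1 k hk s hs l
  have a2 := h2 k hk (gp k l)
  have a3 : ‖∑ i ∈ Finset.range n, ((k : ℂ) ^ (J + i))⁻¹ *
      ((opS pdx (symW f hf (J + i)) u : CP n) : V n → ℂ) (gp k l)‖ ≤
      (∑ i ∈ Finset.range n, M (J + i)) / (k : ℝ) ^ J := by
    rw [Finset.sum_div]
    refine (norm_sum_le _ _).trans (Finset.sum_le_sum (fun i _ => ?_))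
    rw [norm_mul, norm_inv, norm_pow, Complex.norm_natCast, mul_comm, ← div_eq_mul_inv]
    have b1 := hM1 (J + i) (gp k l)
    have b2 : (k : ℝ) ^ J ≤ (k : ℝ) ^ (J + i) := pow_le_pow_right₀ hk1 (by omega)
    calc ‖((opS pdx (symW f hf (J + i)) u : CP n) : V n → ℂ) (gp k l)‖ / (k : ℝ) ^ (J + i)
        ≤ M (J + i) / (k : ℝ) ^ (J + i) := by gcongr
      _ ≤ M (J + i) / (k : ℝ) ^ J := by
          apply div_le_div_of_nonneg_left (hM0 _) (by positivity) b2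
  have a4 : C2 / (k : ℝ) ^ (J + n) ≤ C2 / (k : ℝ) ^ J :=
    div_le_div_of_nonneg_left hC2 (by positivity) (pow_le_pow_right₀ hk1 (by omega))
  have e1 : cl k l (P k s : Ph n → ℂ) - ∑ w ∈ Finset.range J, ((k : ℂ) ^ w)⁻¹ *
        ((opS pdx (symW f hf w) u : CP n) : V n → ℂ) (gp k l) =
      (cl k l (P k s : Ph n → ℂ) - ∑ j ∈ Finset.range (J + n), ((k : ℂ) ^ j)⁻¹ *
        Phi (1 / (k : ℝ)) (f j) (u : V n → ℂ) (gp k l)) +
      (∑ j ∈ Finset.range (J + n), ((k : ℂ) ^ j)⁻¹ *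
        Phi (1 / (k : ℝ)) (f j) (u : V n → ℂ) (gp k l) -
        ∑ w ∈ Finset.range (J + n), ((k : ℂ) ^ w)⁻¹ *
          ((opS pdx (symW f hf w) u : CP n) : V n → ℂ) (gp k l)) +
      ∑ i ∈ Finset.range n, ((k : ℂ) ^ (J + i))⁻¹ *
        ((opS pdx (symW f hf (J + i)) u : CP n) : V n → ℂ) (gp k l) := by
    rw [Finset.sum_range_add (fun w => ((k : ℂ) ^ w)⁻¹ *
      ((opS pdx (symW f hf w) u : CP n) : V n → ℂ) (gp k l)) J n]
    ring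
  rw [e1, add_div, add_div]
  refine (norm_add_le _ _).trans (add_le_add ((norm_add_le _ _).trans (add_le_add a1 ?_)) a3)
  exact a2.trans a4

end H72BT
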