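import Pool.Agent.H72.BT.Lin

/-!
BT-24. Berezin-Toeplitz operators: asymptotics of the matrix elements.

Proof. From `IsBT P p` take `F, f`. For `J`: `‖ip (P k s) t - ip (F k * s) t‖ ≤ C₁/k^J nrm s nrm t`, and
`ip (F k * s) t - ∑_{j<J} (k^j)⁻¹ ip (f j * s) t = ip ((F k - ∑_{j<J} (k^j)⁻¹ f j) * s) t` (linearity:
`ip` is an integral over the cube of continuous functions) is bounded by
`C₂/k^J nrm s nrm t` by `norm_ip_mul_le` and the estimate of `IsBT` with `r = 0`
(`iteratedFDeriv ℝ 0` has the same norm as the function, `norm_iteratedFDeriv_zero`). Elements of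
`Hol n k` are continuous (they are `ContDiff ℝ ∞`). Take `C = |C₁| + |C₂|`.
-/

set_option autoImplicit false

open MeasureTheory Complex
open scoped ContDiff ComplexConjugate

noncomputable section

namespace H72BT

open H99.EQ

theorem bta_lin {n : ℕ} (F : Ph n → ℂ) (f : ℕ → Ph n → ℂ) (c : ℕ → ℂ) (J : ℕ) (s t : Ph n → ℂ)
    (hF : Continuous F) (hf : ∀ j, Continuous (f j)) (hs : Continuous s) (ht : Continuous t) :
    ip (fun q => (F q - ∑ j ∈ Finset.range J, c j * f j q) * s q) t =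
      ip (fun q => F q * s q) t - ∑ j ∈ Finset.range J, c j * ip (fun q => f j q * s q) t := by
  have h := ip_sum_left (Finset.range (J + 1))
    (fun j => match j with
      | 0 => (1 : ℂ)
      | j + 1 => -c j)
    (fun j => match j with
      | 0 => fun q => F q * s q
      | j + 1 => fun q => f j q * s q) t (by
        intro j _
        cases j with
        | zero => exact hF.mul hs
        | succ j => exact (hf j).mul hs) ht
  rw [Finset.sum_range_succ'] at h
  simp only [one_mul, neg_mul, Finset.sum_neg_distrib] at h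
  rw [sub_eq_add_neg, add_comm, ← h]
  congr 1
  funext q
  rw [Finset.sum_range_succ', sub_mul, Finset.sum_mul]
  simp only [one_mul, neg_mul, Finset.sum_neg_distrib]
  rw [sub_eq_add_neg, add_comm]
  congr 2
  exact Finset.sum_congr rfl fun j _ => mul_assoc _ _ _

theorem bt_asym {n : ℕ} {P : ∀ k : ℕ, Hol n k →ₗ[ℂ] Hol n k} {p : Ph n → ℝ} (h : IsBT P p) :
    ∃ f : ℕ → Ph n → ℂ, (∀ j, IsSm (f j)) ∧ (∀ q, f 0 q = (p q : ℂ)) ∧
      ∀ J : ℕ, ∃ C : ℝ, 0 ≤ C ∧ ∀ k : ℕ, 1 ≤ k → ∀ s t : Hol n k,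
        ‖ip (P k s : Ph n → ℂ) t -
          ∑ j ∈ Finset.range J, ((k : ℂ) ^ j)⁻¹ * ip (fun q => f j q * (s : Ph n → ℂ) q) t‖
          ≤ C / (k : ℝ) ^ J * (nrm (s : Ph n → ℂ) * nrm (t : Ph n → ℂ)) := by
  obtain ⟨F, f, hF, hf, h0, hA, hB⟩ := h
  refine ⟨f, hf, h0, fun J => ?_⟩
  obtain ⟨C1, hC1⟩ := hA J 0
  obtain ⟨C2, hC2⟩ := hB J
  refine ⟨|C1| + |C2|, by positivity, fun k hk s t => ?_⟩
  have hs : Continuous (s : Ph n → ℂ) := s.2.1.continuous
  have ht : Continuous (t : Ph n → ℂ) := t.2.1.continuous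
  have hFc : Continuous (F k) := (hF k).smooth.continuous
  have hfc : ∀ j, Continuous (f j) := fun j => (hf j).smooth.continuous
  have hk0 : (0 : ℝ) < (k : ℝ) ^ J := by
    have : (0 : ℝ) < k := by exact_mod_cast hk
    positivity
  have hn : 0 ≤ nrm (s : Ph n → ℂ) * nrm (t : Ph n → ℂ) :=
    mul_nonneg (Real.sqrt_nonneg _) (Real.sqrt_nonneg _)
  have h1 := hC2 k hk s t
  have h2 := bta_lin (F k) f (fun j => ((k : ℂ) ^ j)⁻¹) J s t hFc hfc hs ht
  have h3 : ‖ip (fun q => (F k q - ∑ j ∈ Finset.range J, ((k : ℂ) ^ j)⁻¹ * f j q) *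
      (s : Ph n → ℂ) q) t‖ ≤ C1 / (k : ℝ) ^ J * (nrm (s : Ph n → ℂ) * nrm (t : Ph n → ℂ)) := by
    refine norm_ip_mul_le _ _ _ _ ?_ hs ht ?_
    · refine hFc.sub (continuous_finset_sum _ fun j _ => ?_)
      exact continuous_const.mul (hfc j)
    · intro q
      have := hC1 k hk q
      rwa [norm_iteratedFDeriv_zero] at this
  rw [h2] at h3
  have h4 : ip (P k s : Ph n → ℂ) t -
      ∑ j ∈ Finset.range J, ((k : ℂ) ^ j)⁻¹ * ip (fun q => f j q * (s : Ph n → ℂ) q) t =
      (ip (P k s : Ph n → ℂ) t - ip (fun q => F k q * (s : Ph n → ℂ) q) t) +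
      (ip (fun q => F k q * (s : Ph n → ℂ) q) t -
        ∑ j ∈ Finset.range J, ((k : ℂ) ^ j)⁻¹ * ip (fun q => f j q * (s : Ph n → ℂ) q) t) := by
    ring
  rw [h4]
  refine (norm_add_le _ _).trans ((add_le_add h1 h3).trans ?_)
  rw [← add_mul, ← add_div]
  refine mul_le_mul_of_nonneg_right ?_ hn
  refine div_le_div_of_nonneg_right ?_ hk0.le
  linarith [le_abs_self C1, le_abs_self C2]

end H72BT
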