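import Pool.Agent.H72.BT.One

/-!
BT-5. The functions `eb k l`, `su k u`, `cmb c` belong to `Hol n k`.

Proofs.
* `eb_mem`: `eb k l q = ∏_j th k (l j) (q.1 j) (q.2 j)` and by `th_eq`
  `th k l x ξ = exp(-πkx²) * Th k l (x+iξ)` with `Th` entire (`Th_diff`, `Differentiable.contDiff` gives
  `ContDiff ℂ ⊤`, `.restrict_scalars ℝ`), composed with real-linear maps: smooth
  (`contDiff_prod`). Quasi-periodicity: to pass from `th_add_x` (shift by 1) to shifts by an integer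
  `m` use induction (`Int.induction_on`): `th k l (x+m) ξ = exp(2πikmξ) th k l x ξ`,
  `th k l x (ξ+m) = th k l x ξ`; then `Finset.prod_mul_distrib` and `Complex.exp_sum`.
  The equation `(∂_{x_j} + i∂_{ξ_j} + 2πk x_j) s = 0`: it is enough to prove it for one factor
  (derivation property; or write `eb k l q = exp(-πk∑x_j²) * G(x+iξ)` with `G : (Fin n → ℂ) → ℂ`,
  `G z = ∏ Th k (l j) (z j)` complex differentiable, and `fderiv ℝ` of `G(x+iξ)` in the direction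
  `(0, e_j)` is `i` times the one in the direction `(e_j, 0)`).
* `eb_add_mul`: `th_add_mul` in every factor; `eb_congr` from `eb_add_mul`.
* `cmb_mem`, `su_mem`: finite sums.
-/

set_option autoImplicit false

open MeasureTheory Complex
open scoped ContDiff ComplexConjugate

noncomputable section

namespace H72BT

open H99.EQ

/-- the coordinate `x_j` as a real linear map to `ℂ` -/
def Bas_c {n : ℕ} (j : Fin n) : Ph n →L[ℝ] ℂ :=
  Complex.ofRealCLM.comp ((ContinuousLinearMap.proj j).comp (ContinuousLinearMap.fst ℝ (V n) (V n)))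

/-- the coordinate `ξ_j` as a real linear map to `ℂ` -/
def Bas_d {n : ℕ} (j : Fin n) : Ph n →L[ℝ] ℂ :=
  Complex.ofRealCLM.comp ((ContinuousLinearMap.proj j).comp (ContinuousLinearMap.snd ℝ (V n) (V n)))

/-- the map `(x, ξ) ↦ x + iξ` -/
def Bas_z (n : ℕ) : Ph n →L[ℝ] (Fin n → ℂ) :=
  ContinuousLinearMap.pi fun j => Bas_c j + I • Bas_d j

theorem Bas_c_apply {n : ℕ} (j : Fin n) (q : Ph n) : Bas_c j q = (q.1 j : ℂ) := rfl

theorem Bas_z_apply {n : ℕ} (q : Ph n) (j : Fin n) :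
    Bas_z n q j = (q.1 j : ℂ) + (q.2 j : ℂ) * I := by
  change (q.1 j : ℂ) + I * (q.2 j : ℂ) = _
  ring

/-- the product of the entire functions -/
def Bas_G {n : ℕ} (k : ℕ) (l : Fin n → ℤ) (z : Fin n → ℂ) : ℂ := ∏ j, Th k (l j) (z j)

theorem Bas_G_contDiff {n k : ℕ} (hk : 1 ≤ k) (l : Fin n → ℤ) : ContDiff ℂ ∞ (Bas_G k l) := by
  unfold Bas_G
  refine contDiff_prod fun j _ => ?_
  exact (Th_diff hk (l j)).contDiff.comp (contDiff_apply ℂ ℂ j)

theorem Bas_eb {n k : ℕ} (hk : 1 ≤ k) (l : Fin n → ℤ) (q : Ph n) :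
    eb k l q = exp (-(Real.pi * k) * ∑ j, (Bas_c j q) ^ 2) * Bas_G k l (Bas_z n q) := by
  unfold eb Bas_G
  rw [Finset.mul_sum, exp_sum, ← Finset.prod_mul_distrib]
  refine Finset.prod_congr rfl fun j _ => ?_
  rw [th_eq hk, Bas_z_apply, Bas_c_apply]
  congr 2
  ring

theorem Bas_eb_fun {n k : ℕ} (hk : 1 ≤ k) (l : Fin n → ℤ) :
    (eb k l : Ph n → ℂ) = fun q => exp (-(Real.pi * k) * ∑ j, (Bas_c j q) ^ 2) *
      Bas_G k l (Bas_z n q) := funext (Bas_eb hk l)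

theorem Bas_smooth {n k : ℕ} (hk : 1 ≤ k) (l : Fin n → ℤ) :
    ContDiff ℝ ∞ (eb k l : Ph n → ℂ) := by
  rw [Bas_eb_fun hk l]
  have h1 : ContDiff ℝ ∞ (fun q : Ph n => -(Real.pi * k : ℂ) * ∑ j, (Bas_c j q) ^ 2) :=
    contDiff_const.mul (ContDiff.sum fun j _ => (Bas_c j).contDiff.pow 2)
  have h2 : ContDiff ℝ ∞ (Bas_G k l) := (Bas_G_contDiff hk l).restrict_scalars ℝ
  exact (Complex.contDiff_exp.comp h1).mul (h2.comp (Bas_z n).contDiff)

theorem Bas_add_int {k : ℕ} (hk : 1 ≤ k) (l m : ℤ) (x ξ : ℝ) :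
    th k l (x + m) ξ = exp (2 * Real.pi * I * k * (m * ξ)) * th k l x ξ := by
  induction m using Int.induction_on generalizing x with
  | zero => simp
  | succ m ih =>
    have h : x + ((m + 1 : ℤ) : ℝ) = (x + (m : ℤ)) + 1 := by push_cast; ring
    have h' : (2 * Real.pi * I * k * (((m + 1 : ℤ) : ℂ) * ξ) : ℂ) =
        2 * Real.pi * I * k * ξ + 2 * Real.pi * I * k * (((m : ℤ) : ℂ) * ξ) := by
      push_cast; ring
    rw [h, th_add_x hk, ih, h', exp_add, ← mul_assoc]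
  | pred m ih =>
    have h1 := th_add_x hk l (x + ((-m - 1 : ℤ) : ℝ)) ξ
    have h : x + ((-m - 1 : ℤ) : ℝ) + 1 = x + ((-m : ℤ) : ℝ) := by push_cast; ring
    rw [h, ih] at h1
    have h' : (2 * Real.pi * I * k * (((-m - 1 : ℤ) : ℂ) * ξ) : ℂ) =
        -(2 * Real.pi * I * k * ξ) + 2 * Real.pi * I * k * (((-m : ℤ) : ℂ) * ξ) := by
      push_cast; ring
    rw [h', exp_add, mul_assoc, h1, ← mul_assoc, ← exp_add, neg_add_cancel, exp_zero, one_mul]

theorem Bas_add_int_xi (k : ℕ) (l m : ℤ) (x ξ : ℝ) : th k l x (ξ + m) = th k l x ξ := by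
  induction m using Int.induction_on with
  | zero => simp
  | succ m ih =>
    have h : ξ + ((m + 1 : ℤ) : ℝ) = (ξ + (m : ℤ)) + 1 := by push_cast; ring
    rw [h, th_add_xi, ih]
  | pred m ih =>
    have h1 := th_add_xi k l x (ξ + ((-m - 1 : ℤ) : ℝ))
    have h : ξ + ((-m - 1 : ℤ) : ℝ) + 1 = ξ + ((-m : ℤ) : ℝ) := by push_cast; ring
    rw [h, ih] at h1
    exact h1.symm

theorem Bas_dbar {n k : ℕ} (hk : 1 ≤ k) (l : Fin n → ℤ) (j : Fin n) (q : Ph n) :
    fderiv ℝ (eb k l : Ph n → ℂ) q (Pi.single j 1, 0) +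
      I * fderiv ℝ (eb k l : Ph n → ℂ) q (0, Pi.single j 1) +
      2 * Real.pi * k * (q.1 j : ℂ) * eb k l q = 0 := by
  have h1 : HasFDerivAt (fun q : Ph n => ∑ i, (Bas_c i q) ^ 2)
      (∑ i, (2 * Bas_c i q) • (Bas_c i : Ph n →L[ℝ] ℂ)) q := by
    refine HasFDerivAt.fun_sum fun i _ => ?_
    have h := ((Bas_c i : Ph n →L[ℝ] ℂ).hasFDerivAt (x := q)).pow 2
    simpa using h
  have h2 := (h1.const_mul (-(Real.pi * k : ℂ))).cexp
  have h3 : HasFDerivAt (Bas_G k l)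
      ((fderiv ℂ (Bas_G k l) (Bas_z n q)).restrictScalars ℝ) (Bas_z n q) :=
    (((Bas_G_contDiff hk l).differentiable (by simp)) _).hasFDerivAt.restrictScalars ℝ
  have h4 := h3.comp q ((Bas_z n).hasFDerivAt (x := q))
  have h5 := h2.mul h4
  have h6 := h5.fderiv
  have h7 : (fun x => exp (-(Real.pi * k : ℂ) * ∑ i, (Bas_c i) x ^ 2)) * Bas_G k l ∘ (Bas_z n) =
      (eb k l : Ph n → ℂ) := (Bas_eb_fun hk l).symm
  rw [h7] at h6
  have hz1 : Bas_z n (Pi.single j 1, 0) = Pi.single j 1 := by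
    funext i
    rw [Bas_z_apply]
    by_cases hij : i = j
    · subst hij; simp
    · simp [hij]
  have hz2 : Bas_z n (0, Pi.single j 1) = I • Pi.single j 1 := by
    funext i
    rw [Bas_z_apply]
    by_cases hij : i = j
    · subst hij; simp
    · simp [hij]
  have hs1 : ∑ i, (2 * Bas_c i q) * Bas_c i ((Pi.single j 1, 0) : Ph n) = 2 * (q.1 j : ℂ) := by
    rw [Finset.sum_eq_single j]
    · simp [Bas_c_apply]
    · intro i _ hij
      simp [Bas_c_apply, hij]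
    · simp
  have hs2 : ∑ i, (2 * Bas_c i q) * Bas_c i ((0, Pi.single j 1) : Ph n) = 0 := by
    apply Finset.sum_eq_zero
    intro i _
    simp [Bas_c_apply]
  have e1 : ∀ v : Ph n, fderiv ℝ (eb k l : Ph n → ℂ) q v =
      exp (-(Real.pi * k) * ∑ i, (Bas_c i q) ^ 2) *
        fderiv ℂ (Bas_G k l) (Bas_z n q) (Bas_z n v) +
      Bas_G k l (Bas_z n q) * (exp (-(Real.pi * k) * ∑ i, (Bas_c i q) ^ 2) *
        (-(Real.pi * k) * ∑ i, (2 * Bas_c i q) * Bas_c i v)) := by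
    intro v
    rw [h6]
    simp [ContinuousLinearMap.sum_apply]
  rw [e1, e1, hz1, hz2, hs1, hs2, Bas_eb hk, map_smul, smul_eq_mul]
  linear_combination (exp (-(Real.pi * k) * ∑ i, (Bas_c i q) ^ 2) *
        fderiv ℂ (Bas_G k l) (Bas_z n q) (Pi.single j 1)) * I_sq

theorem eb_mem {n k : ℕ} (hk : 1 ≤ k) (l : Fin n → ℤ) : eb k l ∈ Hol n k := by
  refine ⟨Bas_smooth hk l, fun a x ξ => ?_, fun a x ξ => ?_, fun j q => Bas_dbar hk l j q⟩
  · unfold eb
    rw [Finset.mul_sum, exp_sum, ← Finset.prod_mul_distrib]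
    refine Finset.prod_congr rfl fun j _ => ?_
    exact Bas_add_int hk (l j) (a j) (x j) (ξ j)
  · unfold eb
    refine Finset.prod_congr rfl fun j _ => ?_
    exact Bas_add_int_xi k (l j) (a j) (x j) (ξ j)

theorem eb_add_mul {n k : ℕ} (hk : 1 ≤ k) (l r : Fin n → ℤ) :
    (eb k (fun i => l i + k * r i) : Ph n → ℂ) = eb k l := by
  funext q
  unfold eb
  refine Finset.prod_congr rfl fun j _ => ?_
  exact th_add_mul hk (l j) (r j) _ _

theorem eb_congr {n k : ℕ} (hk : 1 ≤ k) (l r : Fin n → ℤ) (h : ∀ i, (k : ℤ) ∣ l i - r i) :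
    (eb k l : Ph n → ℂ) = eb k r := by
  choose t ht using h
  have : l = fun i => r i + k * t i := by
    funext i
    have := ht i
    linarith
  rw [this]
  exact eb_add_mul hk r t

theorem cmb_mem {n k : ℕ} (hk : 1 ≤ k) (c : (Fin n → Fin k) → ℂ) : cmb c ∈ Hol n k := by
  have h : cmb c = ∑ j, c j • (eb k (jz j) : Ph n → ℂ) := by
    funext q
    simp [cmb]
  rw [h]
  exact Submodule.sum_mem _ fun j _ => Submodule.smul_mem _ _ (eb_mem hk _)

theorem su_mem {n k : ℕ} (hk : 1 ≤ k) (u : V n → ℂ) : su k u ∈ Hol n k :=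
  cmb_mem hk fun l => u (fun j => ((l j : ℕ) : ℝ) / k)

end H72BT
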