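import Pool.Agent.H72.BT.Four

/-!
BT-19. The coefficient functions are smooth and periodic.

Proofs.
* `ser_mem`: `x ↦ ea a x` is smooth with `‖iteratedFDeriv ℝ N (ea a) x‖ ≤ (C_n (1+‖a‖))^N`
  (it is `exp` of a linear function: `ea a x = exp (L x)` with `L = 2πi a·`; e.g. by induction
  `iteratedFDeriv N (ea a) x v = (∏ L (v i)) * ea a x`, `‖L‖ ≤ 2π n ‖a‖`), so `contDiff_tsum`
  applies with the summable bounds `‖c ab‖ (C_n (1+‖ab‖))^N`; periodicity termwise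
  (`exp (2πi a·m) = 1`).
* `cofP_mem`: `ser_mem` with `c ab = fc f a b * lam a b ^ r * ∏ (-b_{l t})`, `‖lam‖ ≤ C(1+‖ab‖)²` (reprove
  or use `lam_norm` of `Tay.lean`), `|b_j| ≤ ‖ab‖`, `fc_summable` with exponent `N + 2r + i`.
-/

set_option autoImplicit false

open MeasureTheory Complex
open scoped ContDiff ComplexConjugate

noncomputable section

namespace H72BT

open H99.EQ

/-- the real linear form `x ↦ 2π a·x` -/
private def linA {n : ℕ} (a : Fin n → ℤ) : V n →L[ℝ] ℝ :=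
  ∑ j, (2 * Real.pi * (a j : ℝ)) • (ContinuousLinearMap.proj j : V n →L[ℝ] ℝ)

private theorem linA_apply {n : ℕ} (a : Fin n → ℤ) (x : V n) :
    linA a x = 2 * Real.pi * ∑ j, (a j : ℝ) * x j := by
  unfold linA
  rw [ContinuousLinearMap.sum_apply, Finset.mul_sum]
  refine Finset.sum_congr rfl fun j _ => ?_
  rw [ContinuousLinearMap.smul_apply, ContinuousLinearMap.proj_apply, smul_eq_mul]
  ring

private theorem ivec_le {n : ℕ} (ab : (Fin n → ℤ) × (Fin n → ℤ)) (j : Fin n) :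
    |(ab.1 j : ℝ)| ≤ 1 + ‖ab‖ ∧ |(ab.2 j : ℝ)| ≤ 1 + ‖ab‖ := by
  have h1 : ‖ab.1 j‖ ≤ ‖ab‖ := (norm_le_pi_norm ab.1 j).trans (norm_fst_le ab)
  have h2 : ‖ab.2 j‖ ≤ ‖ab‖ := (norm_le_pi_norm ab.2 j).trans (norm_snd_le ab)
  rw [Int.norm_eq_abs] at h1 h2
  constructor <;> linarith

private theorem linA_norm {n : ℕ} (ab : (Fin n → ℤ) × (Fin n → ℤ)) :
    ‖linA ab.1‖ ≤ (2 * Real.pi * n) * (1 + ‖ab‖) := by
  have h0 : 0 ≤ (1 : ℝ) + ‖ab‖ := add_nonneg zero_le_one (norm_nonneg _)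
  refine ContinuousLinearMap.opNorm_le_bound _ (by positivity) fun x => ?_
  rw [linA_apply, norm_mul, Real.norm_of_nonneg (by positivity : (0 : ℝ) ≤ 2 * Real.pi)]
  have h1 : ‖∑ j, (ab.1 j : ℝ) * x j‖ ≤ n * ((1 + ‖ab‖) * ‖x‖) := by
    refine (norm_sum_le _ _).trans ?_
    have h2 : ∀ j ∈ (Finset.univ : Finset (Fin n)), ‖(ab.1 j : ℝ) * x j‖ ≤ (1 + ‖ab‖) * ‖x‖ := by
      intro j _
      rw [norm_mul, Real.norm_eq_abs]
      exact mul_le_mul (ivec_le ab j).1 (norm_le_pi_norm x j) (norm_nonneg _) h0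
    have h3 := Finset.sum_le_card_nsmul _ _ _ h2
    rw [Finset.card_univ, Fintype.card_fin, nsmul_eq_mul] at h3
    exact h3
  calc 2 * Real.pi * ‖∑ j, (ab.1 j : ℝ) * x j‖ ≤ 2 * Real.pi * (n * ((1 + ‖ab‖) * ‖x‖)) :=
        mul_le_mul_of_nonneg_left h1 (by positivity)
    _ = 2 * Real.pi * n * (1 + ‖ab‖) * ‖x‖ := by ring

private theorem expI_iter (c : ℂ) (N : ℕ) :
    iteratedDeriv N (fun t : ℝ => c * exp (I * t)) = fun t : ℝ => c * I ^ N * exp (I * t) := by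
  induction N with
  | zero => simp
  | succ N ih =>
    rw [iteratedDeriv_succ, ih]
    funext t
    have h1 : HasDerivAt (fun t : ℝ => I * (t : ℂ)) I t := by
      have := (Complex.ofRealCLM.hasDerivAt (x := t)).const_mul I
      simpa using this
    have h2 := (h1.cexp).const_mul (c * I ^ N)
    rw [h2.deriv, pow_succ]
    ring

private theorem ea_eq {n : ℕ} (a : Fin n → ℤ) (x : V n) : ea a x = exp (I * ((linA a x : ℝ) : ℂ)) := by
  unfold ea
  rw [linA_apply]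
  congr 1
  push_cast
  ring

private theorem ea_fun {n : ℕ} (c : ℂ) (a : Fin n → ℤ) :
    (fun x : V n => c * ea a x) = (fun t : ℝ => c * exp (I * t)) ∘ (linA a) := by
  funext x
  simp only [Function.comp_apply, ea_eq]

private theorem expI_smooth (c : ℂ) : ContDiff ℝ ∞ (fun t : ℝ => c * exp (I * t)) :=
  contDiff_const.mul (Complex.contDiff_exp.comp (contDiff_const.mul Complex.ofRealCLM.contDiff))

private theorem ea_iter {n : ℕ} (c : ℂ) (ab : (Fin n → ℤ) × (Fin n → ℤ)) (N : ℕ) (x : V n) :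
    ‖iteratedFDeriv ℝ N (fun x : V n => c * ea ab.1 x) x‖ ≤
      ‖c‖ * ((2 * Real.pi * n) * (1 + ‖ab‖)) ^ N := by
  rw [ea_fun, ContinuousLinearMap.iteratedFDeriv_comp_right (linA ab.1) (expI_smooth c) x
    (by exact_mod_cast le_top)]
  refine (ContinuousMultilinearMap.norm_compContinuousLinearMap_le _ _).trans ?_
  rw [norm_iteratedFDeriv_eq_norm_iteratedDeriv, expI_iter, Finset.prod_const, Finset.card_univ,
    Fintype.card_fin]
  have h1 : ‖c * I ^ N * exp (I * ((linA ab.1 x : ℝ) : ℂ))‖ = ‖c‖ := by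
    rw [norm_mul, norm_mul, norm_pow, norm_I, one_pow, mul_one, mul_comm I, Complex.norm_exp_ofReal_mul_I,
      mul_one]
  rw [h1]
  exact mul_le_mul_of_nonneg_left (pow_le_pow_left₀ (norm_nonneg _) (linA_norm ab) N) (norm_nonneg _)

private theorem ea_norm1 {n : ℕ} (a : Fin n → ℤ) (x : V n) : ‖ea a x‖ = 1 := by
  rw [ea_eq, mul_comm I, Complex.norm_exp_ofReal_mul_I]

theorem ser_mem {n : ℕ} (c : (Fin n → ℤ) × (Fin n → ℤ) → ℂ)
    (hc : ∀ N : ℕ, Summable fun ab => ‖c ab‖ * (1 + ‖ab‖) ^ N) :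
    (fun x : V n => ∑' ab, c ab * ea ab.1 x) ∈ CP n := by
  constructor
  · refine contDiff_tsum (𝕜 := ℝ) (N := ⊤)
      (v := fun k ab => ‖c ab‖ * ((2 * Real.pi * n) * (1 + ‖ab‖)) ^ k) (fun ab => ?_) (fun k _ => ?_)
      (fun k ab x _ => ea_iter (c ab) ab k x)
    · have h1 : ContDiff ℝ ∞ (fun x : V n => c ab * ea ab.1 x) := by
        rw [ea_fun]
        exact (expI_smooth _).comp (linA ab.1).contDiff
      exact h1
    · have h2 := (hc k).mul_left ((2 * Real.pi * n) ^ k)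
      refine h2.congr fun ab => ?_
      show (2 * Real.pi * n) ^ k * (‖c ab‖ * (1 + ‖ab‖) ^ k) =
        ‖c ab‖ * ((2 * Real.pi * n) * (1 + ‖ab‖)) ^ k
      rw [mul_pow (2 * Real.pi * n) (1 + ‖ab‖) k]
      ring
  · intro m x
    refine tsum_congr fun ab => ?_
    have h3 : ea ab.1 (x + ivec m) = ea ab.1 x := (eP ab.1).2.2 m x
    rw [h3]

private theorem lam_bd {n : ℕ} (ab : (Fin n → ℤ) × (Fin n → ℤ)) :
    ‖lam ab.1 ab.2‖ ≤ (2 * Real.pi * n) * (1 + ‖ab‖) ^ 2 := by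
  have h0 : 0 ≤ (1 : ℝ) + ‖ab‖ := add_nonneg zero_le_one (norm_nonneg _)
  have hsq : |H99.EQ.sq ab.1 ab.2| ≤ n * (2 * (1 + ‖ab‖) ^ 2) := by
    unfold H99.EQ.sq
    refine (Finset.abs_sum_le_sum_abs _ _).trans ?_
    have h2 : ∀ j ∈ (Finset.univ : Finset (Fin n)),
        |(ab.1 j : ℝ) ^ 2 + (ab.2 j : ℝ) ^ 2| ≤ 2 * (1 + ‖ab‖) ^ 2 := by
      intro j _
      rw [abs_of_nonneg (by positivity), ← sq_abs (ab.1 j : ℝ), ← sq_abs (ab.2 j : ℝ)]
      have h3 := pow_le_pow_left₀ (abs_nonneg _) (ivec_le ab j).1 2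
      have h4 := pow_le_pow_left₀ (abs_nonneg _) (ivec_le ab j).2 2
      linarith
    have h3 := Finset.sum_le_card_nsmul _ _ _ h2
    rw [Finset.card_univ, Fintype.card_fin, nsmul_eq_mul] at h3
    exact h3
  have hdt : |dt ab.1 ab.2| ≤ n * (1 + ‖ab‖) ^ 2 := by
    unfold dt
    refine (Finset.abs_sum_le_sum_abs _ _).trans ?_
    have h2 : ∀ j ∈ (Finset.univ : Finset (Fin n)),
        |(ab.1 j : ℝ) * (ab.2 j : ℝ)| ≤ (1 + ‖ab‖) ^ 2 := by
      intro j _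
      rw [abs_mul, _root_.sq]
      exact mul_le_mul (ivec_le ab j).1 (ivec_le ab j).2 (abs_nonneg _) h0
    have h3 := Finset.sum_le_card_nsmul _ _ _ h2
    rw [Finset.card_univ, Fintype.card_fin, nsmul_eq_mul] at h3
    exact h3
  unfold lam
  refine (norm_sub_le _ _).trans ?_
  have e1 : ‖-((Real.pi : ℂ) / 2) * (H99.EQ.sq ab.1 ab.2 : ℂ)‖ =
      Real.pi / 2 * |H99.EQ.sq ab.1 ab.2| := by
    rw [norm_mul, norm_neg, Complex.norm_real, Real.norm_eq_abs]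
    congr 1
    rw [norm_div, Complex.norm_real, Real.norm_of_nonneg Real.pi_pos.le]
    norm_num
  have e2 : ‖(Real.pi : ℂ) * I * (dt ab.1 ab.2 : ℂ)‖ = Real.pi * |dt ab.1 ab.2| := by
    rw [norm_mul, norm_mul, Complex.norm_real, Complex.norm_real, norm_I, mul_one,
      Real.norm_of_nonneg Real.pi_pos.le, Real.norm_eq_abs]
  rw [e1, e2]
  have hpi := Real.pi_pos
  calc Real.pi / 2 * |H99.EQ.sq ab.1 ab.2| + Real.pi * |dt ab.1 ab.2| ≤
        Real.pi / 2 * (n * (2 * (1 + ‖ab‖) ^ 2)) + Real.pi * (n * (1 + ‖ab‖) ^ 2) :=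
        add_le_add (mul_le_mul_of_nonneg_left hsq (by positivity))
          (mul_le_mul_of_nonneg_left hdt hpi.le)
    _ = (2 * Real.pi * n) * (1 + ‖ab‖) ^ 2 := by ring

private theorem cof_bd {n : ℕ} {f : Ph n → ℂ} (hf : IsSm f) (r : ℕ) {i : ℕ} (l : Fin i → Fin n)
    (N : ℕ) : Summable fun ab : (Fin n → ℤ) × (Fin n → ℤ) =>
      ‖fc f ab.1 ab.2 * lam ab.1 ab.2 ^ r * (∏ t, (-(ab.2 (l t) : ℂ)))‖ * (1 + ‖ab‖) ^ N := by
  refine Summable.of_nonneg_of_le (fun ab => ?_) (fun ab => ?_)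
    ((fc_summable hf (2 * r + i + N)).mul_left ((2 * Real.pi * n) ^ r))
  · exact mul_nonneg (norm_nonneg _) (pow_nonneg (add_nonneg zero_le_one (norm_nonneg _)) _)
  · have h0 : 0 ≤ (1 : ℝ) + ‖ab‖ := add_nonneg zero_le_one (norm_nonneg _)
    have h1 : ‖lam ab.1 ab.2 ^ r‖ ≤ ((2 * Real.pi * n) * (1 + ‖ab‖) ^ 2) ^ r := by
      rw [norm_pow]
      exact pow_le_pow_left₀ (norm_nonneg _) (lam_bd ab) r
    have h2 : ‖∏ t, (-(ab.2 (l t) : ℂ))‖ ≤ (1 + ‖ab‖) ^ i := by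
      rw [norm_prod]
      have h3 : ∀ t ∈ (Finset.univ : Finset (Fin i)), ‖(-(ab.2 (l t) : ℂ))‖ ≤ 1 + ‖ab‖ := by
        intro t _
        rw [norm_neg, Complex.norm_intCast]
        exact (ivec_le ab (l t)).2
      refine (Finset.prod_le_prod (fun t _ => norm_nonneg _) h3).trans ?_
      rw [Finset.prod_const, Finset.card_univ, Fintype.card_fin]
    rw [norm_mul, norm_mul]
    calc ‖fc f ab.1 ab.2‖ * ‖lam ab.1 ab.2 ^ r‖ * ‖∏ t, (-(ab.2 (l t) : ℂ))‖ * (1 + ‖ab‖) ^ N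
        ≤ ‖fc f ab.1 ab.2‖ * ((2 * Real.pi * n) * (1 + ‖ab‖) ^ 2) ^ r * (1 + ‖ab‖) ^ i *
          (1 + ‖ab‖) ^ N := by
          refine mul_le_mul_of_nonneg_right ?_ (pow_nonneg h0 _)
          exact mul_le_mul (mul_le_mul_of_nonneg_left h1 (norm_nonneg _)) h2 (norm_nonneg _)
            (by positivity)
      _ = (2 * Real.pi * n) ^ r * (‖fc f ab.1 ab.2‖ * (1 + ‖ab‖) ^ (2 * r + i + N)) := by
          rw [mul_pow, ← pow_mul, pow_add, pow_add]
          ring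

theorem cofP_mem {n : ℕ} {f : Ph n → ℂ} (hf : IsSm f) (r : ℕ) {i : ℕ} (l : Fin i → Fin n) :
    cofP f r l ∈ CP n := by
  exact ser_mem (fun ab => fc f ab.1 ab.2 * lam ab.1 ab.2 ^ r * (∏ t, (-(ab.2 (l t) : ℂ))))
    (cof_bd hf r l)

theorem cofP_summable {n : ℕ} {f : Ph n → ℂ} (hf : IsSm f) (r : ℕ) {i : ℕ} (l : Fin i → Fin n)
    (x : V n) :
    Summable fun ab : (Fin n → ℤ) × (Fin n → ℤ) => fc f ab.1 ab.2 * lam ab.1 ab.2 ^ r *
      (∏ t, (-(ab.2 (l t) : ℂ))) * ea ab.1 x := by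
  have h1 := cof_bd hf r l 0
  simp only [pow_zero, mul_one] at h1
  refine Summable.of_norm ?_
  refine h1.congr fun ab => ?_
  rw [norm_mul _ (ea ab.1 x), ea_norm1, mul_one]

end H72BT
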