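import Pool.Agent.H72.BT.Comp

/-!
BT-27. Exact commutation implies graded commutation.

Proof. Fix `u` and put `E W = (∑_{vw ∈ antidiagonal W} (A_v B_w - B_w A_v)) u ∈ CP n`,
`A_v = opS pdx (symW f hf v)`, `B_w = opS pdx (symW g hg w)`. By `cl_asym2` for `(P, Q)` and for
`(Q, P)` (the coefficients of `P k (Q k s)` and `Q k (P k s)` agree, `s = ⟨su k u, su_mem hk u⟩`), for
every `J` there is `C` with `‖∑_{v,w<J} (k^{v+w})⁻¹ ((A_v B_w - B_w A_v) u)(gp k l)‖ ≤ C/k^J` for all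
`k ≥ 1`, `l`. The pairs with `v + w ≥ J` contribute `O(k^{-J})` (`cp_bdd`), so (J-th truncation, sorted
by `W = v + w`, `Finset.sum_sigma'` / `Finset.Nat.sum_antidiagonal_eq_sum_range_succ`)
`‖∑_{W<J} (k^W)⁻¹ E W (gp k l)‖ ≤ C'/k^J` (`graded_small`). Strong induction on `W`: with `J = W+1` and
`E W' = 0` for `W' < W`: `‖E W (gp k l)‖ ≤ C'/k` for all `k ≥ 1`, `l`. At a point `gp k0 l0`
(`k0 ≥ 1`) use `gp (N k0) (N l0) = gp k0 l0`: `‖E W (gp k0 l0)‖ ≤ C'/(N k0) → 0`, so `E W` vanishes at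
all these points, which are dense (common denominators; or approximate `x` by
`gp k (fun i => ⌊k x_i⌋)` and pass to the limit directly: `E W (gp k ⌊k x⌋) → E W x` by continuity
and `→ 0`), so `E W = 0` (`eq_zero_of_grid`).
-/

set_option autoImplicit false

open MeasureTheory Complex
open scoped ContDiff ComplexConjugate

noncomputable section

namespace H72BT

open H99.EQ

theorem CommG_gp_tendsto {n : ℕ} (x : V n) :
    Filter.Tendsto (fun k : ℕ => gp k (fun i => ⌊(k : ℝ) * x i⌋)) Filter.atTop (nhds x) := by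
  rw [tendsto_pi_nhds]
  intro i
  rw [tendsto_iff_norm_sub_tendsto_zero]
  have h1 : Filter.Tendsto (fun k : ℕ => ((k : ℝ))⁻¹) Filter.atTop (nhds 0) :=
    tendsto_inv_atTop_nhds_zero_nat
  refine squeeze_zero' (Filter.Eventually.of_forall fun k => norm_nonneg _) ?_ h1
  filter_upwards [Filter.eventually_ge_atTop 1] with k hk
  have hk1 : (0 : ℝ) < k := by exact_mod_cast hk
  have h2 : gp k (fun i => ⌊(k : ℝ) * x i⌋) i - x i = -(Int.fract ((k : ℝ) * x i)) / k := by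
    rw [Int.fract]
    simp only [gp]
    field_simp
    ring
  rw [h2, norm_div, norm_neg, Real.norm_eq_abs, Real.norm_eq_abs, abs_of_pos hk1,
    abs_of_nonneg (Int.fract_nonneg _), div_eq_mul_inv]
  have h3 := (Int.fract_lt_one ((k : ℝ) * x i)).le
  have h4 : (0 : ℝ) < (k : ℝ)⁻¹ := inv_pos.2 hk1
  nlinarith

theorem eq_zero_of_grid {n : ℕ} (u : CP n) (C : ℝ)
    (h : ∀ k : ℕ, 1 ≤ k → ∀ l : Fin n → ℤ, ‖(u : V n → ℂ) (gp k l)‖ ≤ C / k) : u = 0 := by
  apply Subtype.ext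
  funext x
  have h1 : Filter.Tendsto (fun k : ℕ => (u : V n → ℂ) (gp k (fun i => ⌊(k : ℝ) * x i⌋)))
      Filter.atTop (nhds ((u : V n → ℂ) x)) :=
    (u.2.1.continuous.tendsto x).comp (CommG_gp_tendsto x)
  have h2 : Filter.Tendsto (fun k : ℕ => (u : V n → ℂ) (gp k (fun i => ⌊(k : ℝ) * x i⌋)))
      Filter.atTop (nhds 0) := by
    rw [tendsto_zero_iff_norm_tendsto_zero]
    refine squeeze_zero' (Filter.Eventually.of_forall fun k => norm_nonneg _) ?_
      (tendsto_const_div_atTop_nhds_zero_nat C)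
    filter_upwards [Filter.eventually_ge_atTop 1] with k hk
    exact h k hk _
  exact tendsto_nhds_unique h1 h2

theorem CommG_sum (J : ℕ) (F : ℕ → ℕ → ℂ) :
    ∑ v ∈ Finset.range J, ∑ w ∈ Finset.range J, F v w =
      ∑ W ∈ Finset.range J, ∑ vw ∈ Finset.HasAntidiagonal.antidiagonal W, F vw.1 vw.2 +
      ∑ vw ∈ (Finset.range J ×ˢ Finset.range J).filter (fun vw => ¬ vw.1 + vw.2 < J),
        F vw.1 vw.2 := by
  rw [← Finset.sum_product' (Finset.range J) (Finset.range J) F,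
    ← Finset.sum_filter_add_sum_filter_not (Finset.range J ×ˢ Finset.range J)
      (fun vw => vw.1 + vw.2 < J) (fun vw => F vw.1 vw.2)]
  congr 1
  rw [← Finset.sum_fiberwise_of_maps_to (s := (Finset.range J ×ˢ Finset.range J).filter
    (fun vw => vw.1 + vw.2 < J)) (t := Finset.range J)
    (g := fun vw : ℕ × ℕ => vw.1 + vw.2)
    (fun vw hvw => Finset.mem_range.2 (Finset.mem_filter.1 hvw).2) (fun vw => F vw.1 vw.2)]
  refine Finset.sum_congr rfl fun W hW => ?_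
  refine Finset.sum_congr ?_ fun _ _ => rfl
  ext vw
  have hW' := Finset.mem_range.1 hW
  simp only [Finset.mem_filter, Finset.mem_product, Finset.mem_range,
    Finset.HasAntidiagonal.mem_antidiagonal]
  constructor
  · rintro ⟨⟨⟨h1, h2⟩, h3⟩, h4⟩
    exact h4
  · intro h
    refine ⟨⟨⟨?_, ?_⟩, ?_⟩, h⟩ <;> omega

theorem CommG_ev {n : ℕ} (S : Finset (ℕ × ℕ)) (G : ℕ × ℕ → CP n) (x : V n) :
    ((∑ vw ∈ S, G vw : CP n) : V n → ℂ) x = ∑ vw ∈ S, (G vw : V n → ℂ) x :=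
  map_sum (evP x) G S

theorem graded_small {n : ℕ} {P Q : ∀ k : ℕ, Hol n k →ₗ[ℂ] Hol n k} {f g : ℕ → Ph n → ℂ}
    (hf : ∀ j, IsSm (f j)) (hg : ∀ j, IsSm (g j)) (hP : AsymP P f) (hQ : AsymP Q g)
    (hc : ∀ k : ℕ, 1 ≤ k → ∀ s : Hol n k, P k (Q k s) = Q k (P k s)) (u : CP n) (J : ℕ) :
    ∃ C : ℝ, ∀ k : ℕ, 1 ≤ k → ∀ l : Fin n → ℤ,
      ‖∑ W ∈ Finset.range J, ((k : ℂ) ^ W)⁻¹ *
        (((∑ vw ∈ Finset.HasAntidiagonal.antidiagonal W,
          (opS pdx (symW f hf vw.1) * opS pdx (symW g hg vw.2) -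
            opS pdx (symW g hg vw.2) * opS pdx (symW f hf vw.1))) u : CP n) : V n → ℂ)
            (gp k l)‖ ≤ C / (k : ℝ) ^ J := by
  obtain ⟨C1, hC1, h1⟩ := cl_asym2 hf hg hP hQ u J
  obtain ⟨C2, hC2, h2⟩ := cl_asym2 hg hf hQ hP u J
  obtain ⟨D, hD⟩ : ∃ D : ℕ → ℕ → CP n, ∀ v w, D v w =
    (opS pdx (symW f hf v) * opS pdx (symW g hg w) -
      opS pdx (symW g hg w) * opS pdx (symW f hf v)) u := ⟨_, fun _ _ => rfl⟩
  have hM : ∀ v w : ℕ, ∃ M : ℝ, ∀ x, ‖(D v w : V n → ℂ) x‖ ≤ M := by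
    intro v w
    obtain ⟨M, hM⟩ := cp_bdd (D v w) 0
    exact ⟨M, fun x => by simpa using hM x⟩
  choose M hM using hM
  have hM0 : ∀ v w, 0 ≤ M v w := fun v w => (norm_nonneg _).trans (hM v w 0)
  refine ⟨C1 + C2 + ∑ vw ∈ Finset.range J ×ˢ Finset.range J, M vw.1 vw.2, fun k hk l => ?_⟩
  have hk1 : (1 : ℝ) ≤ k := by exact_mod_cast hk
  have hk0 : (0 : ℝ) < (k : ℝ) ^ J := by positivity
  have hs := h1 k hk ⟨su k (u : V n → ℂ), su_mem (n := n) hk _⟩ rfl l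
  have ht := h2 k hk ⟨su k (u : V n → ℂ), su_mem (n := n) hk _⟩ rfl l
  rw [← hc k hk] at ht
  set c := cl k l (P k (Q k ⟨su k (u : V n → ℂ), su_mem (n := n) hk _⟩) : Ph n → ℂ)
  have hcomm : ∑ v ∈ Finset.range J, ∑ w ∈ Finset.range J, ((k : ℂ) ^ (v + w))⁻¹ *
      ((opS pdx (symW g hg v) (opS pdx (symW f hf w) u) : CP n) : V n → ℂ) (gp k l) =
      ∑ v ∈ Finset.range J, ∑ w ∈ Finset.range J, ((k : ℂ) ^ (v + w))⁻¹ *
      ((opS pdx (symW g hg w) (opS pdx (symW f hf v) u) : CP n) : V n → ℂ) (gp k l) := by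
    rw [Finset.sum_comm]
    refine Finset.sum_congr rfl fun v _ => Finset.sum_congr rfl fun w _ => ?_
    rw [add_comm w v]
  rw [hcomm] at ht
  have hT : ∑ v ∈ Finset.range J, ∑ w ∈ Finset.range J, ((k : ℂ) ^ (v + w))⁻¹ *
      (D v w : V n → ℂ) (gp k l) =
      ∑ v ∈ Finset.range J, ∑ w ∈ Finset.range J, ((k : ℂ) ^ (v + w))⁻¹ *
      ((opS pdx (symW f hf v) (opS pdx (symW g hg w) u) : CP n) : V n → ℂ) (gp k l) -
      ∑ v ∈ Finset.range J, ∑ w ∈ Finset.range J, ((k : ℂ) ^ (v + w))⁻¹ *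
      ((opS pdx (symW g hg w) (opS pdx (symW f hf v) u) : CP n) : V n → ℂ) (gp k l) := by
    rw [← Finset.sum_sub_distrib]
    refine Finset.sum_congr rfl fun v _ => ?_
    rw [← Finset.sum_sub_distrib]
    refine Finset.sum_congr rfl fun w _ => ?_
    rw [← mul_sub, hD]
    rfl
  have hTn : ‖∑ v ∈ Finset.range J, ∑ w ∈ Finset.range J, ((k : ℂ) ^ (v + w))⁻¹ *
      (D v w : V n → ℂ) (gp k l)‖ ≤ C1 / (k : ℝ) ^ J + C2 / (k : ℝ) ^ J := by
    rw [hT]
    refine le_trans ?_ (add_le_add hs ht)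
    rw [← norm_neg (c - _)]
    refine le_trans (le_of_eq ?_) (norm_add_le _ _)
    congr 1
    ring
  rw [CommG_sum J (fun v w => ((k : ℂ) ^ (v + w))⁻¹ * (D v w : V n → ℂ) (gp k l))] at hTn
  have hR : ‖∑ vw ∈ (Finset.range J ×ˢ Finset.range J).filter (fun vw => ¬ vw.1 + vw.2 < J),
      ((k : ℂ) ^ (vw.1 + vw.2))⁻¹ * (D vw.1 vw.2 : V n → ℂ) (gp k l)‖ ≤
      (∑ vw ∈ Finset.range J ×ˢ Finset.range J, M vw.1 vw.2) / (k : ℝ) ^ J := by
    refine (norm_sum_le _ _).trans ?_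
    rw [Finset.sum_div]
    refine (Finset.sum_le_sum fun vw hvw => ?_).trans
      (Finset.sum_le_sum_of_subset_of_nonneg (Finset.filter_subset _ _) fun vw _ _ => ?_)
    · have h3 := (Finset.mem_filter.1 hvw).2
      rw [norm_mul, norm_inv, norm_pow, Complex.norm_natCast, div_eq_inv_mul]
      have h4 : ((k : ℝ) ^ (vw.1 + vw.2))⁻¹ ≤ ((k : ℝ) ^ J)⁻¹ :=
        inv_anti₀ hk0 (pow_le_pow_right₀ hk1 (not_lt.1 h3))
      exact mul_le_mul h4 (hM _ _ _) (norm_nonneg _) (inv_nonneg.2 hk0.le)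
    · exact div_nonneg (hM0 _ _) hk0.le
  have hgoal : ∑ W ∈ Finset.range J, ((k : ℂ) ^ W)⁻¹ *
        (((∑ vw ∈ Finset.HasAntidiagonal.antidiagonal W,
          (opS pdx (symW f hf vw.1) * opS pdx (symW g hg vw.2) -
            opS pdx (symW g hg vw.2) * opS pdx (symW f hf vw.1))) u : CP n) : V n → ℂ)
            (gp k l) =
      ∑ W ∈ Finset.range J, ∑ vw ∈ Finset.HasAntidiagonal.antidiagonal W,
        ((k : ℂ) ^ (vw.1 + vw.2))⁻¹ * (D vw.1 vw.2 : V n → ℂ) (gp k l) := by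
    refine Finset.sum_congr rfl fun W _ => ?_
    have h5 : (((∑ vw ∈ Finset.HasAntidiagonal.antidiagonal W,
          (opS pdx (symW f hf vw.1) * opS pdx (symW g hg vw.2) -
            opS pdx (symW g hg vw.2) * opS pdx (symW f hf vw.1))) u : CP n) : V n → ℂ)
            (gp k l) = ∑ vw ∈ Finset.HasAntidiagonal.antidiagonal W,
              (D vw.1 vw.2 : V n → ℂ) (gp k l) := by
      rw [LinearMap.sum_apply, CommG_ev]
      refine Finset.sum_congr rfl fun vw _ => ?_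
      rw [hD]
    rw [h5, Finset.mul_sum]
    refine Finset.sum_congr rfl fun vw hvw => ?_
    rw [Finset.HasAntidiagonal.mem_antidiagonal.1 hvw]
  rw [hgoal, add_div, add_div]
  refine le_trans ?_ (add_le_add hTn hR)
  rw [← norm_neg (∑ vw ∈ (Finset.range J ×ˢ Finset.range J).filter
    (fun vw => ¬ vw.1 + vw.2 < J), ((k : ℂ) ^ (vw.1 + vw.2))⁻¹ *
      (D vw.1 vw.2 : V n → ℂ) (gp k l))]
  refine le_trans (le_of_eq ?_) (norm_add_le _ _)
  congr 1
  ring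

theorem comm_graded {n : ℕ} {P Q : ∀ k : ℕ, Hol n k →ₗ[ℂ] Hol n k} {f g : ℕ → Ph n → ℂ}
    (hf : ∀ j, IsSm (f j)) (hg : ∀ j, IsSm (g j)) (hP : AsymP P f) (hQ : AsymP Q g)
    (hc : ∀ k : ℕ, 1 ≤ k → ∀ s : Hol n k, P k (Q k s) = Q k (P k s)) (W : ℕ) :
    ∑ vw ∈ Finset.HasAntidiagonal.antidiagonal W,
      (opS pdx (symW f hf vw.1) * opS pdx (symW g hg vw.2) -
        opS pdx (symW g hg vw.2) * opS pdx (symW f hf vw.1)) = 0 := by
  induction W using Nat.strong_induction_on with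
  | _ W ih =>
    apply LinearMap.ext
    intro u
    obtain ⟨C, hC⟩ := graded_small hf hg hP hQ hc u (W + 1)
    refine eq_zero_of_grid _ C fun k hk l => ?_
    have h1 := hC k hk l
    have hk0 : (0 : ℝ) < k := by exact_mod_cast hk
    rw [Finset.sum_range_succ, Finset.sum_eq_zero, zero_add, norm_mul, norm_inv, norm_pow,
      Complex.norm_natCast, pow_succ, ← div_div, div_right_comm, inv_mul_eq_div,
      div_le_div_iff_of_pos_right (by positivity)] at h1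
    · exact h1
    · intro W' hW'
      rw [ih W' (Finset.mem_range.1 hW')]
      simp

end H72BT
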