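import Pool.Agent.H72.BT.Asym

/-!
BT-26. Asymptotics of the coefficients of `P_k Q_k su(u)`.

Proof. Let `J' = J + n`, `y_w = opS pdx (symW g hg w) u ∈ CP n` for `w < J'`. By `cl_asym` for `Q` and
`J'`: `cl k (jz j) (Q k s) = ∑_{w<J'} (k^w)⁻¹ y_w (gp k (jz j)) + r_j`, `‖r_j‖ ≤ C_Q/k^{J'}`. By `span` and
`su_eq`, `Q k s = ∑_{w<J'} (k^w)⁻¹ • ⟨su k y_w, su_mem⟩ + ⟨cmb r, cmb_mem⟩` in `Hol n k`
(`Subtype.ext`, `funext`, finite sums). Apply the linear map `P k` and the linear functional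
`cl k l` (`ip_sum_left`; elements of `Hol n k` are continuous):
`cl k l (P (Q s)) = ∑_{w<J'} (k^w)⁻¹ cl k l (P ⟨su k y_w⟩) + cl k l (P ⟨cmb r⟩)`.
The last term: `AsymP P f` with `J = 0` (empty sum) gives
`sc ‖ip (P cmb r) (eb k l)‖ ≤ C₀ sc nrm (cmb r) nrm (eb k l) ≤ C₀ (C_Q/k^{J'}) k^n = C₀ C_Q/k^J`
(`nrm_mul_le`). By `cl_asym` for `P`, `y_w` and `J`:
`cl k l (P ⟨su k y_w⟩) = ∑_{v<J} (k^v)⁻¹ (opS pdx (symW f hf v) y_w) (gp k l) + O(k^{-J})`.
The terms with `J ≤ w < J'` are `O(k^{-J})` (`cp_bdd`), `(k^w)⁻¹ ≤ 1`.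
-/

set_option autoImplicit false

open MeasureTheory Complex
open scoped ContDiff ComplexConjugate

noncomputable section

namespace H72BT

open H99.EQ

/-- the coefficient `cl k l` as a linear functional on `Hol n k` -/
private def CompL {n k : ℕ} (l : Fin n → ℤ) (hk : 1 ≤ k) : Hol n k →ₗ[ℂ] ℂ where
  toFun s := cl k l (s : Ph n → ℂ)
  map_add' s t := by
    have h1 : ip ((s : Ph n → ℂ) + (t : Ph n → ℂ)) (eb k l) =
        ip (s : Ph n → ℂ) (eb k l) + ip (t : Ph n → ℂ) (eb k l) := by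
      have hs : Continuous (s : Ph n → ℂ) := s.2.1.continuous
      have ht : Continuous (t : Ph n → ℂ) := t.2.1.continuous
      have he : Continuous (eb k l : Ph n → ℂ) := Norm_cont hk l
      have i1 : IntegrableOn (fun q => (s : Ph n → ℂ) q * (starRingEnd ℂ) (eb k l q)) (cube n) :=
        lin_int (hs.mul (continuous_conj.comp he))
      have i2 : IntegrableOn (fun q => (t : Ph n → ℂ) q * (starRingEnd ℂ) (eb k l q)) (cube n) :=
        lin_int (ht.mul (continuous_conj.comp he))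
      unfold ip
      rw [← integral_add i1 i2]
      congr 1
      funext q
      simp only [Pi.add_apply]
      ring
    change (sc n k : ℂ) * ip ((s : Ph n → ℂ) + (t : Ph n → ℂ)) (eb k l) = _
    rw [h1, mul_add]
    rfl
  map_smul' c s := by
    have h1 : ip (c • (s : Ph n → ℂ)) (eb k l) = c * ip (s : Ph n → ℂ) (eb k l) := by
      unfold ip
      rw [← integral_const_mul]
      congr 1
      funext q
      simp only [Pi.smul_apply, smul_eq_mul]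
      ring
    change (sc n k : ℂ) * ip (c • (s : Ph n → ℂ)) (eb k l) = _
    rw [h1]
    simp only [RingHom.id_apply, smul_eq_mul]
    unfold cl
    ring

private theorem CompL_apply {n k : ℕ} (l : Fin n → ℤ) (hk : 1 ≤ k) (s : Hol n k) :
    CompL l hk s = cl k l (s : Ph n → ℂ) := rfl

private theorem Comp_dec {n k : ℕ} (hk : 1 ≤ k) (s : Hol n k) (J : ℕ) (y : ℕ → CP n) :
    s = (∑ w ∈ Finset.range J, ((k : ℂ) ^ w)⁻¹ • (⟨su k (y w : V n → ℂ), su_mem hk _⟩ : Hol n k)) +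
      ⟨cmb fun j : Fin n → Fin k => cl k (jz j) (s : Ph n → ℂ) -
        ∑ w ∈ Finset.range J, ((k : ℂ) ^ w)⁻¹ * (y w : V n → ℂ) (gp k (jz j)), cmb_mem hk _⟩ := by
  apply Subtype.ext
  funext q
  have h1 : (s : Ph n → ℂ) q = ∑ j : Fin n → Fin k, cl k (jz j) (s : Ph n → ℂ) * eb k (jz j) q :=
    congrFun (span hk s.2) q
  rw [h1]
  have h2 : (((∑ w ∈ Finset.range J, ((k : ℂ) ^ w)⁻¹ •
      (⟨su k (y w : V n → ℂ), su_mem hk _⟩ : Hol n k) : Hol n k)) : Ph n → ℂ) q =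
      ∑ w ∈ Finset.range J, ((k : ℂ) ^ w)⁻¹ * ∑ j : Fin n → Fin k,
        (y w : V n → ℂ) (gp k (jz j)) * eb k (jz j) q := by
    rw [Submodule.coe_sum, Finset.sum_apply]
    refine Finset.sum_congr rfl fun w _ => ?_
    rw [Submodule.coe_smul, Pi.smul_apply, smul_eq_mul]
    congr 1
  rw [Submodule.coe_add, Pi.add_apply, h2]
  simp only [cmb, sub_mul, Finset.sum_sub_distrib, Finset.mul_sum, Finset.sum_mul]
  rw [Finset.sum_comm]
  have h3 : ∑ x : Fin n → Fin k, ∑ w ∈ Finset.range J,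
      ((k : ℂ) ^ w)⁻¹ * ((y w : V n → ℂ) (gp k (jz x)) * eb k (jz x) q) =
      ∑ x : Fin n → Fin k, ∑ w ∈ Finset.range J,
      ((k : ℂ) ^ w)⁻¹ * (y w : V n → ℂ) (gp k (jz x)) * eb k (jz x) q :=
    Finset.sum_congr rfl fun x _ => Finset.sum_congr rfl fun w _ => by ring
  rw [h3]
  ring

theorem cl_asym2 {n : ℕ} {P Q : ∀ k : ℕ, Hol n k →ₗ[ℂ] Hol n k} {f g : ℕ → Ph n → ℂ}
    (hf : ∀ j, IsSm (f j)) (hg : ∀ j, IsSm (g j)) (hP : AsymP P f) (hQ : AsymP Q g)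
    (u : CP n) (J : ℕ) :
    ∃ C : ℝ, 0 ≤ C ∧ ∀ k : ℕ, 1 ≤ k → ∀ s : Hol n k, (s : Ph n → ℂ) = su k (u : V n → ℂ) →
      ∀ l : Fin n → ℤ, ‖cl k l (P k (Q k s) : Ph n → ℂ) -
        ∑ v ∈ Finset.range J, ∑ w ∈ Finset.range J, ((k : ℂ) ^ (v + w))⁻¹ *
          ((opS pdx (symW f hf v) (opS pdx (symW g hg w) u) : CP n) : V n → ℂ) (gp k l)‖
        ≤ C / (k : ℝ) ^ J := by
  obtain ⟨CQ, hCQ0, hCQ⟩ := cl_asym hg hQ u (J + n)
  obtain ⟨C0, hC00, hC0⟩ := hP 0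
  set y : ℕ → CP n := fun w => opS pdx (symW g hg w) u with hy
  choose CP' hCP0 hCP using fun w : ℕ => cl_asym hf hP (y w) J
  choose M hM using fun (v w : ℕ) => cp_bdd (opS pdx (symW f hf v) (y w)) 0
  have hM' : ∀ v w x, ‖((opS pdx (symW f hf v) (y w) : CP n) : V n → ℂ) x‖ ≤ M v w := by
    intro v w x
    have := hM v w x
    rwa [norm_iteratedFDeriv_zero] at this
  have hM0 : ∀ v w, 0 ≤ M v w := fun v w => (norm_nonneg _).trans (hM' v w 0)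
  have hA0 : 0 ≤ ∑ w ∈ Finset.range (J + n), CP' w := Finset.sum_nonneg fun w _ => hCP0 w
  have hB0 : 0 ≤ ∑ w ∈ Finset.range n, ∑ v ∈ Finset.range J, M v (J + w) :=
    Finset.sum_nonneg fun w _ => Finset.sum_nonneg fun v _ => hM0 _ _
  refine ⟨C0 * CQ + ∑ w ∈ Finset.range (J + n), CP' w +
    ∑ w ∈ Finset.range n, ∑ v ∈ Finset.range J, M v (J + w), by positivity, ?_⟩
  intro k hk s hs l
  have hk1 : (1 : ℝ) ≤ k := by exact_mod_cast hk
  have hk0 : (0 : ℝ) < k := by linarith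
  have hkJ : (0 : ℝ) < (k : ℝ) ^ J := by positivity
  set r : (Fin n → Fin k) → ℂ := fun j => cl k (jz j) (Q k s : Ph n → ℂ) -
    ∑ w ∈ Finset.range (J + n), ((k : ℂ) ^ w)⁻¹ * (y w : V n → ℂ) (gp k (jz j)) with hr
  have hrb : ∀ j, ‖r j‖ ≤ CQ / (k : ℝ) ^ (J + n) := fun j => hCQ k hk s hs (jz j)
  have hdec := Comp_dec hk (Q k s) (J + n) y
  -- apply the functional
  have h1 : cl k l (P k (Q k s) : Ph n → ℂ) =
      ∑ w ∈ Finset.range (J + n), ((k : ℂ) ^ w)⁻¹ *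
        cl k l (P k ⟨su k (y w : V n → ℂ), su_mem hk _⟩ : Ph n → ℂ) +
      cl k l (P k ⟨cmb r, cmb_mem hk r⟩ : Ph n → ℂ) := by
    rw [← CompL_apply l hk, hdec]
    simp only [map_add, map_sum, map_smul, smul_eq_mul, CompL_apply]
    rfl
  -- the remainder
  have e1 : ‖cl k l (P k ⟨cmb r, cmb_mem hk r⟩ : Ph n → ℂ)‖ ≤ C0 * CQ / (k : ℝ) ^ J := by
    have h2 := hC0 k hk ⟨cmb r, cmb_mem hk r⟩ ⟨eb k l, eb_mem hk l⟩
    simp only [Finset.range_zero, Finset.sum_empty, sub_zero, pow_zero, div_one] at h2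
    have h3 := nrm_mul_le hk r _ hrb l
    have hsc := sc_pos (n := n) hk
    unfold cl
    rw [norm_mul, Complex.norm_real, Real.norm_of_nonneg hsc.le]
    calc sc n k * ‖ip (P k ⟨cmb r, cmb_mem hk r⟩ : Ph n → ℂ) (eb k l)‖
        ≤ sc n k * (C0 * (nrm (cmb r : Ph n → ℂ) * nrm (eb k l : Ph n → ℂ))) := by gcongr
      _ = C0 * (sc n k * (nrm (cmb r : Ph n → ℂ) * nrm (eb k l : Ph n → ℂ))) := by ring
      _ ≤ C0 * (CQ / (k : ℝ) ^ (J + n) * (k : ℝ) ^ n) := by gcongr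
      _ = C0 * CQ / (k : ℝ) ^ J := by
        rw [pow_add]
        field_simp
  have hinv : ∀ w : ℕ, ‖((k : ℂ) ^ w)⁻¹‖ ≤ 1 := by
    intro w
    rw [norm_inv, norm_pow, Complex.norm_natCast]
    exact inv_le_one_of_one_le₀ (one_le_pow₀ hk1)
  have e2 : ∀ w ∈ Finset.range (J + n), ‖((k : ℂ) ^ w)⁻¹ *
      (cl k l (P k ⟨su k (y w : V n → ℂ), su_mem hk _⟩ : Ph n → ℂ) -
        ∑ v ∈ Finset.range J, ((k : ℂ) ^ v)⁻¹ *
          ((opS pdx (symW f hf v) (y w) : CP n) : V n → ℂ) (gp k l))‖ ≤ CP' w / (k : ℝ) ^ J := by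
    intro w _
    rw [norm_mul]
    calc _ ≤ 1 * (CP' w / (k : ℝ) ^ J) :=
          mul_le_mul (hinv w) (hCP w k hk _ rfl l) (norm_nonneg _) zero_le_one
      _ = _ := one_mul _
  have e3 : ∀ w ∈ Finset.range n, ‖((k : ℂ) ^ (J + w))⁻¹ * ∑ v ∈ Finset.range J, ((k : ℂ) ^ v)⁻¹ *
          ((opS pdx (symW f hf v) (y (J + w)) : CP n) : V n → ℂ) (gp k l)‖ ≤
        (∑ v ∈ Finset.range J, M v (J + w)) / (k : ℝ) ^ J := by
    intro w _
    have h4 : ‖∑ v ∈ Finset.range J, ((k : ℂ) ^ v)⁻¹ *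
          ((opS pdx (symW f hf v) (y (J + w)) : CP n) : V n → ℂ) (gp k l)‖ ≤
        ∑ v ∈ Finset.range J, M v (J + w) := by
      refine (norm_sum_le _ _).trans (Finset.sum_le_sum fun v _ => ?_)
      rw [norm_mul]
      calc _ ≤ 1 * M v (J + w) :=
            mul_le_mul (hinv v) (hM' _ _ _) (norm_nonneg _) zero_le_one
        _ = _ := one_mul _
    have h5 : ‖((k : ℂ) ^ (J + w))⁻¹‖ ≤ ((k : ℝ) ^ J)⁻¹ := by
      rw [norm_inv, norm_pow, Complex.norm_natCast]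
      apply inv_anti₀ hkJ
      exact pow_le_pow_right₀ hk1 (Nat.le_add_right J w)
    rw [norm_mul, div_eq_inv_mul]
    exact mul_le_mul h5 h4 (norm_nonneg _) (by positivity)
  have key : cl k l (P k (Q k s) : Ph n → ℂ) -
        ∑ v ∈ Finset.range J, ∑ w ∈ Finset.range J, ((k : ℂ) ^ (v + w))⁻¹ *
          ((opS pdx (symW f hf v) (opS pdx (symW g hg w) u) : CP n) : V n → ℂ) (gp k l) =
      cl k l (P k ⟨cmb r, cmb_mem hk r⟩ : Ph n → ℂ) +
      ∑ w ∈ Finset.range (J + n), ((k : ℂ) ^ w)⁻¹ *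
      (cl k l (P k ⟨su k (y w : V n → ℂ), su_mem hk _⟩ : Ph n → ℂ) -
        ∑ v ∈ Finset.range J, ((k : ℂ) ^ v)⁻¹ *
          ((opS pdx (symW f hf v) (y w) : CP n) : V n → ℂ) (gp k l)) +
      ∑ w ∈ Finset.range n, ((k : ℂ) ^ (J + w))⁻¹ * ∑ v ∈ Finset.range J, ((k : ℂ) ^ v)⁻¹ *
          ((opS pdx (symW f hf v) (y (J + w)) : CP n) : V n → ℂ) (gp k l) := by
    have h6 : ∑ v ∈ Finset.range J, ∑ w ∈ Finset.range J, ((k : ℂ) ^ (v + w))⁻¹ *
          ((opS pdx (symW f hf v) (opS pdx (symW g hg w) u) : CP n) : V n → ℂ) (gp k l) =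
        ∑ w ∈ Finset.range J, ((k : ℂ) ^ w)⁻¹ * ∑ v ∈ Finset.range J, ((k : ℂ) ^ v)⁻¹ *
          ((opS pdx (symW f hf v) (y w) : CP n) : V n → ℂ) (gp k l) := by
      rw [Finset.sum_comm]
      refine Finset.sum_congr rfl fun w _ => ?_
      rw [Finset.mul_sum]
      refine Finset.sum_congr rfl fun v _ => ?_
      rw [pow_add, mul_inv]
      ring
    rw [h1, h6]
    simp only [mul_sub, Finset.sum_sub_distrib]
    rw [Finset.sum_range_add (fun w => ((k : ℂ) ^ w)⁻¹ * ∑ v ∈ Finset.range J, ((k : ℂ) ^ v)⁻¹ *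
          ((opS pdx (symW f hf v) (y w) : CP n) : V n → ℂ) (gp k l)) J n]
    ring
  rw [key]
  have t1 := norm_sum_le_of_le _ e2
  have t2 := norm_sum_le_of_le _ e3
  have t3 := (norm_add₃_le).trans (add_le_add (add_le_add e1 t1) t2)
  refine t3.trans (le_of_eq ?_)
  rw [← Finset.sum_div, ← Finset.sum_div]
  ring

end H72BT
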