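import Mathlib

/-!
BT-7. Continuous `ℤ^ι`-periodic functions on `ℝ^ι`: translation invariance of the integral over the
unit cube, and Fourier series.

Proof. The map `π : x ↦ (fun i => (x i : UnitAddCircle))` is an open quotient map
`(ι → ℝ) → UnitAddTorus ι` (`IsOpenQuotientMap.piMap`, `QuotientAddGroup.isOpenQuotientMap_mk`);
a continuous periodic `h` factors as `h = H ∘ π` with `H` continuous. (For instance
`H t = h (fun i => (AddCircle.equivIco 1 0 (t i) : ℝ))`; `H (π x) = h x` since `x i` and its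
representative differ by an integer.)
* `tor_shift`: `UnitAddTorus.integral_preimage H a` with `a = v` and `a = 0`:
  `∫_{∏(v_i, v_i+1]} h = ∫ H = ∫_{∏(0,1]} h`; the left side is the integral of `h(x+v)` over `∏(0,1]`
  (translation invariance of Lebesgue measure: `integral_indicator` and
  `integral_add_right_eq_self`, or `MeasurePreserving.setIntegral_preimage_emb`), and
  `∏(0,1] =ᵐ Icc 0 1` (`MeasureTheory.Measure.univ_pi_Ioc_ae_eq_Icc`).
* `tor_sum`: `UnitAddTorus.mFourierCoeff_eq_integral` identifies the integral with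
  `mFourierCoeff H ν`: `mFourier (-ν) (π x) = cexp(-2πi ν·x)` (`fourier_coe_apply`, `Complex.exp_sum`);
  then `UnitAddTorus.hasSum_mFourier_series_apply_of_summable`.
* `tor_inj`: the special case of zero coefficients.
* `tor_deriv`: differentiate `t ↦ ∫ h(x + t v)` at `t = 0` under the integral sign
  (`hasDerivAt_integral_of_dominated_loc_of_deriv_le` with the bound given by the maximum of
  `‖fderiv ℝ h‖ * ‖v‖` over a compact set) and use `tor_shift`.
-/

set_option autoImplicit false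

open MeasureTheory Complex
open scoped ContDiff ComplexConjugate

noncomputable section

namespace H72BT

variable {ι : Type*} [Fintype ι]

/-- the projection to the torus -/
def torPr (x : ι → ℝ) : UnitAddTorus ι := fun i => (x i : UnitAddCircle)

/-- the function on the torus -/
def torLift (h : (ι → ℝ) → ℂ) : UnitAddTorus ι → ℂ :=
  fun t => h (fun i => (AddCircle.equivIco (1 : ℝ) 0 (t i) : ℝ))

theorem torLift_pr {h : (ι → ℝ) → ℂ}
    (hp : ∀ (x : ι → ℝ) (m : ι → ℤ), h (x + fun i => (m i : ℝ)) = h x) (x : ι → ℝ) :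
    torLift h (torPr x) = h x := by
  have h1 : torLift h (torPr x) = h (fun i => Int.fract (x i)) := by
    unfold torLift torPr
    congr 1
    funext i
    have h2 := AddCircle.coe_equivIco_mk_apply (1 : ℝ) (x i)
    rw [div_one, mul_one] at h2
    exact h2
  rw [h1, ← hp (fun i => Int.fract (x i)) (fun i => ⌊x i⌋)]
  congr 1
  funext i
  exact Int.fract_add_floor (x i)

theorem torPr_quot : IsOpenQuotientMap (torPr (ι := ι)) :=
  IsOpenQuotientMap.piMap (fun _ => QuotientAddGroup.isOpenQuotientMap_mk)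

theorem torLift_cont {h : (ι → ℝ) → ℂ} (hc : Continuous h)
    (hp : ∀ (x : ι → ℝ) (m : ι → ℤ), h (x + fun i => (m i : ℝ)) = h x) :
    Continuous (torLift h) := by
  rw [← torPr_quot.continuous_comp_iff]
  have : torLift h ∘ torPr = h := funext (torLift_pr hp)
  rw [this]
  exact hc

theorem tor_ae : ({x : ι → ℝ | ∀ i, x i ∈ Set.Ioc ((0 : ι → ℝ) i) ((0 : ι → ℝ) i + 1)} : Set (ι → ℝ))
    =ᵐ[volume] Set.Icc (0 : ι → ℝ) 1 := by
  have h1 : ({x : ι → ℝ | ∀ i, x i ∈ Set.Ioc ((0 : ι → ℝ) i) ((0 : ι → ℝ) i + 1)} : Set (ι → ℝ)) =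
      Set.pi Set.univ (fun i => Set.Ioc ((0 : ι → ℝ) i) ((1 : ι → ℝ) i)) := by
    ext x
    simp
  rw [h1]
  exact Measure.univ_pi_Ioc_ae_eq_Icc

theorem tor_int (h : (ι → ℝ) → ℂ)
    (hp : ∀ (x : ι → ℝ) (m : ι → ℤ), h (x + fun i => (m i : ℝ)) = h x) (a : ι → ℝ) :
    ∫ x in {x : ι → ℝ | ∀ i, x i ∈ Set.Ioc (a i) (a i + 1)}, h x =
      ∫ x in Set.Icc (0 : ι → ℝ) 1, h x := by
  have h1 := (UnitAddTorus.integral_preimage (torLift h) a).symm.trans
    (UnitAddTorus.integral_preimage (torLift h) 0)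
  have h2 : ∀ x : ι → ℝ, torLift h (fun i => (x i : UnitAddCircle)) = h x := torLift_pr hp
  simp only [h2] at h1
  rw [h1]
  exact setIntegral_congr_set tor_ae

theorem tor_shift (h : (ι → ℝ) → ℂ) (hc : Continuous h)
    (hp : ∀ (x : ι → ℝ) (m : ι → ℤ), h (x + fun i => (m i : ℝ)) = h x) (v : ι → ℝ) :
    ∫ x in Set.Icc (0 : ι → ℝ) 1, h (x + v) = ∫ x in Set.Icc (0 : ι → ℝ) 1, h x := by
  rw [← tor_int h hp v]
  rw [← setIntegral_congr_set tor_ae]
  have hmp : MeasurePreserving (fun x : ι → ℝ => x + v) volume volume :=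
    measurePreserving_add_right volume v
  have h1 := hmp.setIntegral_preimage_emb (MeasurableEquiv.addRight v).measurableEmbedding h
    {x : ι → ℝ | ∀ i, x i ∈ Set.Ioc (v i) (v i + 1)}
  rw [← h1]
  congr 2
  ext x
  simp only [Set.mem_setOf_eq, Set.mem_preimage, Pi.zero_apply, Pi.add_apply, Set.mem_Ioc, zero_add]
  constructor
  · intro hx i
    exact ⟨by linarith [(hx i).1], by linarith [(hx i).2]⟩
  · intro hx i
    exact ⟨by linarith [(hx i).1], by linarith [(hx i).2]⟩

theorem tor_sum (h : (ι → ℝ) → ℂ) (hc : Continuous h)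
    (hp : ∀ (x : ι → ℝ) (m : ι → ℤ), h (x + fun i => (m i : ℝ)) = h x)
    (hs : Summable fun ν : ι → ℤ => ∫ x in Set.Icc (0 : ι → ℝ) 1,
      h x * exp (-(2 * Real.pi * I * ∑ i, (ν i : ℂ) * (x i : ℂ)))) (x : ι → ℝ) :
    HasSum (fun ν : ι → ℤ => (∫ y in Set.Icc (0 : ι → ℝ) 1,
      h y * exp (-(2 * Real.pi * I * ∑ i, (ν i : ℂ) * (y i : ℂ)))) *
        exp (2 * Real.pi * I * ∑ i, (ν i : ℂ) * (x i : ℂ))) (h x) := by
  have hcoef : ∀ ν : ι → ℤ, UnitAddTorus.mFourierCoeff (torLift h) ν =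
      ∫ y in Set.Icc (0 : ι → ℝ) 1,
        h y * exp (-(2 * Real.pi * I * ∑ i, (ν i : ℂ) * (y i : ℂ))) := by
    intro ν
    rw [UnitAddTorus.mFourierCoeff_eq_integral (torLift h) ν 0, setIntegral_congr_set tor_ae]
    refine setIntegral_congr_fun measurableSet_Icc (fun y _ => ?_)
    have h2 : torLift h (fun i => (y i : UnitAddCircle)) = h y := torLift_pr hp y
    simp only [h2, smul_eq_mul]
    rw [mul_comm (h y)]
    congr 1
    simp only [UnitAddTorus.mFourier, ContinuousMap.coe_mk, fourier_coe_apply, Pi.neg_apply]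
    rw [← Complex.exp_sum]
    congr 1
    rw [Finset.mul_sum, ← Finset.sum_neg_distrib]
    refine Finset.sum_congr rfl (fun i _ => ?_)
    push_cast
    ring
  have hF : ∀ ν : ι → ℤ, UnitAddTorus.mFourier ν (torPr x) =
      exp (2 * Real.pi * I * ∑ i, (ν i : ℂ) * (x i : ℂ)) := by
    intro ν
    simp only [UnitAddTorus.mFourier, ContinuousMap.coe_mk, torPr, fourier_coe_apply]
    rw [← Complex.exp_sum]
    congr 1
    rw [Finset.mul_sum]
    refine Finset.sum_congr rfl (fun i _ => ?_)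
    push_cast
    ring
  have h1 := UnitAddTorus.hasSum_mFourier_series_apply_of_summable
    (f := ⟨torLift h, torLift_cont hc hp⟩) (by
      have : (UnitAddTorus.mFourierCoeff (torLift h)) = fun ν : ι → ℤ => ∫ y in Set.Icc (0 : ι → ℝ) 1,
          h y * exp (-(2 * Real.pi * I * ∑ i, (ν i : ℂ) * (y i : ℂ))) := funext hcoef
      rw [← this] at hs
      exact hs) (torPr x)
  have h3 : (⟨torLift h, torLift_cont hc hp⟩ : C(UnitAddTorus ι, ℂ)) (torPr x) = h x :=
    torLift_pr hp x
  rw [h3] at h1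
  refine h1.congr_fun ?_
  intro ν
  rw [hF, smul_eq_mul]
  congr 1
  exact (hcoef ν).symm

theorem tor_inj (h : (ι → ℝ) → ℂ) (hc : Continuous h)
    (hp : ∀ (x : ι → ℝ) (m : ι → ℤ), h (x + fun i => (m i : ℝ)) = h x)
    (h0 : ∀ ν : ι → ℤ, ∫ x in Set.Icc (0 : ι → ℝ) 1,
      h x * exp (-(2 * Real.pi * I * ∑ i, (ν i : ℂ) * (x i : ℂ))) = 0) (x : ι → ℝ) :
    h x = 0 := by
  have h1 := tor_sum h hc hp (by simp only [h0]; exact summable_zero) x
  simp only [h0, zero_mul] at h1
  exact h1.unique hasSum_zero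

theorem tor_deriv (h : (ι → ℝ) → ℂ) (hc : ContDiff ℝ 1 h)
    (hp : ∀ (x : ι → ℝ) (m : ι → ℤ), h (x + fun i => (m i : ℝ)) = h x) (v : ι → ℝ) :
    ∫ x in Set.Icc (0 : ι → ℝ) 1, fderiv ℝ h x v = 0 := by
  have hcont : Continuous h := hc.continuous
  have hdiff : Differentiable ℝ h := hc.differentiable (by simp)
  have hfc : Continuous (fun x => fderiv ℝ h x v) :=
    (hc.continuous_fderiv (by simp)).clm_apply continuous_const
  have hK : IsCompact ((fun q : ℝ × (ι → ℝ) => q.2 + q.1 • v) ''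
      (Set.Icc (-1 : ℝ) 1 ×ˢ Set.Icc (0 : ι → ℝ) 1)) :=
    (isCompact_Icc.prod isCompact_Icc).image (by fun_prop)
  obtain ⟨C, hC⟩ := hK.exists_bound_of_continuousOn hfc.continuousOn
  have hder := hasDerivAt_integral_of_dominated_loc_of_deriv_le (𝕜 := ℝ)
    (μ := volume.restrict (Set.Icc (0 : ι → ℝ) 1)) (F := fun t x => h (x + t • v))
    (F' := fun t x => fderiv ℝ h (x + t • v) v) (x₀ := (0 : ℝ)) (s := Set.Icc (-1 : ℝ) 1)
    (bound := fun _ => C) (Icc_mem_nhds (by norm_num) (by norm_num))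
    (Filter.Eventually.of_forall fun t => (by fun_prop : Continuous fun x => h (x + t • v)).aestronglyMeasurable)
    (by
      have : Continuous fun x : ι → ℝ => h (x + (0 : ℝ) • v) := by fun_prop
      exact (this.continuousOn.integrableOn_compact isCompact_Icc))
    (by
      have : Continuous fun x : ι → ℝ => fderiv ℝ h (x + (0 : ℝ) • v) v :=
        hfc.comp (by fun_prop)
      exact this.aestronglyMeasurable)
    (by
      refine (ae_restrict_iff' measurableSet_Icc).2 (Filter.Eventually.of_forall fun x hx t ht => ?_)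
      exact hC _ ⟨(t, x), ⟨ht, hx⟩, rfl⟩)
    (by
      have : (volume : Measure (ι → ℝ)) (Set.Icc (0 : ι → ℝ) 1) < ⊤ := isCompact_Icc.measure_lt_top
      exact integrableOn_const this.ne)
    (by
      refine Filter.Eventually.of_forall fun x t _ => ?_
      have h1 : HasDerivAt (fun t : ℝ => x + t • v) v t := by
        have := ((hasDerivAt_id t).smul_const v).const_add x
        simpa using this
      exact (hdiff (x + t • v)).hasFDerivAt.comp_hasDerivAt t h1)
  have h2 := hder.2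
  have h3 : (fun t : ℝ => ∫ x in Set.Icc (0 : ι → ℝ) 1, h (x + t • v)) =
      fun _ => ∫ x in Set.Icc (0 : ι → ℝ) 1, h x := funext fun t => tor_shift h hcont hp (t • v)
  rw [h3] at h2
  have h4 := h2.unique (hasDerivAt_const (0 : ℝ) _)
  simpa using h4

end H72BT
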