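import Pool.Agent.H72.BT.Ops
import Pool.Agent.H72.BT.Tor

/-!
BT-13. Fourier coefficients of smooth functions on the torus decrease rapidly.

Proofs. `fc f a b = ∫_{cube} f conj(EE a b)`.
* `IsSm.fderiv`: `q ↦ fderiv ℝ f q v` is smooth (`contDiff_fderiv_apply`) and periodic.
* `IsSm.bdd`: a continuous periodic function is bounded: every point is congruent modulo `ℤ^{2n}` to a
  point of the compact set `cube n` (`Int.fract`).
* `fc_fderiv_fst`: `∫ fderiv f (e_j, 0) conj EE = ∫ fderiv (f conj EE) (e_j, 0) + 2πi a_j ∫ f conj EE` and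
  the first integral vanishes: this is `tor_deriv` transported to `Ph n = V n × V n`, e.g. through
  `ι = Fin n ⊕ Fin n` and `MeasureTheory.volume_measurePreserving_sumPiEquivProdPi`, or by Fubini
  (`setIntegral_prod`) and `tor_deriv` in one of the two variables only.
* `fc_decay`: let `M` bound `|∂_v^N f|` for the `2n` coordinate vectors `v` (iterate `IsSm.fderiv`); then
  `(2π|a_j|)^N ‖fc f a b‖ ≤ M`, `(2π|b_j|)^N ‖fc f a b‖ ≤ M`, and `‖ab‖` is one of the `|a_j|, |b_j|`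
  (or `0`), so `‖ab‖^N ‖fc‖ ≤ M`; also `‖fc‖ ≤ M'`; `(1+t)^N ≤ 2^N (1 + t^N)`.
-/

set_option autoImplicit false

open MeasureTheory Complex
open scoped ContDiff ComplexConjugate

noncomputable section

namespace H72BT

open H99.EQ

theorem isSm_fderiv {n : ℕ} {f : Ph n → ℂ} (hf : IsSm f) (v : Ph n) :
    IsSm (fun q => fderiv ℝ f q v) := by
  refine ⟨contDiff_fderiv_apply hf.smooth v, fun a b q => ?_⟩
  have h : (fun y : Ph n => f (y + ((ivec a, ivec b) : Ph n))) = f := funext fun y => hf.per a b y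
  have h2 : fderiv ℝ (fun y : Ph n => f (y + ((ivec a, ivec b) : Ph n))) q =
      fderiv ℝ f (q + ((ivec a, ivec b) : Ph n)) := fderiv_comp_add_right _
  change fderiv ℝ f (q + ((ivec a, ivec b) : Ph n)) v = fderiv ℝ f q v
  rw [← h2, h]

theorem decay_cube_compact (n : ℕ) : IsCompact (cube n) := isCompact_Icc

theorem isSm_bdd {n : ℕ} {f : Ph n → ℂ} (hf : IsSm f) : ∃ M : ℝ, ∀ q, ‖f q‖ ≤ M := by
  obtain ⟨M, hM⟩ := (decay_cube_compact n).exists_bound_of_continuousOn
    hf.smooth.continuous.continuousOn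
  refine ⟨M, fun q => ?_⟩
  have h := hf.per (fun j => ⌊q.1 j⌋) (fun j => ⌊q.2 j⌋)
    ((fun j => Int.fract (q.1 j), fun j => Int.fract (q.2 j)) : Ph n)
  have e : (((fun j => Int.fract (q.1 j)) + ivec (fun j => ⌊q.1 j⌋),
      (fun j => Int.fract (q.2 j)) + ivec (fun j => ⌊q.2 j⌋)) : Ph n) = q := by
    ext j
    · simp [ivec]
    · simp [ivec]
  simp only at h
  rw [e] at h
  rw [h]
  apply hM
  constructor
  · constructor
    · intro j
      exact Int.fract_nonneg _
    · intro j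
      exact Int.fract_nonneg _
  · constructor
    · intro j
      exact (Int.fract_lt_one _).le
    · intro j
      exact (Int.fract_lt_one _).le

theorem decay_deriv {n : ℕ} (h : Ph n → ℂ) (hc : ContDiff ℝ 1 h) (hp : IsPer h) (v : Ph n) :
    ∫ q in cube n, fderiv ℝ h q v = 0 := by
  let L : (Fin n ⊕ Fin n → ℝ) →L[ℝ] Ph n :=
    (ContinuousLinearMap.pi fun i => ContinuousLinearMap.proj (Sum.inl i)).prod
      (ContinuousLinearMap.pi fun i => ContinuousLinearMap.proj (Sum.inr i))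
  have hmp := MeasureTheory.volume_measurePreserving_sumPiEquivProdPi
    (fun _ : Fin n ⊕ Fin n => ℝ)
  have h1 : ∫ x in Set.Icc (0 : Fin n ⊕ Fin n → ℝ) 1, fderiv ℝ (fun y => h (L y)) x
      (Sum.elim v.1 v.2) = 0 := by
    apply tor_deriv
    · exact hc.comp L.contDiff
    · intro x m
      exact hp (fun i => m (Sum.inl i)) (fun i => m (Sum.inr i)) (L x)
  have h2 : ∀ x, fderiv ℝ (fun y => h (L y)) x (Sum.elim v.1 v.2) = fderiv ℝ h (L x) v := by
    intro x
    have e : fderiv ℝ (fun y => h (L y)) x = (fderiv ℝ h (L x)).comp L := by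
      have := fderiv_comp (𝕜 := ℝ) x (hc.differentiable (by simp) (L x)) L.differentiableAt
      rw [L.fderiv] at this
      exact this
    rw [e]
    rfl
  simp only [h2] at h1
  have h3 := hmp.setIntegral_preimage_emb
    (MeasurableEquiv.measurableEmbedding (MeasurableEquiv.sumPiEquivProdPi (fun _ : Fin n ⊕ Fin n => ℝ)))
    (fun q : Ph n => fderiv ℝ h q v) (cube n)
  rw [← h3, ← h1]
  congr 2
  ext x
  constructor
  · rintro ⟨⟨p1, p2⟩, ⟨p3, p4⟩⟩
    constructor
    · rintro (j | j)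
      · exact p1 j
      · exact p2 j
    · rintro (j | j)
      · exact p3 j
      · exact p4 j
  · rintro ⟨p1, p2⟩
    exact ⟨⟨fun j => p1 (Sum.inl j), fun j => p1 (Sum.inr j)⟩,
      ⟨fun j => p2 (Sum.inl j), fun j => p2 (Sum.inr j)⟩⟩

theorem decay_conj_EE {n : ℕ} (a b : Fin n → ℤ) (q : Ph n) :
    (starRingEnd ℂ) (EE a b q) =
      exp (-(2 * Real.pi * I * ∑ j, ((a j : ℂ) * (q.1 j : ℂ) + (b j : ℂ) * (q.2 j : ℂ)))) := by
  unfold EE
  rw [← Complex.exp_conj]
  congr 1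
  simp only [map_mul, map_sum, map_add, Complex.conj_I, Complex.conj_ofReal, map_ofNat,
    map_intCast]
  ring

theorem decay_norm_EE {n : ℕ} (a b : Fin n → ℤ) (q : Ph n) : ‖EE a b q‖ = 1 := by
  unfold EE
  have : (2 * Real.pi * I * ∑ j, ((a j : ℂ) * (q.1 j : ℂ) + (b j : ℂ) * (q.2 j : ℂ))) =
      ((2 * Real.pi * ∑ j, ((a j : ℝ) * q.1 j + (b j : ℝ) * q.2 j) : ℝ) : ℂ) * I := by
    push_cast
    ring
  rw [this, Complex.norm_exp_ofReal_mul_I]

theorem decay_EE_per {n : ℕ} (a b : Fin n → ℤ) : IsPer (EE a b) := by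
  intro c d q
  unfold EE
  have : (2 * Real.pi * I * ∑ j, ((a j : ℂ) * (((q.1 + ivec c) j : ℝ) : ℂ) +
      (b j : ℂ) * (((q.2 + ivec d) j : ℝ) : ℂ))) =
      2 * Real.pi * I * ∑ j, ((a j : ℂ) * (q.1 j : ℂ) + (b j : ℂ) * (q.2 j : ℂ)) +
        ((∑ j, (a j * c j + b j * d j) : ℤ) : ℂ) * (2 * Real.pi * I) := by
    simp only [Pi.add_apply, ivec]
    push_cast
    simp only [mul_add, Finset.sum_add_distrib]
    ring
  simp only
  rw [this, exp_add, exp_int_mul_two_pi_mul_I, mul_one]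

theorem decay_phase {n : ℕ} (a b : Fin n → ℤ) (q : Ph n) :
    HasFDerivAt (fun q : Ph n => (∑ j, ((a j : ℂ) * (q.1 j : ℂ) + (b j : ℂ) * (q.2 j : ℂ)) : ℂ))
      (∑ j, ((a j : ℂ) • (Complex.ofRealCLM.comp ((ContinuousLinearMap.proj j).comp
        (ContinuousLinearMap.fst ℝ (V n) (V n)))) + (b j : ℂ) • (Complex.ofRealCLM.comp
        ((ContinuousLinearMap.proj j).comp (ContinuousLinearMap.snd ℝ (V n) (V n)))))) q := by
  apply HasFDerivAt.fun_sum
  intro j _
  apply HasFDerivAt.add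
  · apply HasFDerivAt.const_mul
    exact (Complex.ofRealCLM.comp ((ContinuousLinearMap.proj j).comp
        (ContinuousLinearMap.fst ℝ (V n) (V n)))).hasFDerivAt
  · apply HasFDerivAt.const_mul
    exact (Complex.ofRealCLM.comp ((ContinuousLinearMap.proj j).comp
        (ContinuousLinearMap.snd ℝ (V n) (V n)))).hasFDerivAt

theorem decay_fc {n : ℕ} {f : Ph n → ℂ} (hf : IsSm f) (v : Ph n) (a b : Fin n → ℤ) :
    fc (fun q => fderiv ℝ f q v) a b =
      2 * Real.pi * I * (∑ j, ((a j : ℂ) * (v.1 j : ℂ) + (b j : ℂ) * (v.2 j : ℂ))) * fc f a b := by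
  set c : Ph n → ℂ := fun q => (starRingEnd ℂ) (EE a b q) with hc
  set w : ℂ := 2 * Real.pi * I * (∑ j, ((a j : ℂ) * (v.1 j : ℂ) + (b j : ℂ) * (v.2 j : ℂ))) with hw
  have hphs : ContDiff ℝ ∞ (fun q : Ph n =>
      (∑ j, ((a j : ℂ) * (q.1 j : ℂ) + (b j : ℂ) * (q.2 j : ℂ)) : ℂ)) := by
    apply ContDiff.sum
    intro j _
    apply ContDiff.add
    · exact contDiff_const.mul (Complex.ofRealCLM.contDiff.comp
        ((contDiff_apply ℝ ℝ j).comp contDiff_fst))
    · exact contDiff_const.mul (Complex.ofRealCLM.contDiff.comp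
        ((contDiff_apply ℝ ℝ j).comp contDiff_snd))
  have hcs : ContDiff ℝ ∞ c := by
    have : c = fun q => exp (-(2 * Real.pi * I *
        ∑ j, ((a j : ℂ) * (q.1 j : ℂ) + (b j : ℂ) * (q.2 j : ℂ)))) := by
      funext q
      exact decay_conj_EE a b q
    rw [this]
    exact Complex.contDiff_exp.comp (contDiff_const.mul hphs).neg
  have hcd : ∀ q, fderiv ℝ c q v = -w * c q := by
    intro q
    have : c = fun q => exp (-(2 * Real.pi * I *
        ∑ j, ((a j : ℂ) * (q.1 j : ℂ) + (b j : ℂ) * (q.2 j : ℂ)))) := by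
      funext q
      exact decay_conj_EE a b q
    have h1 := (((decay_phase a b q).const_mul (2 * Real.pi * I)).fun_neg).cexp
    have h2 := h1.fderiv
    rw [this, h2]
    simp [hw]
    ring
  have hper : IsPer (fun q => f q * c q) := by
    intro x y q
    have e1 := hf.per x y q
    have e2 := decay_EE_per a b x y q
    simp only [hc]
    rw [e1, e2]
  have hsm : ContDiff ℝ ∞ (fun q => f q * c q) := hf.smooth.mul hcs
  have h0 := decay_deriv (fun q => f q * c q) (hsm.of_le (by simp)) hper v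
  have h3 : ∀ q, fderiv ℝ (fun q => f q * c q) q v = fderiv ℝ f q v * c q - w * (f q * c q) := by
    intro q
    rw [fderiv_fun_mul (hf.smooth.differentiable (by simp) q) (hcs.differentiable (by simp) q)]
    simp only [add_apply, smul_apply, smul_eq_mul]
    rw [hcd]
    ring
  simp only [h3] at h0
  have i1 : IntegrableOn (fun q => fderiv ℝ f q v * c q) (cube n) := by
    apply ContinuousOn.integrableOn_compact (decay_cube_compact n)
    exact ((isSm_fderiv hf v).smooth.continuous.mul hcs.continuous).continuousOn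
  have i2 : IntegrableOn (fun q => w * (f q * c q)) (cube n) := by
    apply ContinuousOn.integrableOn_compact (decay_cube_compact n)
    exact (continuous_const.mul (hf.smooth.continuous.mul hcs.continuous)).continuousOn
  rw [integral_sub i1 i2, integral_const_mul] at h0
  change ∫ q in cube n, fderiv ℝ f q v * c q = w * ∫ q in cube n, f q * c q
  linear_combination h0

theorem fc_fderiv_fst {n : ℕ} {f : Ph n → ℂ} (hf : IsSm f) (j : Fin n) (a b : Fin n → ℤ) :
    fc (fun q => fderiv ℝ f q (Pi.single j 1, 0)) a b = 2 * Real.pi * I * (a j : ℂ) * fc f a b := by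
  rw [decay_fc hf]
  congr 2
  rw [Finset.sum_eq_single j]
  · simp
  · intro k _ hk
    simp [hk]
  · simp

theorem fc_fderiv_snd {n : ℕ} {f : Ph n → ℂ} (hf : IsSm f) (j : Fin n) (a b : Fin n → ℤ) :
    fc (fun q => fderiv ℝ f q (0, Pi.single j 1)) a b = 2 * Real.pi * I * (b j : ℂ) * fc f a b := by
  rw [decay_fc hf]
  congr 2
  rw [Finset.sum_eq_single j]
  · simp
  · intro k _ hk
    simp [hk]
  · simp

theorem decay_fc_bdd {n : ℕ} {f : Ph n → ℂ} (hf : IsSm f) :
    ∃ C : ℝ, ∀ ab : (Fin n → ℤ) × (Fin n → ℤ), ‖fc f ab.1 ab.2‖ ≤ C := by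
  obtain ⟨M, hM⟩ := isSm_bdd hf
  refine ⟨M * (volume : Measure (Ph n)).real (cube n), fun ab => ?_⟩
  apply norm_setIntegral_le_of_norm_le_const (decay_cube_compact n).measure_lt_top
  intro q _
  rw [norm_mul, RCLike.norm_conj, decay_norm_EE, mul_one]
  exact hM q

theorem decay_norm_le {n : ℕ} (ab : (Fin n → ℤ) × (Fin n → ℤ)) :
    ‖ab‖ ≤ ∑ j, (|(ab.1 j : ℝ)| + |(ab.2 j : ℝ)|) := by
  have hn : 0 ≤ ∑ j, (|(ab.1 j : ℝ)| + |(ab.2 j : ℝ)|) :=
    Finset.sum_nonneg fun j _ => by positivity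
  rw [Prod.norm_def]
  apply max_le
  · rw [pi_norm_le_iff_of_nonneg hn]
    intro j
    have h := Finset.single_le_sum (f := fun j => |(ab.1 j : ℝ)| + |(ab.2 j : ℝ)|)
      (fun j _ => by positivity) (Finset.mem_univ j)
    have h2 : ‖ab.1 j‖ = |(ab.1 j : ℝ)| := by
      rw [Int.norm_eq_abs]
    rw [h2]
    have h3 : 0 ≤ |(ab.2 j : ℝ)| := abs_nonneg _
    linarith
  · rw [pi_norm_le_iff_of_nonneg hn]
    intro j
    have h := Finset.single_le_sum (f := fun j => |(ab.1 j : ℝ)| + |(ab.2 j : ℝ)|)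
      (fun j _ => by positivity) (Finset.mem_univ j)
    have h2 : ‖ab.2 j‖ = |(ab.2 j : ℝ)| := by
      rw [Int.norm_eq_abs]
    rw [h2]
    have h3 : 0 ≤ |(ab.1 j : ℝ)| := abs_nonneg _
    linarith

theorem decay_step (c : ℂ) (m : ℤ) (d : ℂ) (h : d = 2 * Real.pi * I * (m : ℂ) * c) :
    ‖c‖ * |(m : ℝ)| ≤ ‖d‖ := by
  rw [h, norm_mul, norm_mul, norm_mul, norm_mul, Complex.norm_I, Complex.norm_ofNat,
    Complex.norm_real, Complex.norm_intCast, Real.norm_eq_abs, abs_of_pos Real.pi_pos]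
  have h1 : 1 ≤ 2 * Real.pi * 1 := by
    have := Real.pi_gt_three
    linarith
  have h2 : 0 ≤ ‖c‖ * |(m : ℝ)| := by positivity
  nlinarith

theorem fc_decay {n : ℕ} {f : Ph n → ℂ} (hf : IsSm f) (N : ℕ) :
    ∃ C : ℝ, ∀ ab : (Fin n → ℤ) × (Fin n → ℤ), ‖fc f ab.1 ab.2‖ * (1 + ‖ab‖) ^ N ≤ C := by
  induction N generalizing f with
  | zero =>
    simp only [pow_zero, mul_one]
    exact decay_fc_bdd hf
  | succ N ih =>
    obtain ⟨C0, hC0⟩ := ih hf
    choose C1 hC1 using fun j : Fin n => ih (isSm_fderiv hf (Pi.single j 1, 0))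
    choose C2 hC2 using fun j : Fin n => ih (isSm_fderiv hf (0, Pi.single j 1))
    refine ⟨C0 + ∑ j, (C1 j + C2 j), fun ab => ?_⟩
    have hp : 0 ≤ (1 + ‖ab‖) ^ N := by positivity
    have h1 : ‖fc f ab.1 ab.2‖ * (1 + ‖ab‖) ^ (N + 1) =
        ‖fc f ab.1 ab.2‖ * (1 + ‖ab‖) ^ N + ‖fc f ab.1 ab.2‖ * ‖ab‖ * (1 + ‖ab‖) ^ N := by
      rw [pow_succ]
      ring
    rw [h1]
    refine add_le_add (hC0 ab) ?_
    have h2 : ‖fc f ab.1 ab.2‖ * ‖ab‖ ≤ ∑ j, (‖fc (fun q => fderiv ℝ f q (Pi.single j 1, 0)) ab.1 ab.2‖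
        + ‖fc (fun q => fderiv ℝ f q (0, Pi.single j 1)) ab.1 ab.2‖) := by
      refine le_trans (mul_le_mul_of_nonneg_left (decay_norm_le ab) (norm_nonneg _)) ?_
      rw [Finset.mul_sum]
      refine Finset.sum_le_sum fun j _ => ?_
      rw [mul_add]
      exact add_le_add (decay_step _ _ _ (fc_fderiv_fst hf j ab.1 ab.2))
        (decay_step _ _ _ (fc_fderiv_snd hf j ab.1 ab.2))
    refine le_trans (mul_le_mul_of_nonneg_right h2 hp) ?_
    rw [Finset.sum_mul]
    refine Finset.sum_le_sum fun j _ => ?_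
    rw [add_mul]
    exact add_le_add (hC1 j ab) (hC2 j ab)

end H72BT
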