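import Mathlib

/-!
BT-12. Summability over the lattice `ℤⁿ × ℤⁿ` (sup norm).

Proof. For each `i`, `1 + |a_i| ≤ 1 + ‖ab‖` and `1 + |b_i| ≤ 1 + ‖ab‖`, so
`∏_i ((1+|a_i|)²)⁻¹ * ∏_i ((1+|b_i|)²)⁻¹ ≥ ((1+‖ab‖)^(4n))⁻¹`. The family
`a ↦ ∏_i ((1+|a_i|)²)⁻¹` is summable over `Fin n → ℤ`: by induction on `n` with
`Fin.consEquiv`/`Fin.insertNthEquiv` (`(Fin (n+1) → ℤ) ≃ ℤ × (Fin n → ℤ)`) and
`Summable.mul_of_nonneg`; over `ℤ`: `((1+|a|)²)⁻¹` is summable by comparison with `1/a²`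
(`Real.summable_one_div_int_pow`, or `summable_int_iff_summable_nat_and_neg`). Finally
`Summable.mul_of_nonneg` for the product and `Summable.of_nonneg_of_le`.
-/

set_option autoImplicit false

namespace H72BT

theorem lat_summable_int : Summable fun a : ℤ => (((1 + ‖a‖) ^ 2 : ℝ))⁻¹ := by
  have h := (Real.summable_one_div_int_pow (p := 2)).2 (by norm_num)
  rw [← Finset.summable_compl_iff ({0} : Finset ℤ)] at h ⊢
  refine h.of_nonneg_of_le (fun a => by positivity) fun a => ?_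
  have ha : ((a : ℤ) : ℝ) ≠ 0 := by
    have := a.2
    simp only [Finset.mem_singleton] at this
    exact_mod_cast this
  rw [one_div]
  apply inv_anti₀ (by positivity)
  rw [← sq_abs ((a : ℤ) : ℝ), Int.norm_eq_abs]
  apply pow_le_pow_left₀ (abs_nonneg _)
  linarith

theorem lat_summable_pi (n : ℕ) :
    Summable fun a : Fin n → ℤ => ∏ i, (((1 + ‖a i‖) ^ 2 : ℝ))⁻¹ := by
  induction n with
  | zero => exact Summable.of_finite
  | succ n ih =>
    rw [← (Fin.consEquiv (fun _ : Fin (n + 1) => ℤ)).summable_iff]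
    have h := lat_summable_int.mul_of_nonneg ih (fun a => by positivity)
      (fun a => Finset.prod_nonneg fun i _ => by positivity)
    refine h.congr fun x => ?_
    simp [Fin.prod_univ_succ, Fin.consEquiv, mul_comm]

theorem lattice_summable (n : ℕ) :
    Summable fun ab : (Fin n → ℤ) × (Fin n → ℤ) => ((1 + ‖ab‖) ^ (4 * n) : ℝ)⁻¹ := by
  have h := (lat_summable_pi n).mul_of_nonneg (lat_summable_pi n)
    (fun a => Finset.prod_nonneg fun i _ => by positivity)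
    (fun a => Finset.prod_nonneg fun i _ => by positivity)
  refine h.of_nonneg_of_le (fun a => by positivity) fun ab => ?_
  have h1 : ∀ c : Fin n → ℤ, ‖c‖ ≤ ‖ab‖ →
      ((1 + ‖ab‖) ^ (2 * n) : ℝ)⁻¹ ≤ ∏ i, (((1 + ‖c i‖) ^ 2 : ℝ))⁻¹ := by
    intro c hc
    have h2 : ((1 + ‖ab‖) ^ (2 * n) : ℝ)⁻¹ = ∏ _i : Fin n, (((1 + ‖ab‖) ^ 2 : ℝ))⁻¹ := by
      rw [Finset.prod_const, Finset.card_univ, Fintype.card_fin, pow_mul, inv_pow]
    rw [h2]
    apply Finset.prod_le_prod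
    · intro i _; positivity
    · intro i _
      apply inv_anti₀ (by positivity)
      apply pow_le_pow_left₀ (by positivity)
      linarith [norm_le_pi_norm c i]
  calc ((1 + ‖ab‖) ^ (4 * n) : ℝ)⁻¹
      = ((1 + ‖ab‖) ^ (2 * n) : ℝ)⁻¹ * ((1 + ‖ab‖) ^ (2 * n) : ℝ)⁻¹ := by
        rw [← mul_inv, ← pow_add]
        congr 2
        ring
    _ ≤ _ := mul_le_mul (h1 ab.1 (norm_fst_le ab)) (h1 ab.2 (norm_snd_le ab)) (by positivity)
        (Finset.prod_nonneg fun i _ => by positivity)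

end H72BT
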