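import Pool.Agent.H72.BT.Decay
import Pool.Agent.H72.BT.Lat

/-!
BT-14. Fourier series of smooth functions on the torus.

Proofs. `fc_summable`: `fc_decay` with exponent `N + 4n` and `lattice_summable`
(`Summable.of_nonneg_of_le`, `Summable.mul_left`). `fc_hasSum`: `tor_sum` with `ι = Fin n ⊕ Fin n` for
`h x = f (x ∘ Sum.inl, x ∘ Sum.inr)`; the integral over `Icc (0 : Fin n ⊕ Fin n → ℝ) 1` is the integral
over `cube n` by the measure preserving equivalence
(`MeasureTheory.volume_measurePreserving_sumPiEquivProdPi`), `Fintype.sum_sum_type`, and reindexing of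
the sum by `Equiv.sumArrowEquivProdArrow`.
-/

set_option autoImplicit false

open MeasureTheory Complex
open scoped ContDiff ComplexConjugate

noncomputable section

namespace H72BT

open H99.EQ

theorem fc_summable {n : ℕ} {f : Ph n → ℂ} (hf : IsSm f) (N : ℕ) :
    Summable fun ab : (Fin n → ℤ) × (Fin n → ℤ) => ‖fc f ab.1 ab.2‖ * (1 + ‖ab‖) ^ N := by
  obtain ⟨C, hC⟩ := fc_decay hf (N + 4 * n)
  refine Summable.of_nonneg_of_le (fun ab => ?_) (fun ab => ?_) ((lattice_summable n).mul_left C)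
  · exact mul_nonneg (norm_nonneg _) (pow_nonneg (add_nonneg zero_le_one (norm_nonneg _)) _)
  · have h1 : (0 : ℝ) < (1 + ‖ab‖) ^ (4 * n) :=
      pow_pos (add_pos_of_pos_of_nonneg zero_lt_one (norm_nonneg _)) _
    rw [← div_eq_mul_inv, le_div_iff₀ h1]
    have h2 := hC ab
    rw [pow_add, ← mul_assoc] at h2
    exact h2

/-- the function on `Fin n ⊕ Fin n → ℝ` -/
def fourH {n : ℕ} (f : Ph n → ℂ) (x : Fin n ⊕ Fin n → ℝ) : ℂ :=
  f (fun i => x (Sum.inl i), fun i => x (Sum.inr i))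

theorem four_conj {n : ℕ} (a b : Fin n → ℤ) (q : Ph n) :
    (starRingEnd ℂ) (EE a b q) = exp (-(2 * Real.pi * I *
      ∑ i : Fin n ⊕ Fin n, ((Sum.elim a b i : ℤ) : ℂ) * ((Sum.elim q.1 q.2 i : ℝ) : ℂ))) := by
  unfold EE
  rw [← Complex.exp_conj]
  congr 1
  rw [Fintype.sum_sum_type]
  simp only [Sum.elim_inl, Sum.elim_inr, map_mul, map_sum, map_add, Complex.conj_I,
    Complex.conj_ofReal, map_ofNat, map_intCast, Finset.sum_add_distrib]
  ring

theorem four_fc {n : ℕ} (f : Ph n → ℂ) (a b : Fin n → ℤ) :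
    ∫ x in Set.Icc (0 : Fin n ⊕ Fin n → ℝ) 1, fourH f x *
      exp (-(2 * Real.pi * I * ∑ i, ((Sum.elim a b i : ℤ) : ℂ) * (x i : ℂ))) = fc f a b := by
  have hmp := volume_measurePreserving_sumPiEquivProdPi (fun _ : Fin n ⊕ Fin n => ℝ)
  have h1 := hmp.setIntegral_preimage_emb
    (MeasurableEquiv.sumPiEquivProdPi (fun _ : Fin n ⊕ Fin n => ℝ)).measurableEmbedding
    (fun q : Ph n => f q * (starRingEnd ℂ) (EE a b q)) (cube n)
  have h2 : (MeasurableEquiv.sumPiEquivProdPi (fun _ : Fin n ⊕ Fin n => ℝ)) ⁻¹' (cube n) =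
      Set.Icc (0 : Fin n ⊕ Fin n → ℝ) 1 := by
    ext x
    simp only [Set.mem_preimage, cube, Set.mem_Icc, Prod.le_def, Pi.le_def, Sum.forall]
    exact Iff.rfl
  rw [h2] at h1
  unfold fc ip
  rw [← h1]
  refine setIntegral_congr_fun measurableSet_Icc fun x _ => ?_
  show fourH f x * exp (-(2 * Real.pi * I * ∑ i, ((Sum.elim a b i : ℤ) : ℂ) * (x i : ℂ))) =
    f (fun i => x (Sum.inl i), fun i => x (Sum.inr i)) *
      (starRingEnd ℂ) (EE a b (fun i => x (Sum.inl i), fun i => x (Sum.inr i)))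
  rw [four_conj]
  have h3 : Sum.elim (fun i => x (Sum.inl i)) (fun i => x (Sum.inr i)) = x :=
    Sum.elim_comp_inl_inr x
  unfold fourH
  simp only [h3]

theorem fc_hasSum {n : ℕ} {f : Ph n → ℂ} (hf : IsSm f) (q : Ph n) :
    HasSum (fun ab : (Fin n → ℤ) × (Fin n → ℤ) => fc f ab.1 ab.2 * EE ab.1 ab.2 q) (f q) := by
  have hc : Continuous (fourH f) := by
    refine hf.smooth.continuous.comp ?_
    fun_prop
  have hp : ∀ (x : Fin n ⊕ Fin n → ℝ) (m : Fin n ⊕ Fin n → ℤ),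
      fourH f (x + fun i => (m i : ℝ)) = fourH f x := by
    intro x m
    exact hf.per (fun i => m (Sum.inl i)) (fun i => m (Sum.inr i))
      (fun i => x (Sum.inl i), fun i => x (Sum.inr i))
  have hν : ∀ ν : Fin n ⊕ Fin n → ℤ, ∫ x in Set.Icc (0 : Fin n ⊕ Fin n → ℝ) 1,
      fourH f x * exp (-(2 * Real.pi * I * ∑ i, (ν i : ℂ) * (x i : ℂ))) =
      fc f (fun i => ν (Sum.inl i)) (fun i => ν (Sum.inr i)) := by
    intro ν
    have h3 : Sum.elim (fun i => ν (Sum.inl i)) (fun i => ν (Sum.inr i)) = ν :=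
      Sum.elim_comp_inl_inr ν
    have h4 := four_fc f (fun i => ν (Sum.inl i)) (fun i => ν (Sum.inr i))
    rw [h3] at h4
    exact h4
  have hs0 : Summable fun ab : (Fin n → ℤ) × (Fin n → ℤ) => fc f ab.1 ab.2 := by
    have h5 := fc_summable hf 0
    simp only [pow_zero, mul_one] at h5
    exact h5.of_norm
  have hs : Summable fun ν : Fin n ⊕ Fin n → ℤ => ∫ x in Set.Icc (0 : Fin n ⊕ Fin n → ℝ) 1,
      fourH f x * exp (-(2 * Real.pi * I * ∑ i, (ν i : ℂ) * (x i : ℂ))) := by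
    simp only [hν]
    exact (Equiv.summable_iff (Equiv.sumArrowEquivProdArrow (Fin n) (Fin n) ℤ)).2 hs0
  have h6 := tor_sum (fourH f) hc hp hs (Sum.elim q.1 q.2)
  have h7 : fourH f (Sum.elim q.1 q.2) = f q := rfl
  rw [h7] at h6
  refine (Equiv.hasSum_iff (Equiv.sumArrowEquivProdArrow (Fin n) (Fin n) ℤ)).1 ?_
  have h8 : ((fun ab : (Fin n → ℤ) × (Fin n → ℤ) => fc f ab.1 ab.2 * EE ab.1 ab.2 q) ∘
      (Equiv.sumArrowEquivProdArrow (Fin n) (Fin n) ℤ)) = fun ν : Fin n ⊕ Fin n → ℤ =>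
      (∫ y in Set.Icc (0 : Fin n ⊕ Fin n → ℝ) 1,
        fourH f y * exp (-(2 * Real.pi * I * ∑ i, (ν i : ℂ) * (y i : ℂ)))) *
          exp (2 * Real.pi * I * ∑ i, (ν i : ℂ) * ((Sum.elim q.1 q.2 i : ℝ) : ℂ)) := by
    funext ν
    rw [hν ν, Fintype.sum_sum_type]
    show fc f (fun i => ν (Sum.inl i)) (fun i => ν (Sum.inr i)) *
      EE (fun i => ν (Sum.inl i)) (fun i => ν (Sum.inr i)) q = _
    unfold EE
    simp only [Sum.elim_inl, Sum.elim_inr, Finset.sum_add_distrib]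
  rw [h8]
  exact h6

end H72BT
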