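import Pool.Agent.H72.BT.Norm
import Pool.Agent.H72.BT.Four

/-!
BT-15. `T_f su(u) = su(Φ_{1/k}(f, u))`, on the level of coefficients.

Proof. Fix `l`. By `fc_hasSum` and `fc_summable 0` (`∑ ‖fc‖ < ∞`, `‖EE‖ = 1`) the integrand of
`ip (fun q => f q * su k u q) (eb k l)` is the absolutely (uniformly) convergent sum over `ab` of
`fc f a b * (EE a b q * su k u q * conj (eb k l q))`; `su k u` and `eb k l` are continuous, hence bounded
on the compact cube, so the integral is the sum of the integrals
(`hasSum_integral_of_summable_integral_norm`). By `su_eq` and `ip_sum_left`,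
`ip (EE a b * su k u) (eb k l) = ∑_j u(gp k (jz j)) * ip (EE a b * eb k (jz j)) (eb k l)`
(continuity of `EE a b * eb k j`: `eb_mem`), and by `mel_EE` only the `j` with
`k ∣ (l - b)_i - jz j i` for all `i` contributes; there is exactly one (`exists_rep`), and for it
`gp k l - (1/k) • ivec b = gp k (jz j) + ivec m` with an integer vector `m`, so
`u (gp k (jz j)) = u (gp k l - (1/k) • ivec b)` (periodicity `u.2.2`). The contribution is
`(sc n k)⁻¹ * exp(lam a b/k) * ea a (gp k l) * u (gp k l - (1/k) • ivec b)`, which is the summand of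
`Phi (1/k) f u (gp k l)` divided by `sc n k`
(`-(π κ/2) sq - π I κ dt = κ lam` for `κ = 1/k`).
`Phi_eq`: rewriting of the definition.
-/

set_option autoImplicit false

open MeasureTheory Complex
open scoped ContDiff ComplexConjugate

noncomputable section

namespace H72BT

open H99.EQ

theorem Phi_eq {n : ℕ} (κ : ℝ) (f : Ph n → ℂ) (u : V n → ℂ) (x : V n) :
    Phi κ f u x = ∑' ab : (Fin n → ℤ) × (Fin n → ℤ), fc f ab.1 ab.2 *
      exp ((κ : ℂ) * lam ab.1 ab.2) * ea ab.1 x * u (x - κ • ivec ab.2) := by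
  unfold Phi
  refine tsum_congr fun ab => ?_
  have h1 : (-(Real.pi * κ / 2) * sq ab.1 ab.2 - Real.pi * I * κ * dt ab.1 ab.2 : ℂ) =
      (κ : ℂ) * lam ab.1 ab.2 := by
    unfold lam
    ring
  rw [h1]
  rfl

theorem MelF_norm_EE {n : ℕ} (a b : Fin n → ℤ) (q : Ph n) : ‖EE a b q‖ = 1 := by
  unfold EE
  have h1 : (2 * Real.pi * I * ∑ j, ((a j : ℂ) * (q.1 j : ℂ) + (b j : ℂ) * (q.2 j : ℂ)) : ℂ) =
      ((2 * Real.pi * ∑ j, ((a j : ℝ) * q.1 j + (b j : ℝ) * q.2 j) : ℝ) : ℂ) * I := by
    push_cast
    ring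
  rw [h1, norm_exp_ofReal_mul_I]

theorem MelF_cont_EE {n : ℕ} (a b : Fin n → ℤ) : Continuous (EE a b : Ph n → ℂ) := by
  unfold EE
  fun_prop

theorem MelF_int {n : ℕ} {g : Ph n → ℂ} (hg : Continuous g) :
    Integrable g (volume.restrict (cube n)) :=
  hg.continuousOn.integrableOn_compact isCompact_Icc

/-- the matrix element of a character -/
theorem MelF_term {n k : ℕ} (hk : 1 ≤ k) (u : CP n) (a b l : Fin n → ℤ) :
    ip (fun q => EE a b q * su k (u : V n → ℂ) q) (eb k l) =
      (sc n k : ℂ)⁻¹ * exp (lam a b / k) * ea a (gp k l) *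
        (u : V n → ℂ) (gp k l - (1 / (k : ℝ)) • ivec b) := by
  have hk0 : (k : ℝ) ≠ 0 := by
    have : 0 < k := by omega
    positivity
  have hcont : ∀ j, Continuous (eb k j : Ph n → ℂ) := fun j => Norm_cont hk j
  have h1 : ip (fun q => EE a b q * su k (u : V n → ℂ) q) (eb k l) =
      ∑ j : Fin n → Fin k, (u : V n → ℂ) (gp k (jz j)) *
        ip (fun q => EE a b q * eb k (jz j) q) (eb k l) := by
    unfold ip
    rw [su_eq]
    unfold cmb
    have h2 : (fun q : Ph n => (EE a b q * ∑ j : Fin n → Fin k,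
        (u : V n → ℂ) (gp k (jz j)) * eb k (jz j) q) * (starRingEnd ℂ) (eb k l q)) =
        fun q => ∑ j : Fin n → Fin k, (u : V n → ℂ) (gp k (jz j)) *
          ((EE a b q * eb k (jz j) q) * (starRingEnd ℂ) (eb k l q)) := by
      funext q
      rw [Finset.mul_sum, Finset.sum_mul]
      refine Finset.sum_congr rfl fun j _ => ?_
      ring
    rw [h2, integral_finsetSum]
    · refine Finset.sum_congr rfl fun j _ => ?_
      exact integral_const_mul _ _
    · intro j _
      refine MelF_int ?_
      have := MelF_cont_EE a b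
      have h3 := hcont (jz j)
      have h4 := hcont l
      exact continuous_const.mul ((this.mul h3).mul (continuous_conj.comp h4))
  rw [h1]
  obtain ⟨j₀, hj₀, huniq⟩ := exists_rep hk (fun i => l i - b i)
  have hiff : ∀ j : Fin n → Fin k, (∀ i, (k : ℤ) ∣ jz j i + b i - l i) ↔ j = j₀ := by
    intro j
    constructor
    · intro h
      apply huniq
      intro i
      have : l i - b i - jz j i = -(jz j i + b i - l i) := by ring
      show (k : ℤ) ∣ l i - b i - jz j i
      rw [this]
      exact (h i).neg_right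
    · rintro rfl i
      have h2 : (k : ℤ) ∣ l i - b i - jz j i := hj₀ i
      have : jz j i + b i - l i = -(l i - b i - jz j i) := by ring
      rw [this]
      exact h2.neg_right
  rw [Finset.sum_eq_single j₀]
  · rw [mel_EE hk, if_pos ((hiff j₀).2 rfl)]
    choose m hm using hj₀
    have h3 : gp k l - (1 / (k : ℝ)) • ivec b = gp k (jz j₀) + ivec m := by
      funext i
      have h4 : l i - b i - jz j₀ i = k * m i := hm i
      have h5 : (l i : ℝ) - b i - (jz j₀ i : ℝ) = k * (m i : ℝ) := by exact_mod_cast h4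
      show (l i : ℝ) / k - (1 / (k : ℝ)) * (b i : ℝ) = (jz j₀ i : ℝ) / k + (m i : ℝ)
      field_simp
      linarith
    rw [h3, u.2.2 m (gp k (jz j₀))]
    ring
  · intro j _ hj
    rw [mel_EE hk, if_neg (fun h => hj ((hiff j).1 h)), mul_zero]
  · intro h
    exact absurd (Finset.mem_univ _) h

theorem cl_mul_su {n k : ℕ} (hk : 1 ≤ k) {f : Ph n → ℂ} (hf : IsSm f) (u : CP n)
    (l : Fin n → ℤ) :
    cl k l (fun q => f q * su k (u : V n → ℂ) q) =
      Phi (1 / (k : ℝ)) f (u : V n → ℂ) (gp k l) := by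
  have hcont : Continuous (eb k l : Ph n → ℂ) := Norm_cont hk l
  have hsu : Continuous (su k (u : V n → ℂ) : Ph n → ℂ) := (su_mem hk _).1.continuous
  set g : Ph n → ℂ := fun q => su k (u : V n → ℂ) q * (starRingEnd ℂ) (eb k l q) with hg
  have hgc : Continuous g := hsu.mul (continuous_conj.comp hcont)
  set F : (Fin n → ℤ) × (Fin n → ℤ) → Ph n → ℂ := fun ab q =>
    fc f ab.1 ab.2 * (EE ab.1 ab.2 q * g q) with hF
  have hFc : ∀ ab, Continuous (F ab) := fun ab =>
    continuous_const.mul ((MelF_cont_EE _ _).mul hgc)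
  have hsum0 := fc_summable hf 0
  have hnorm : ∀ ab, ∫ q in cube n, ‖F ab q‖ = ‖fc f ab.1 ab.2‖ * ∫ q in cube n, ‖g q‖ := by
    intro ab
    rw [← integral_const_mul]
    congr 1
    funext q
    rw [hF]
    simp only [norm_mul, MelF_norm_EE, one_mul]
  have hsum : Summable fun ab => ∫ q in cube n, ‖F ab q‖ := by
    simp only [hnorm]
    apply Summable.mul_right
    simpa using hsum0
  have key := hasSum_integral_of_summable_integral_norm (fun ab => MelF_int (hFc ab)) hsum
  have hval : ∀ q, ∑' ab, F ab q = (f q * su k (u : V n → ℂ) q) * (starRingEnd ℂ) (eb k l q) := by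
    intro q
    have h1 := (fc_hasSum hf q).mul_right (g q)
    have h2 : (fun ab : (Fin n → ℤ) × (Fin n → ℤ) => fc f ab.1 ab.2 * EE ab.1 ab.2 q * g q) =
        fun ab => F ab q := by
      funext ab
      rw [hF]
      ring
    rw [h2] at h1
    rw [h1.tsum_eq, hg]
    ring
  have hip : ip (fun q => f q * su k (u : V n → ℂ) q) (eb k l) =
      ∑' ab : (Fin n → ℤ) × (Fin n → ℤ), fc f ab.1 ab.2 *
        ip (fun q => EE ab.1 ab.2 q * su k (u : V n → ℂ) q) (eb k l) := by
    have h1 : ip (fun q => f q * su k (u : V n → ℂ) q) (eb k l) =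
        ∫ q in cube n, ∑' ab, F ab q := by
      unfold ip
      congr 1
      funext q
      exact (hval q).symm
    rw [h1, ← key.tsum_eq]
    refine tsum_congr fun ab => ?_
    unfold ip
    rw [← integral_const_mul]
    congr 1
    funext q
    rw [hF, hg]
    ring
  unfold cl
  rw [hip, Phi_eq, ← tsum_mul_left]
  refine tsum_congr fun ab => ?_
  rw [MelF_term hk]
  have hsc : (sc n k : ℂ) ≠ 0 := by
    exact_mod_cast (sc_pos (n := n) hk).ne'
  have hexp : exp (lam ab.1 ab.2 / k) = exp (((1 / (k : ℝ) : ℝ) : ℂ) * lam ab.1 ab.2) := by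
    congr 1
    push_cast
    ring
  rw [hexp]
  field_simp

end H72BT
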