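import Pool.Agent.H72.BT.TermB
import Pool.Agent.H72.BT.MelF

/-!
BT-18. Expansion of `Φ_κ(f, u)` in powers of `κ`.

Proof. By `Phi_eq` and the definition of `QO` (all series converge absolutely by `fc_summable`,
`lam_norm`, `cp_bdd`, `ea_norm`, `ivec_norm`; finite sums are exchanged with `tsum` by
`Summable.tsum_finsetSum` / `tsum_mul_left`),
`Phi κ f u x - ∑_{m<J} κ^m QO f m u x = ∑'_ab fc f ab * ea a x * (the expression in term_bound)`, of norm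
`≤ ∑' ‖fc f ab‖ C κ^J (1+‖ab‖)^{2J}`, finite by `fc_summable hf (2J)`.
`QO_summable` records the absolute convergence of the series in `QO`.
-/

set_option autoImplicit false

open MeasureTheory Complex
open scoped ContDiff ComplexConjugate

noncomputable section

namespace H72BT

open H99.EQ

theorem expK_norm_nonneg {n : ℕ} (ab : (Fin n → ℤ) × (Fin n → ℤ)) : 0 ≤ 1 + ‖ab‖ :=
  add_nonneg zero_le_one (norm_nonneg _)

theorem expK_D {n : ℕ} (u : CP n) (i : ℕ) : ∃ M : ℝ, 0 ≤ M ∧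
    ∀ (ab : (Fin n → ℤ) × (Fin n → ℤ)) (x : V n),
      ‖iteratedFDeriv ℝ i (u : V n → ℂ) x (fun _ => -ivec ab.2)‖ ≤ M * (1 + ‖ab‖) ^ i := by
  obtain ⟨M, hM⟩ := cp_bdd u i
  have hM0 : 0 ≤ M := (norm_nonneg _).trans (hM 0)
  refine ⟨M, hM0, fun ab x => ?_⟩
  refine (ContinuousMultilinearMap.le_opNorm _ _).trans ?_
  rw [Finset.prod_const, Finset.card_univ, Fintype.card_fin, norm_neg]
  exact mul_le_mul (hM x) (pow_le_pow_left₀ (norm_nonneg _) (ivec_norm ab) i)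
    (pow_nonneg (norm_nonneg _) _) hM0

theorem QO_summable {n : ℕ} {f : Ph n → ℂ} (hf : IsSm f) (r i : ℕ) (u : CP n) (x : V n) :
    Summable fun ab : (Fin n → ℤ) × (Fin n → ℤ) => fc f ab.1 ab.2 * lam ab.1 ab.2 ^ r *
      ea ab.1 x * iteratedFDeriv ℝ i (u : V n → ℂ) x (fun _ => -ivec ab.2) := by
  obtain ⟨M, hM0, hM⟩ := expK_D u i
  obtain ⟨C, hC0, hC⟩ := lam_norm n
  refine Summable.of_norm_bounded ((fc_summable hf (2 * r + i)).mul_left (C ^ r * M))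
    (fun ab => ?_)
  have h0 := expK_norm_nonneg ab
  rw [norm_mul, norm_mul, norm_mul, ea_norm, mul_one, norm_pow]
  have h1 : ‖lam ab.1 ab.2‖ ^ r ≤ (C * (1 + ‖ab‖) ^ 2) ^ r :=
    pow_le_pow_left₀ (norm_nonneg _) (hC ab) r
  have h2 := hM ab x
  calc ‖fc f ab.1 ab.2‖ * ‖lam ab.1 ab.2‖ ^ r *
        ‖iteratedFDeriv ℝ i (u : V n → ℂ) x (fun _ => -ivec ab.2)‖
      ≤ ‖fc f ab.1 ab.2‖ * (C * (1 + ‖ab‖) ^ 2) ^ r * (M * (1 + ‖ab‖) ^ i) := by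
        refine mul_le_mul (mul_le_mul_of_nonneg_left h1 (norm_nonneg _)) h2 (norm_nonneg _) ?_
        exact mul_nonneg (norm_nonneg _) (pow_nonneg (mul_nonneg hC0 (pow_nonneg h0 _)) _)
    _ = C ^ r * M * (‖fc f ab.1 ab.2‖ * (1 + ‖ab‖) ^ (2 * r + i)) := by
        rw [pow_add, pow_mul, mul_pow]; ring

theorem expK_exp {n : ℕ} (κ : ℝ) (hκ : 0 ≤ κ) (a b : Fin n → ℤ) :
    ‖exp ((κ : ℂ) * lam a b)‖ ≤ 1 := by
  rw [Complex.norm_exp]
  apply Real.exp_le_one_iff.mpr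
  rw [Complex.re_ofReal_mul]
  exact mul_nonpos_of_nonneg_of_nonpos hκ (lam_re a b)

theorem expK_summable {n : ℕ} {f : Ph n → ℂ} (hf : IsSm f) (u : CP n) (κ : ℝ) (hκ : 0 ≤ κ)
    (x : V n) :
    Summable fun ab : (Fin n → ℤ) × (Fin n → ℤ) => fc f ab.1 ab.2 *
      exp ((κ : ℂ) * lam ab.1 ab.2) * ea ab.1 x * (u : V n → ℂ) (x - κ • ivec ab.2) := by
  obtain ⟨M, hM⟩ := cp_bdd u 0
  have hM0 : 0 ≤ M := (norm_nonneg _).trans (hM 0)
  refine Summable.of_norm_bounded ((fc_summable hf 0).mul_left M) (fun ab => ?_)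
  rw [norm_mul, norm_mul, norm_mul, ea_norm, mul_one, pow_zero, mul_one]
  have h1 := expK_exp κ hκ ab.1 ab.2
  have h2 := hM (x - κ • ivec ab.2)
  rw [norm_iteratedFDeriv_zero] at h2
  calc ‖fc f ab.1 ab.2‖ * ‖exp ((κ : ℂ) * lam ab.1 ab.2)‖ *
        ‖(u : V n → ℂ) (x - κ • ivec ab.2)‖
      ≤ ‖fc f ab.1 ab.2‖ * 1 * M := by
        refine mul_le_mul (mul_le_mul_of_nonneg_left h1 (norm_nonneg _)) h2 (norm_nonneg _) ?_
        exact mul_nonneg (norm_nonneg _) zero_le_one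
    _ = M * ‖fc f ab.1 ab.2‖ := by ring

theorem Phi_exp {n : ℕ} {f : Ph n → ℂ} (hf : IsSm f) (u : CP n) (J : ℕ) :
    ∃ C : ℝ, 0 ≤ C ∧ ∀ (κ : ℝ) (x : V n), 0 ≤ κ → κ ≤ 1 →
      ‖Phi κ f (u : V n → ℂ) x -
        ∑ m ∈ Finset.range J, (κ : ℂ) ^ m * QO f m (u : V n → ℂ) x‖ ≤ C * κ ^ J := by
  obtain ⟨C, hC0, hC⟩ := term_bound u J
  have hS := fc_summable hf (2 * J)
  refine ⟨C * ∑' ab : (Fin n → ℤ) × (Fin n → ℤ), ‖fc f ab.1 ab.2‖ * (1 + ‖ab‖) ^ (2 * J),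
    mul_nonneg hC0 (tsum_nonneg fun ab => mul_nonneg (norm_nonneg _)
      (pow_nonneg (expK_norm_nonneg ab) _)), fun κ x h0 h1 => ?_⟩
  have hP := (expK_summable hf u κ h0 x).hasSum
  rw [← Phi_eq] at hP
  have hQ : HasSum (fun ab : (Fin n → ℤ) × (Fin n → ℤ) =>
      ∑ m ∈ Finset.range J, (κ : ℂ) ^ m * ∑ i ∈ Finset.range (m + 1),
        ((i.factorial : ℂ) * ((m - i).factorial : ℂ))⁻¹ *
          (fc f ab.1 ab.2 * lam ab.1 ab.2 ^ (m - i) * ea ab.1 x *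
            iteratedFDeriv ℝ i (u : V n → ℂ) x (fun _ => -ivec ab.2)))
      (∑ m ∈ Finset.range J, (κ : ℂ) ^ m * QO f m (u : V n → ℂ) x) := by
    refine hasSum_sum fun m _ => HasSum.mul_left _ ?_
    unfold QO
    refine hasSum_sum fun i _ => HasSum.mul_left _ ?_
    exact (QO_summable hf (m - i) i u x).hasSum
  have hD := hP.sub hQ
  rw [← hD.tsum_eq]
  have hB : HasSum (fun ab : (Fin n → ℤ) × (Fin n → ℤ) =>
      (C * κ ^ J) * (‖fc f ab.1 ab.2‖ * (1 + ‖ab‖) ^ (2 * J)))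
      ((C * κ ^ J) * ∑' ab : (Fin n → ℤ) × (Fin n → ℤ),
        ‖fc f ab.1 ab.2‖ * (1 + ‖ab‖) ^ (2 * J)) := hS.hasSum.mul_left _
  refine (tsum_of_norm_bounded hB (fun ab => ?_)).trans (le_of_eq (by ring))
  have h2 := hC ab κ x h0 h1
  have h3 : fc f ab.1 ab.2 * exp ((κ : ℂ) * lam ab.1 ab.2) * ea ab.1 x *
        (u : V n → ℂ) (x - κ • ivec ab.2) -
      ∑ m ∈ Finset.range J, (κ : ℂ) ^ m * ∑ i ∈ Finset.range (m + 1),
        ((i.factorial : ℂ) * ((m - i).factorial : ℂ))⁻¹ *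
          (fc f ab.1 ab.2 * lam ab.1 ab.2 ^ (m - i) * ea ab.1 x *
            iteratedFDeriv ℝ i (u : V n → ℂ) x (fun _ => -ivec ab.2)) =
      (fc f ab.1 ab.2 * ea ab.1 x) *
        (exp ((κ : ℂ) * lam ab.1 ab.2) * (u : V n → ℂ) (x - κ • ivec ab.2) -
        ∑ m ∈ Finset.range J, (κ : ℂ) ^ m * ∑ i ∈ Finset.range (m + 1),
          ((i.factorial : ℂ) * ((m - i).factorial : ℂ))⁻¹ * (lam ab.1 ab.2 ^ (m - i) *
            iteratedFDeriv ℝ i (u : V n → ℂ) x (fun _ => -ivec ab.2))) := by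
    rw [mul_sub]
    congr 1
    · ring
    · rw [Finset.mul_sum (Finset.range J)]
      refine Finset.sum_congr rfl fun m _ => ?_
      rw [mul_left_comm, Finset.mul_sum (Finset.range (m + 1)) _
        (fc f ab.1 ab.2 * ea ab.1 x)]
      congr 1
      refine Finset.sum_congr rfl fun i _ => ?_
      ring
  rw [h3, norm_mul, norm_mul, ea_norm, mul_one]
  calc ‖fc f ab.1 ab.2‖ * _ ≤ ‖fc f ab.1 ab.2‖ * (C * κ ^ J * (1 + ‖ab‖) ^ (2 * J)) :=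
        mul_le_mul_of_nonneg_left h2 (norm_nonneg _)
    _ = C * κ ^ J * (‖fc f ab.1 ab.2‖ * (1 + ‖ab‖) ^ (2 * J)) := by ring

end H72BT
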