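import Pool.Agent.H72.BT.Ops
import Pool.Agent.H72.BT.Tor

/-!
BT-8a. Fourier coefficients in `ξ` of the sections `s ∈ Hol n k`: the differential equation.

Proof. Fix `x, ν` and put `φ(t) = fcx s ν (t • x)`. Differentiating under the integral
(`hasDerivAt_integral_of_dominated_loc_of_deriv_le`; everything is continuous, the cube is compact),
`φ'(t) = ∫ fderiv s (t•x, ξ) (x, 0) e^{-2πiν·ξ} dξ`, and
`fderiv s (x, 0) = ∑_j x_j fderiv s (e_j, 0) = ∑_j x_j (-i fderiv s (0, e_j) - 2πk t x_j s)` by the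
equation in `Hol`. By `tor_deriv` for the periodic function `ξ ↦ s(t•x, ξ) e^{-2πiν·ξ}` and the
direction `e_j`, `∫ fderiv s (0, e_j) e^{-2πiν·ξ} dξ = 2πi ν_j φ(t)`. So
`φ'(t) = (2π ν·x - 2πk t |x|²) φ(t)`, and `φ(t) exp(-2πt ν·x + πk t² |x|²)` has derivative `0`, is
constant (`is_const_of_deriv_eq_zero`); compare `t = 1` and `t = 0`.
-/

set_option autoImplicit false

open MeasureTheory Complex
open scoped ContDiff ComplexConjugate

noncomputable section

namespace H72BT

open H99.EQ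

/-- Fourier coefficients in `ξ`. -/
def fcx {n : ℕ} (s : Ph n → ℂ) (ν : Fin n → ℤ) (x : V n) : ℂ :=
  ∫ ξ in Set.Icc (0 : V n) 1, s (x, ξ) * exp (-(2 * Real.pi * I * ∑ i, (ν i : ℂ) * (ξ i : ℂ)))

/-- the phase -/
private def fcaE {n : ℕ} (ν : Fin n → ℤ) (ξ : V n) : ℂ :=
  exp (-(2 * Real.pi * I * ∑ i, (ν i : ℂ) * (ξ i : ℂ)))

private theorem fcaE_smooth {n : ℕ} (ν : Fin n → ℤ) : ContDiff ℝ ∞ (fcaE ν) := by
  unfold fcaE
  refine Complex.contDiff_exp.comp (contDiff_const.mul (ContDiff.sum fun j _ => ?_)).neg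
  exact contDiff_const.mul (Complex.ofRealCLM.contDiff.comp (contDiff_apply ℝ ℝ j))

private theorem fcaE_per {n : ℕ} (ν : Fin n → ℤ) (ξ : V n) (m : Fin n → ℤ) :
    fcaE ν (ξ + fun i => (m i : ℝ)) = fcaE ν ξ := by
  unfold fcaE
  have : (-(2 * Real.pi * I * ∑ j, (ν j : ℂ) * (((ξ + fun i => (m i : ℝ)) j : ℝ) : ℂ))) =
      -(2 * Real.pi * I * ∑ j, (ν j : ℂ) * (ξ j : ℂ)) +
        ((-∑ j, ν j * m j : ℤ) : ℂ) * (2 * Real.pi * I) := by
    simp only [Pi.add_apply]
    push_cast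
    simp only [mul_add, Finset.sum_add_distrib]
    ring
  rw [this, exp_add, exp_int_mul_two_pi_mul_I, mul_one]

private theorem fcaE_deriv {n : ℕ} (ν : Fin n → ℤ) (ξ : V n) (j : Fin n) :
    fderiv ℝ (fcaE ν) ξ (Pi.single j 1) = -(2 * Real.pi * I * ν j) * fcaE ν ξ := by
  have h1 : HasFDerivAt (fun ξ : V n => ∑ i, (ν i : ℂ) * (ξ i : ℂ))
      (∑ i, (ν i : ℂ) • (Complex.ofRealCLM.comp (ContinuousLinearMap.proj (R := ℝ) i))) ξ := by
    apply HasFDerivAt.fun_sum
    intro i _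
    have h2 : HasFDerivAt (fun ξ : V n => ((ξ i : ℝ) : ℂ))
        (Complex.ofRealCLM.comp (ContinuousLinearMap.proj (R := ℝ) i)) ξ :=
      Complex.ofRealCLM.hasFDerivAt.comp ξ (hasFDerivAt_apply i ξ)
    exact h2.const_mul (ν i : ℂ)
  have h3 := ((h1.const_mul (2 * Real.pi * I)).neg).cexp
  have h4 : HasFDerivAt (fcaE ν) _ ξ := h3
  rw [h4.fderiv]
  simp [fcaE, Pi.single_apply, Finset.sum_ite_eq', apply_ite]
  ring

private theorem fca_sum {n : ℕ} (L : Ph n →L[ℝ] ℂ) (x : V n) :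
    L (x, 0) = ∑ j, (x j : ℂ) * L (Pi.single j 1, 0) := by
  have h : (x, (0 : V n)) = ∑ j, x j • ((Pi.single j 1 : V n), (0 : V n)) := by
    apply Prod.ext
    · rw [Prod.fst_sum]
      simp only [Prod.smul_mk]
      exact pi_eq_sum_univ' x
    · rw [Prod.snd_sum]
      simp
  rw [h, map_sum]
  refine Finset.sum_congr rfl fun j _ => ?_
  rw [map_smul, real_smul]

private theorem fca_int {n : ℕ} {g : V n → ℂ} (hg : Continuous g) :
    Integrable g (volume.restrict (Set.Icc (0 : V n) 1)) :=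
  (hg.continuousOn).integrableOn_compact isCompact_Icc

/-- integral of the vertical derivative -/
private theorem fca_vert {n : ℕ} {s : Ph n → ℂ} (hs : ContDiff ℝ ∞ s)
    (hp : ∀ (a : Fin n → ℤ) (x ξ : V n), s (x, ξ + ivec a) = s (x, ξ))
    (ν : Fin n → ℤ) (x : V n) (j : Fin n) :
    ∫ ξ in Set.Icc (0 : V n) 1, fderiv ℝ s (x, ξ) (0, Pi.single j 1) * fcaE ν ξ =
      2 * Real.pi * I * ν j * ∫ ξ in Set.Icc (0 : V n) 1, s (x, ξ) * fcaE ν ξ := by
  have hsx : ContDiff ℝ ∞ fun ξ : V n => s (x, ξ) := hs.comp (contDiff_const.prodMk contDiff_id)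
  have h := tor_deriv (fun ξ : V n => s (x, ξ) * fcaE ν ξ)
    ((hsx.mul (fcaE_smooth ν)).of_le (by exact_mod_cast le_top))
    (fun ξ m => by
      have := hp m x ξ
      unfold ivec at this
      simp only [this, fcaE_per]) (Pi.single j 1)
  have hd : ∀ ξ : V n, fderiv ℝ (fun ξ : V n => s (x, ξ) * fcaE ν ξ) ξ (Pi.single j 1) =
      fderiv ℝ s (x, ξ) (0, Pi.single j 1) * fcaE ν ξ -
        2 * Real.pi * I * ν j * (s (x, ξ) * fcaE ν ξ) := by
    intro ξ
    have e1 : HasFDerivAt (fun ξ : V n => s (x, ξ))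
        ((fderiv ℝ s (x, ξ)).comp ((0 : V n →L[ℝ] V n).prod (ContinuousLinearMap.id ℝ (V n)))) ξ := by
      have := (hs.differentiable (by simp) (x, ξ)).hasFDerivAt
      exact this.comp ξ ((hasFDerivAt_const x ξ).prodMk (hasFDerivAt_id ξ))
    rw [fderiv_fun_mul e1.differentiableAt ((fcaE_smooth ν).differentiable (by simp) ξ),
      e1.fderiv]
    simp only [ContinuousLinearMap.add_apply, ContinuousLinearMap.smul_apply, fcaE_deriv,
      ContinuousLinearMap.comp_apply, ContinuousLinearMap.prod_apply, ContinuousLinearMap.zero_apply,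
      ContinuousLinearMap.id_apply, smul_eq_mul]
    ring
  simp only [hd] at h
  have i1 : Continuous fun ξ : V n => fderiv ℝ s (x, ξ) (0, Pi.single j 1) * fcaE ν ξ := by
    refine Continuous.mul ?_ (fcaE_smooth ν).continuous
    exact (contDiff_fderiv_apply hs _).continuous.comp (continuous_const.prodMk continuous_id)
  have i2 : Continuous fun ξ : V n => 2 * Real.pi * I * ν j * (s (x, ξ) * fcaE ν ξ) :=
    continuous_const.mul (hsx.continuous.mul (fcaE_smooth ν).continuous)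
  rw [integral_sub (fca_int i1) (fca_int i2), integral_const_mul] at h
  exact sub_eq_zero.mp h

/-- the ODE -/
private theorem fca_ode {n k : ℕ} {s : Ph n → ℂ} (hs : s ∈ Hol n k) (ν : Fin n → ℤ) (x : V n)
    (t : ℝ) : HasDerivAt (fun t : ℝ => fcx s ν (t • x))
      ((2 * Real.pi * (∑ i, (ν i : ℂ) * (x i : ℂ)) -
        2 * Real.pi * k * t * ∑ i, (x i : ℂ) ^ 2) * fcx s ν (t • x)) t := by
  obtain ⟨hs1, hs2, hs3, hs4⟩ := hs
  have hcE := (fcaE_smooth ν).continuous
  have hD : ContDiff ℝ ∞ fun q : Ph n => fderiv ℝ s q (x, 0) := contDiff_fderiv_apply hs1 _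
  -- the derivative under the integral
  have hF' : Continuous fun p : ℝ × V n => fderiv ℝ s (p.1 • x, p.2) (x, 0) * fcaE ν p.2 := by
    refine Continuous.mul ?_ (hcE.comp continuous_snd)
    exact hD.continuous.comp ((continuous_fst.smul continuous_const).prodMk continuous_snd)
  obtain ⟨C, hC⟩ := ((isCompact_closedBall t 1).prod (isCompact_Icc (a := (0 : V n)) (b := 1))).exists_bound_of_continuousOn
    hF'.continuousOn
  have key := hasDerivAt_integral_of_dominated_loc_of_deriv_le (𝕜 := ℝ)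
    (μ := volume.restrict (Set.Icc (0 : V n) 1))
    (F := fun (t : ℝ) (ξ : V n) => s (t • x, ξ) * fcaE ν ξ)
    (F' := fun (t : ℝ) (ξ : V n) => fderiv ℝ s (t • x, ξ) (x, 0) * fcaE ν ξ)
    (x₀ := t) (s := Metric.ball t 1) (bound := fun _ => C)
    (Metric.ball_mem_nhds t one_pos)
    (Filter.Eventually.of_forall fun u =>
      ((hs1.continuous.comp (continuous_const.prodMk continuous_id)).mul hcE).aestronglyMeasurable)
    (fca_int ((hs1.continuous.comp (continuous_const.prodMk continuous_id)).mul hcE))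
    ((hF'.comp (continuous_const.prodMk continuous_id)).aestronglyMeasurable)
    (by
      filter_upwards [ae_restrict_mem measurableSet_Icc] with ξ hξ u hu
      exact hC (u, ξ) ⟨Metric.ball_subset_closedBall hu, hξ⟩)
    ((continuousOn_const (c := C)).integrableOn_compact isCompact_Icc)
    (by
      refine Filter.Eventually.of_forall fun ξ u _ => ?_
      have e1 : HasDerivAt (fun u : ℝ => (u • x, ξ)) (x, (0 : V n)) u := by
        have := (hasDerivAt_id u).smul_const x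
        simp only [one_smul] at this
        exact this.prodMk (hasDerivAt_const u ξ)
      have e2 : HasDerivAt (fun u : ℝ => s (u • x, ξ)) (fderiv ℝ s (u • x, ξ) (x, 0)) u :=
        ((hs1.differentiable (by simp) (u • x, ξ)).hasFDerivAt).comp_hasDerivAt u e1
      exact e2.mul_const _)
  have hd := key.2
  have heq : ∫ ξ in Set.Icc (0 : V n) 1, fderiv ℝ s (t • x, ξ) (x, 0) * fcaE ν ξ =
      (2 * Real.pi * (∑ i, (ν i : ℂ) * (x i : ℂ)) -
        2 * Real.pi * k * t * ∑ i, (x i : ℂ) ^ 2) * fcx s ν (t • x) := by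
    have e3 : ∀ ξ : V n, fderiv ℝ s (t • x, ξ) (x, 0) * fcaE ν ξ =
        ∑ j, ((-I * x j) * (fderiv ℝ s (t • x, ξ) (0, Pi.single j 1) * fcaE ν ξ) -
          (2 * Real.pi * k * t * (x j : ℂ) ^ 2) * (s (t • x, ξ) * fcaE ν ξ)) := by
      intro ξ
      rw [fca_sum, Finset.sum_mul]
      refine Finset.sum_congr rfl fun j _ => ?_
      have h4 := hs4 j (t • x, ξ)
      simp only [Pi.smul_apply, smul_eq_mul, ofReal_mul] at h4
      linear_combination (x j : ℂ) * fcaE ν ξ * h4
    simp only [e3]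
    have c1 : ∀ j : Fin n, Continuous fun ξ : V n =>
        (-I * x j) * (fderiv ℝ s (t • x, ξ) (0, Pi.single j 1) * fcaE ν ξ) := fun j =>
      continuous_const.mul (((contDiff_fderiv_apply hs1 _).continuous.comp
        (continuous_const.prodMk continuous_id)).mul hcE)
    have c2 : ∀ j : Fin n, Continuous fun ξ : V n =>
        (2 * Real.pi * k * t * (x j : ℂ) ^ 2) * (s (t • x, ξ) * fcaE ν ξ) := fun j =>
      continuous_const.mul ((hs1.continuous.comp
        (continuous_const.prodMk continuous_id)).mul hcE)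
    have i3 : ∀ j ∈ (Finset.univ : Finset (Fin n)), Integrable (fun ξ : V n =>
        (-I * x j) * (fderiv ℝ s (t • x, ξ) (0, Pi.single j 1) * fcaE ν ξ) -
          (2 * Real.pi * k * t * (x j : ℂ) ^ 2) * (s (t • x, ξ) * fcaE ν ξ))
        (volume.restrict (Set.Icc (0 : V n) 1)) := fun j _ => fca_int ((c1 j).sub (c2 j))
    rw [integral_finset_sum _ i3]
    have e4 : ∀ j : Fin n, ∫ ξ in Set.Icc (0 : V n) 1,
        ((-I * x j) * (fderiv ℝ s (t • x, ξ) (0, Pi.single j 1) * fcaE ν ξ) -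
          (2 * Real.pi * k * t * (x j : ℂ) ^ 2) * (s (t • x, ξ) * fcaE ν ξ)) =
        (2 * Real.pi * ((ν j : ℂ) * (x j : ℂ)) - 2 * Real.pi * k * t * (x j : ℂ) ^ 2) *
          fcx s ν (t • x) := by
      intro j
      rw [integral_sub (fca_int (c1 j)) (fca_int (c2 j)), integral_const_mul, integral_const_mul,
        fca_vert hs1 hs3]
      have : fcx s ν (t • x) = ∫ ξ in Set.Icc (0 : V n) 1, s (t • x, ξ) * fcaE ν ξ := rfl
      rw [← this]
      linear_combination (-2 * Real.pi * ν j * x j * fcx s ν (t • x)) * I_sq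
    rw [Finset.sum_congr rfl fun j _ => e4 j, ← Finset.sum_mul, Finset.sum_sub_distrib,
      Finset.mul_sum, Finset.mul_sum]
  rw [heq] at hd
  exact hd

theorem fcx_eq {n k : ℕ} {s : Ph n → ℂ} (hs : s ∈ Hol n k) (ν : Fin n → ℤ) (x : V n) :
    fcx s ν x = fcx s ν 0 *
      exp (2 * Real.pi * (∑ i, (ν i : ℂ) * (x i : ℂ)) - Real.pi * k * ∑ i, (x i : ℂ) ^ 2) := by
  set A : ℂ := 2 * Real.pi * (∑ i, (ν i : ℂ) * (x i : ℂ)) with hA
  set B : ℂ := Real.pi * k * ∑ i, (x i : ℂ) ^ 2 with hB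
  have hE : ∀ t : ℝ, HasDerivAt (fun t : ℝ => exp (-(A * t - B * (t : ℂ) ^ 2)))
      (exp (-(A * t - B * (t : ℂ) ^ 2)) * (-(A - B * (2 * t)))) t := by
    intro t
    have h1 : HasDerivAt (fun t : ℝ => (t : ℂ)) 1 t := Complex.ofRealCLM.hasDerivAt
    have h2 : HasDerivAt (fun t : ℝ => (t : ℂ) ^ 2) (2 * t) t := by
      have := h1.fun_pow 2
      simpa using this
    have h3 := (((h1.const_mul A).sub (h2.const_mul B)).neg).cexp
    simpa using h3
  have hd : ∀ t : ℝ, HasDerivAt (fun t : ℝ => fcx s ν (t • x) *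
      exp (-(A * t - B * (t : ℂ) ^ 2))) 0 t := by
    intro t
    have := (fca_ode hs ν x t).fun_mul (hE t)
    have e : (2 * Real.pi * (∑ i, (ν i : ℂ) * (x i : ℂ)) -
        2 * Real.pi * k * t * ∑ i, (x i : ℂ) ^ 2) * fcx s ν (t • x) *
        exp (-(A * t - B * (t : ℂ) ^ 2)) +
      fcx s ν (t • x) * (exp (-(A * t - B * (t : ℂ) ^ 2)) * (-(A - B * (2 * t)))) = 0 := by
      rw [hA, hB]
      ring
    rw [e] at this
    exact this
  have hc := is_const_of_deriv_eq_zero (f := fun t : ℝ => fcx s ν (t • x) *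
      exp (-(A * t - B * (t : ℂ) ^ 2))) (fun t => (hd t).differentiableAt)
      (fun t => (hd t).deriv) 1 0
  simp only [one_smul, zero_smul, ofReal_one, ofReal_zero, mul_one, one_pow, mul_zero,
    sub_zero, ne_eq, OfNat.ofNat_ne_zero, not_false_eq_true, zero_pow, neg_zero, exp_zero] at hc
  rw [← hc, mul_assoc, ← exp_add]
  simp

end H72BT
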