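import Pool.Agent.H72.BT.FCa

/-!
BT-8b. Fourier coefficients in `ξ` of the sections `s ∈ Hol n k`: periodicity, injectivity.

Proofs.
* `fcx_shift`: insert `s(x+m, ξ) = e^{2πik m·ξ} s(x, ξ)`.
* `fcx_Ac`: `fcx_eq` and `-πk ∑ (x_i - ν_i/k)² = -πk|x|² + 2πν·x - π|ν|²/k`.
* `Ac_congr`: `ν = ν' + k m`. By `fcx_shift` and `fcx_Ac`:
  `Ac ν exp(-πk|x+m-ν/k|²) = fcx s ν (x+m) = fcx s (ν-km) x = Ac (ν-km) exp(-πk|x-(ν-km)/k|²)`, the
  exponentials agree and are `≠ 0`.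
* `eq_zero_of_Ac`: for fixed `x` all Fourier coefficients of the continuous periodic function
  `ξ ↦ s(x, ξ)` vanish (`fcx_Ac`, `tor_inj`).

Status: complete (helper26).
-/

set_option autoImplicit false

open MeasureTheory Complex
open scoped ContDiff ComplexConjugate

noncomputable section

namespace H72BT

open H99.EQ

/-- Normalised Fourier coefficients. -/
def Ac {n : ℕ} (k : ℕ) (s : Ph n → ℂ) (ν : Fin n → ℤ) : ℂ :=
  exp (Real.pi * (∑ i, (ν i : ℂ) ^ 2) / k) * fcx s ν 0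

theorem fcx_shift {n k : ℕ} {s : Ph n → ℂ} (hs : s ∈ Hol n k) (ν m : Fin n → ℤ) (x : V n) :
    fcx s ν (x + ivec m) = fcx s (fun i => ν i - k * m i) x := by
  unfold fcx
  congr 1
  ext ξ
  rw [hs.2.1 m x ξ]
  have e : exp (2 * Real.pi * I * k * ∑ j, (m j : ℂ) * (ξ j : ℂ)) *
      exp (-(2 * Real.pi * I * ∑ i, (ν i : ℂ) * (ξ i : ℂ))) =
      exp (-(2 * Real.pi * I * ∑ i, ((ν i - k * m i : ℤ) : ℂ) * (ξ i : ℂ))) := by
    rw [← exp_add]
    congr 1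
    push_cast
    simp only [sub_mul, Finset.sum_sub_distrib]
    have e2 : ∑ i, (k : ℂ) * (m i : ℂ) * (ξ i : ℂ) = k * ∑ i, (m i : ℂ) * (ξ i : ℂ) := by
      rw [Finset.mul_sum]
      exact Finset.sum_congr rfl fun i _ => by ring
    rw [e2]
    ring
  rw [← e]
  ring

theorem fcx_Ac {n k : ℕ} (hk : 1 ≤ k) {s : Ph n → ℂ} (hs : s ∈ Hol n k) (ν : Fin n → ℤ)
    (x : V n) :
    fcx s ν x = Ac k s ν * exp (-(Real.pi * k * ∑ i, ((x i : ℂ) - (ν i : ℂ) / k) ^ 2)) := by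
  have hk0 : (k : ℂ) ≠ 0 := by
    have : k ≠ 0 := by omega
    exact_mod_cast this
  rw [fcx_eq hs ν x]
  unfold Ac
  have e : exp (2 * Real.pi * (∑ i, (ν i : ℂ) * (x i : ℂ)) - Real.pi * k * ∑ i, (x i : ℂ) ^ 2) =
      exp (Real.pi * (∑ i, (ν i : ℂ) ^ 2) / k) *
      exp (-(Real.pi * k * ∑ i, ((x i : ℂ) - (ν i : ℂ) / k) ^ 2)) := by
    rw [← exp_add]
    congr 1
    have e2 : ∑ i, ((x i : ℂ) - (ν i : ℂ) / k) ^ 2 =
        ∑ i, (x i : ℂ) ^ 2 - (2 / k) * ∑ i, (ν i : ℂ) * (x i : ℂ) + (1 / k ^ 2) * ∑ i, (ν i : ℂ) ^ 2 := by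
      rw [Finset.mul_sum, Finset.mul_sum, ← Finset.sum_sub_distrib, ← Finset.sum_add_distrib]
      exact Finset.sum_congr rfl fun i _ => by field_simp; ring
    rw [e2]
    field_simp
    ring
  rw [e]
  ring

theorem Ac_congr {n k : ℕ} (hk : 1 ≤ k) {s : Ph n → ℂ} (hs : s ∈ Hol n k) (ν ν' : Fin n → ℤ)
    (h : ∀ i, (k : ℤ) ∣ ν i - ν' i) : Ac k s ν = Ac k s ν' := by
  have hk0 : (k : ℂ) ≠ 0 := by
    have : k ≠ 0 := by omega
    exact_mod_cast this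
  choose m hm using h
  have hν : (fun i => ν i - k * m i) = ν' := by
    funext i
    have := hm i
    linarith
  have h1 := fcx_shift hs ν m 0
  rw [hν, fcx_Ac hk hs ν, fcx_Ac hk hs ν'] at h1
  have e : exp (-(Real.pi * k * ∑ i, ((((0 : V n) + ivec m) i : ℂ) - (ν i : ℂ) / k) ^ 2)) =
      exp (-(Real.pi * k * ∑ i, ((((0 : V n) i : ℝ) : ℂ) - (ν' i : ℂ) / k) ^ 2)) := by
    congr 3
    apply Finset.sum_congr rfl
    intro i _
    have h2 : (ν i : ℂ) = ν' i + k * m i := by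
      have := hm i
      have h3 : ν i = ν' i + k * m i := by linarith
      rw [h3]; push_cast; ring
    simp only [Pi.add_apply, Pi.zero_apply, ivec, zero_add]
    rw [h2]
    push_cast
    field_simp
    ring
  rw [e] at h1
  exact mul_right_cancel₀ (exp_ne_zero _) h1

theorem eq_zero_of_Ac {n k : ℕ} (hk : 1 ≤ k) {s : Ph n → ℂ} (hs : s ∈ Hol n k)
    (h : ∀ ν, Ac k s ν = 0) : s = 0 := by
  ext ⟨x, ξ⟩
  have hc : Continuous fun ξ : V n => s (x, ξ) :=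
    hs.1.continuous.comp (by fun_prop)
  exact tor_inj (fun ξ : V n => s (x, ξ)) hc (fun ξ m => hs.2.2.1 m x ξ)
    (fun ν => by
      have := fcx_Ac hk hs ν x
      rw [h ν, zero_mul] at this
      exact this) ξ

end H72BT
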