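import Pool.Agent.H72.BT.Ops

/-!
BT-9. Sesquilinearity of `ip` and the Cauchy-Schwarz inequality.

Proofs. All integrands are continuous on the compact cube `cube n = Icc 0 1`, hence integrable
(`Continuous.integrableOn_Icc` / `ContinuousOn.integrableOn_compact isCompact_Icc`). Then
`integral_finset_sum`, `integral_const_mul`, `integral_conj`. `ip_self_im`/`ip_self_re`: the integrand
of `ip s s` is `((‖s q‖² : ℝ) : ℂ)` (`Complex.mul_conj`), use `integral_ofReal`,
`integral_nonneg`; so `nrm s ^ 2 = ∫ ‖s‖²` (`nrm_sq`). `norm_ip_mul_le`: norm of the integral ≤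
integral of `G ‖s‖ ‖t‖` ≤ `G (∫‖s‖²)^{1/2} (∫‖t‖²)^{1/2}`
(`MeasureTheory.integral_mul_le_Lp_mul_Lq_of_nonneg` with `p = q = 2`, or the discriminant argument
`0 ≤ ∫ (λ‖s‖ - ‖t‖)²`).
-/

set_option autoImplicit false

open MeasureTheory Complex
open scoped ContDiff ComplexConjugate

noncomputable section

namespace H72BT

open H99.EQ

theorem lin_int {n : ℕ} {E : Type*} [NormedAddCommGroup E] {f : Ph n → E} (hf : Continuous f) :
    IntegrableOn f (cube n) :=
  hf.continuousOn.integrableOn_compact isCompact_Icc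

theorem ip_sum_left {n : ℕ} {ι : Type*} (S : Finset ι) (c : ι → ℂ) (s : ι → Ph n → ℂ)
    (t : Ph n → ℂ) (hs : ∀ i ∈ S, Continuous (s i)) (ht : Continuous t) :
    ip (fun q => ∑ i ∈ S, c i * s i q) t = ∑ i ∈ S, c i * ip (s i) t := by
  unfold ip
  have h1 : ∀ q, (∑ i ∈ S, c i * s i q) * (starRingEnd ℂ) (t q) =
      ∑ i ∈ S, c i * (s i q * (starRingEnd ℂ) (t q)) := by
    intro q
    rw [Finset.sum_mul]
    exact Finset.sum_congr rfl (fun i _ => by ring)
  simp only [h1]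
  rw [integral_finset_sum]
  · exact Finset.sum_congr rfl (fun i _ => integral_const_mul _ _)
  · intro i hi
    have h2 := hs i hi
    exact lin_int (by fun_prop)

theorem ip_conj {n : ℕ} (s t : Ph n → ℂ) : conj (ip s t) = ip t s := by
  unfold ip
  rw [← integral_conj]
  congr 1
  ext q
  rw [map_mul, Complex.conj_conj, mul_comm]

theorem ip_sum_right {n : ℕ} {ι : Type*} (S : Finset ι) (c : ι → ℂ) (s : ι → Ph n → ℂ)
    (t : Ph n → ℂ) (hs : ∀ i ∈ S, Continuous (s i)) (ht : Continuous t) :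
    ip t (fun q => ∑ i ∈ S, c i * s i q) = ∑ i ∈ S, conj (c i) * ip t (s i) := by
  rw [← ip_conj, ip_sum_left S c s t hs ht, map_sum]
  exact Finset.sum_congr rfl (fun i _ => by rw [map_mul, ip_conj])

theorem lin_self {n : ℕ} (s : Ph n → ℂ) : ip s s = ((∫ q in cube n, ‖s q‖ ^ 2 : ℝ) : ℂ) := by
  unfold ip
  have h1 : ∀ q, s q * (starRingEnd ℂ) (s q) = ((‖s q‖ ^ 2 : ℝ) : ℂ) := by
    intro q
    rw [Complex.mul_conj, Complex.normSq_eq_norm_sq]
  simp only [h1]
  exact integral_ofReal (𝕜 := ℂ) (μ := volume.restrict (cube n)) (f := fun q => ‖s q‖ ^ 2)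

theorem ip_self_im {n : ℕ} (s : Ph n → ℂ) : (ip s s).im = 0 := by
  rw [lin_self, Complex.ofReal_im]

theorem lin_nonneg {n : ℕ} (s : Ph n → ℂ) : 0 ≤ ∫ q in cube n, ‖s q‖ ^ 2 :=
  integral_nonneg (fun q => by positivity)

theorem ip_self_re {n : ℕ} (s : Ph n → ℂ) : 0 ≤ (ip s s).re := by
  rw [lin_self, Complex.ofReal_re]
  exact lin_nonneg s

theorem nrm_sq {n : ℕ} (s : Ph n → ℂ) : nrm s ^ 2 = ∫ q in cube n, ‖s q‖ ^ 2 := by
  unfold nrm
  rw [Real.sq_sqrt (ip_self_re s), lin_self, Complex.ofReal_re]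

theorem lin_cs {n : ℕ} {a b : Ph n → ℝ} (ha : Continuous a) (hb : Continuous b) :
    (∫ q in cube n, a q * b q) ^ 2 ≤ (∫ q in cube n, a q ^ 2) * ∫ q in cube n, b q ^ 2 := by
  have key : ∀ x : ℝ, 0 ≤ (∫ q in cube n, a q ^ 2) * (x * x) +
      (-2 * ∫ q in cube n, a q * b q) * x + ∫ q in cube n, b q ^ 2 := by
    intro x
    have h1 : 0 ≤ ∫ q in cube n, (x * a q - b q) ^ 2 := integral_nonneg (fun q => sq_nonneg _)
    have h2 : ∀ q, (x * a q - b q) ^ 2 = (x * x) * a q ^ 2 + (-2 * x) * (a q * b q) + b q ^ 2 := by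
      intro q; ring
    simp only [h2] at h1
    have i1 : IntegrableOn (fun q => (x * x) * a q ^ 2) (cube n) := lin_int (by fun_prop)
    have i2 : IntegrableOn (fun q => (-2 * x) * (a q * b q)) (cube n) := lin_int (by fun_prop)
    have i3 : IntegrableOn (fun q => b q ^ 2) (cube n) := lin_int (by fun_prop)
    have i12 : IntegrableOn (fun q => (x * x) * a q ^ 2 + (-2 * x) * (a q * b q)) (cube n) :=
      i1.add i2
    rw [integral_add i12 i3, integral_add i1 i2, integral_const_mul,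
      integral_const_mul] at h1
    linarith
  have := discrim_le_zero key
  unfold discrim at this
  nlinarith

theorem norm_ip_mul_le {n : ℕ} (g s t : Ph n → ℂ) (G : ℝ) (hg : Continuous g)
    (hs : Continuous s) (ht : Continuous t) (hG : ∀ q, ‖g q‖ ≤ G) :
    ‖ip (fun q => g q * s q) t‖ ≤ G * (nrm s * nrm t) := by
  have hG0 : 0 ≤ G := (norm_nonneg _).trans (hG 0)
  have h1 : ‖ip (fun q => g q * s q) t‖ ≤ ∫ q in cube n, ‖g q * s q * (starRingEnd ℂ) (t q)‖ :=
    norm_integral_le_integral_norm _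
  have h2 : ∫ q in cube n, ‖g q * s q * (starRingEnd ℂ) (t q)‖ ≤
      ∫ q in cube n, G * (‖s q‖ * ‖t q‖) := by
    apply integral_mono
    · exact lin_int (by fun_prop)
    · exact lin_int (by fun_prop)
    · intro q
      show ‖g q * s q * (starRingEnd ℂ) (t q)‖ ≤ G * (‖s q‖ * ‖t q‖)
      rw [norm_mul, norm_mul, RCLike.norm_conj, mul_assoc]
      exact mul_le_mul_of_nonneg_right (hG q) (by positivity)
  rw [integral_const_mul] at h2
  refine (h1.trans h2).trans (mul_le_mul_of_nonneg_left ?_ hG0)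
  have h3 := lin_cs (a := fun q => ‖s q‖) (b := fun q => ‖t q‖) hs.norm ht.norm
  rw [← nrm_sq, ← nrm_sq, ← mul_pow] at h3
  have hn : 0 ≤ nrm s * nrm t := mul_nonneg (Real.sqrt_nonneg _) (Real.sqrt_nonneg _)
  exact abs_le_of_sq_le_sq' h3 hn |>.2

end H72BT
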