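import Pool.Agent.H72.BT.SymD

/-!
BT-22. Degree and top order part of the symbols.

Proofs.
* `sym_deg`: `totalDegree_finset_sum`, `totalDegree_mul`, `totalDegree_C`, `totalDegree_X`
  (`totalDegree_finset_prod`); each term has degree `≤ i ≤ m`. `symW_deg` likewise.
* `sym_top`: `C c * ∏_{t : Fin i} X (l t)` is homogeneous of degree `i`
  (`MvPolynomial.IsHomogeneous.prod`, `isHomogeneous_C_mul_X...`), so the homogeneous component of
  degree `m` of `sym f hf m` is the part `i = m`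
  (`MvPolynomial.homogeneousComponent_of_mem`, `map_sum`), with coefficients `(m!)⁻¹ • cofP f 0 l`.
  Evaluate: `(m!)⁻¹ ∑_l cofP f 0 l x * ∏_t t_{l t} = (m!)⁻¹ ∑'_ab fc ea a x ∑_l ∏_t (-b_{l t} t_{l t})`
  (`cofP_summable`, `Summable.tsum_finsetSum`) and `∑_l ∏_t c_{l t} = (∑_j c_j)^m`
  (`Finset.sum_pow'`, `Fintype.sum_pow`, or `Finset.prod_univ_sum`).
* `symW_top`: the terms `j ≥ 1` of `symW` have degree `≤ w - j < w`, their component of degree `w`
  vanishes (`MvPolynomial.homogeneousComponent_eq_zero`).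
-/

set_option autoImplicit false

open MeasureTheory Complex
open scoped ContDiff ComplexConjugate

noncomputable section

namespace H72BT

open H99.EQ

theorem SymC_hom {n : ℕ} {f : Ph n → ℂ} (hf : IsSm f) (m i : ℕ) (l : Fin i → Fin n) :
    (MvPolynomial.C ((((i.factorial : ℂ) * ((m - i).factorial : ℂ))⁻¹) •
      (⟨cofP f (m - i) l, cofP_mem hf _ _⟩ : CP n)) *
        ∏ t, MvPolynomial.X (l t) : MvPolynomial (Fin n) (CP n)).IsHomogeneous i := by
  have h1 : (∏ t : Fin i, MvPolynomial.X (l t) : MvPolynomial (Fin n) (CP n)).IsHomogeneous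
      (∑ _t : Fin i, 1) :=
    MvPolynomial.IsHomogeneous.prod _ _ _ fun t _ => MvPolynomial.isHomogeneous_X _ _
  have h2 := (MvPolynomial.isHomogeneous_C (Fin n) ((((i.factorial : ℂ) *
    ((m - i).factorial : ℂ))⁻¹) • (⟨cofP f (m - i) l, cofP_mem hf _ _⟩ : CP n))).mul h1
  simpa using h2

theorem SymC_homS {n : ℕ} {f : Ph n → ℂ} (hf : IsSm f) (m i : ℕ) :
    (∑ l : Fin i → Fin n, MvPolynomial.C ((((i.factorial : ℂ) * ((m - i).factorial : ℂ))⁻¹) •
      (⟨cofP f (m - i) l, cofP_mem hf _ _⟩ : CP n)) *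
        ∏ t, MvPolynomial.X (l t) : MvPolynomial (Fin n) (CP n)).IsHomogeneous i :=
  MvPolynomial.IsHomogeneous.sum _ _ _ fun l _ => SymC_hom hf m i l

theorem sym_deg {n : ℕ} {f : Ph n → ℂ} (hf : IsSm f) (m : ℕ) :
    (sym f hf m).totalDegree ≤ m := by
  rw [sym]
  refine MvPolynomial.totalDegree_finsetSum_le fun i hi => ?_
  refine (SymC_homS hf m i).totalDegree_le.trans ?_
  rw [Finset.mem_range] at hi
  omega

theorem symW_deg {n : ℕ} {f : ℕ → Ph n → ℂ} (hf : ∀ j, IsSm (f j)) (w : ℕ) :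
    (symW f hf w).totalDegree ≤ w := by
  rw [symW]
  refine MvPolynomial.totalDegree_finsetSum_le fun j hj => ?_
  exact (sym_deg (hf j) (w - j)).trans (Nat.sub_le _ _)

theorem SymC_comp {n : ℕ} {f : Ph n → ℂ} (hf : IsSm f) (m : ℕ) :
    MvPolynomial.homogeneousComponent m (sym f hf m) =
      ∑ l : Fin m → Fin n, MvPolynomial.C ((((m.factorial : ℂ) * ((m - m).factorial : ℂ))⁻¹) •
      (⟨cofP f (m - m) l, cofP_mem hf _ _⟩ : CP n)) * ∏ t, MvPolynomial.X (l t) := by
  rw [sym, map_sum, Finset.sum_range_succ, Finset.sum_eq_zero, zero_add]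
  · rw [MvPolynomial.homogeneousComponent_of_mem (SymC_homS hf m m), if_pos rfl]
  · intro i hi
    rw [Finset.mem_range] at hi
    rw [MvPolynomial.homogeneousComponent_of_mem (SymC_homS hf m i), if_neg (by omega)]

theorem sym_top {n : ℕ} {f : Ph n → ℂ} (hf : IsSm f) (m : ℕ) (x t : V n) :
    MvPolynomial.eval (fun i => (t i : ℂ))
      (MvPolynomial.map (evP x) (MvPolynomial.homogeneousComponent m (sym f hf m))) =
      (m.factorial : ℂ)⁻¹ * ∑' ab : (Fin n → ℤ) × (Fin n → ℤ), fc f ab.1 ab.2 * ea ab.1 x *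
        (-∑ j, (ab.2 j : ℂ) * (t j : ℂ)) ^ m := by
  rw [SymC_comp, map_sum, map_sum]
  have h1 : ∀ l : Fin m → Fin n, MvPolynomial.eval (fun i => (t i : ℂ))
      (MvPolynomial.map (evP x) (MvPolynomial.C ((((m.factorial : ℂ) *
        ((m - m).factorial : ℂ))⁻¹) • (⟨cofP f (m - m) l, cofP_mem hf _ _⟩ : CP n)) *
          ∏ t, MvPolynomial.X (l t))) =
      (m.factorial : ℂ)⁻¹ * ∑' ab : (Fin n → ℤ) × (Fin n → ℤ),
        (fc f ab.1 ab.2 * lam ab.1 ab.2 ^ 0 * (∏ s, (-(ab.2 (l s) : ℂ))) * ea ab.1 x) *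
          ∏ s, (t (l s) : ℂ) := by
    intro l
    rw [map_mul, MvPolynomial.map_C, map_prod, map_mul, MvPolynomial.eval_C, map_prod]
    simp only [MvPolynomial.map_X, MvPolynomial.eval_X]
    have h2 : (evP x) ((((m.factorial : ℂ) *
        ((m - m).factorial : ℂ))⁻¹) • (⟨cofP f (m - m) l, cofP_mem hf _ _⟩ : CP n)) =
        ((m.factorial : ℂ) * ((m - m).factorial : ℂ))⁻¹ * cofP f (m - m) l x := rfl
    rw [h2, Nat.sub_self, Nat.factorial_zero, Nat.cast_one, mul_one, mul_assoc, tsum_mul_right]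
    rfl
  rw [Finset.sum_congr rfl fun l _ => h1 l, ← Finset.mul_sum]
  congr 1
  rw [← Summable.tsum_finsetSum fun l _ => (cofP_summable hf 0 l x).mul_right _]
  refine tsum_congr fun ab => ?_
  have h3 : (-∑ j, (ab.2 j : ℂ) * (t j : ℂ)) ^ m =
      ∑ l : Fin m → Fin n, ∏ s, (-(ab.2 (l s) : ℂ) * (t (l s) : ℂ)) := by
    rw [← Fintype.sum_pow (fun j : Fin n => (-(ab.2 j : ℂ) * (t j : ℂ))) m]
    congr 1
    rw [← Finset.sum_neg_distrib]
    exact Finset.sum_congr rfl fun j _ => by ring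
  rw [h3, Finset.mul_sum]
  refine Finset.sum_congr rfl fun l _ => ?_
  rw [Finset.prod_mul_distrib]
  ring

theorem symW_top {n : ℕ} {f : ℕ → Ph n → ℂ} (hf : ∀ j, IsSm (f j)) (w : ℕ) :
    MvPolynomial.homogeneousComponent w (symW f hf w) =
      MvPolynomial.homogeneousComponent w (sym (f 0) (hf 0) w) := by
  rw [symW, map_sum, Finset.sum_range_succ', Finset.sum_eq_zero, zero_add]
  · rfl
  · intro j hj
    rw [Finset.mem_range] at hj
    refine MvPolynomial.homogeneousComponent_eq_zero _ _ ?_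
    have := sym_deg (hf (j + 1)) (w - (j + 1))
    omega

end H72BT
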