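import Pool.Agent.H72.BT.Four

/-!
BT-23. Derivatives in `ξ` of the Fourier series along a line.

Proof. Fix `x, t`. By `fc_hasSum`, `(p (x, s•t) : ℂ) = ∑'_ab fc f a b * ea a x * exp(2πi s b·t)` for all
real `s` (`EE a b (x, s•t)` factorises). The `w`-th derivative in `s` of a term is
`fc ea a x (2πi b·t)^w exp(2πi s b·t)`, with norm `≤ ‖fc‖ (C(1+‖ab‖))^w`, summable by `fc_summable`; so by
`iteratedDeriv_tsum` (or `hasDerivAt_tsum` and induction on `w`)
`iteratedDeriv w (fun s => (p (x, s•t) : ℂ)) 0 = ∑' fc ea a x (2πi b·t)^w`. The derivative of the real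
function is the real part: `iteratedDeriv w (fun s => ((g s : ℝ) : ℂ)) = ((iteratedDeriv w g : ℝ) : ℂ)`
for smooth `g` (induction; `HasDerivAt.ofReal_comp`). Multiply by `nu^w`:
`nu * 2πi = -1`.
-/

set_option autoImplicit false

open MeasureTheory Complex
open scoped ContDiff ComplexConjugate

noncomputable section

namespace H72BT

open H99.EQ

/-- `2πi b·t` -/
def topLam {n : ℕ} (t : V n) (b : Fin n → ℤ) : ℂ :=
  2 * Real.pi * I * ∑ j, (b j : ℂ) * (t j : ℂ)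

theorem topLam_eq {n : ℕ} (t : V n) (b : Fin n → ℤ) :
    topLam t b = ((2 * Real.pi * ∑ j, (b j : ℝ) * t j : ℝ) : ℂ) * I := by
  unfold topLam
  push_cast
  ring

theorem topLam_exp_norm {n : ℕ} (t : V n) (b : Fin n → ℤ) (s : ℝ) :
    ‖exp ((s : ℂ) * topLam t b)‖ = 1 := by
  rw [topLam_eq, ← mul_assoc, ← Complex.ofReal_mul, Complex.norm_exp_ofReal_mul_I]

theorem topLam_norm_le {n : ℕ} (t : V n) (ab : (Fin n → ℤ) × (Fin n → ℤ)) :
    ‖topLam t ab.2‖ ≤ (2 * Real.pi * ∑ j, |t j|) * (1 + ‖ab‖) := by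
  have hpi := Real.pi_pos
  have h2pi : (0 : ℝ) < 2 * Real.pi := by positivity
  rw [topLam_eq, norm_mul, Complex.norm_I, mul_one, Complex.norm_real, Real.norm_eq_abs, abs_mul,
    abs_of_pos h2pi, mul_assoc (2 * Real.pi) (∑ j, |t j|)]
  refine mul_le_mul_of_nonneg_left ?_ h2pi.le
  rw [Finset.sum_mul]
  refine (Finset.abs_sum_le_sum_abs _ _).trans (Finset.sum_le_sum fun j _ => ?_)
  rw [abs_mul, mul_comm]
  refine mul_le_mul_of_nonneg_left ?_ (abs_nonneg _)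
  have h1 : ‖ab.2 j‖ ≤ ‖ab.2‖ := norm_le_pi_norm ab.2 j
  have h2 : ‖ab.2‖ ≤ ‖ab‖ := norm_snd_le ab
  have h3 : ‖ab.2 j‖ = |(ab.2 j : ℝ)| := Int.norm_eq_abs _
  linarith

/-- the `w`-th derivative of the Fourier series along the line -/
def topD {n : ℕ} (f : Ph n → ℂ) (x t : V n) (w : ℕ) (s : ℝ) : ℂ :=
  ∑' ab : (Fin n → ℤ) × (Fin n → ℤ), fc f ab.1 ab.2 * ea ab.1 x * topLam t ab.2 ^ w *
    exp ((s : ℂ) * topLam t ab.2)

theorem topEa_norm {n : ℕ} (a : Fin n → ℤ) (x : V n) : ‖ea a x‖ = 1 := by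
  unfold ea
  have : (2 * Real.pi * I * ∑ j, (a j : ℂ) * (x j : ℂ)) =
      ((2 * Real.pi * ∑ j, (a j : ℝ) * x j : ℝ) : ℂ) * I := by
    push_cast
    ring
  rw [this, Complex.norm_exp_ofReal_mul_I]

theorem topTerm_norm {n : ℕ} (f : Ph n → ℂ) (x t : V n) (w : ℕ) (s : ℝ)
    (ab : (Fin n → ℤ) × (Fin n → ℤ)) :
    ‖fc f ab.1 ab.2 * ea ab.1 x * topLam t ab.2 ^ w * exp ((s : ℂ) * topLam t ab.2)‖ ≤
      (2 * Real.pi * ∑ j, |t j|) ^ w * (‖fc f ab.1 ab.2‖ * (1 + ‖ab‖) ^ w) := by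
  rw [norm_mul, norm_mul, norm_mul, topLam_exp_norm, topEa_norm, mul_one, mul_one, norm_pow,
    ← mul_assoc, mul_comm _ ‖fc f ab.1 ab.2‖, mul_assoc, ← mul_pow]
  refine mul_le_mul_of_nonneg_left ?_ (norm_nonneg _)
  exact pow_le_pow_left₀ (norm_nonneg _) (topLam_norm_le t ab) w

theorem topD_summable {n : ℕ} {f : Ph n → ℂ} (hf : IsSm f) (x t : V n) (w : ℕ) (s : ℝ) :
    Summable fun ab : (Fin n → ℤ) × (Fin n → ℤ) => fc f ab.1 ab.2 * ea ab.1 x *
      topLam t ab.2 ^ w * exp ((s : ℂ) * topLam t ab.2) :=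
  Summable.of_norm_bounded ((fc_summable hf w).mul_left _) (topTerm_norm f x t w s)

theorem topD_hasDerivAt {n : ℕ} {f : Ph n → ℂ} (hf : IsSm f) (x t : V n) (w : ℕ) (s : ℝ) :
    HasDerivAt (topD f x t w) (topD f x t (w + 1) s) s := by
  have hu := (fc_summable hf (w + 1)).mul_left ((2 * Real.pi * ∑ j, |t j|) ^ (w + 1))
  refine hasDerivAt_tsum (g := fun (ab : (Fin n → ℤ) × (Fin n → ℤ)) (s : ℝ) =>
      fc f ab.1 ab.2 * ea ab.1 x * topLam t ab.2 ^ w * exp ((s : ℂ) * topLam t ab.2))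
    (g' := fun (ab : (Fin n → ℤ) × (Fin n → ℤ)) (s : ℝ) =>
      fc f ab.1 ab.2 * ea ab.1 x * topLam t ab.2 ^ (w + 1) * exp ((s : ℂ) * topLam t ab.2))
    hu (fun ab s => ?_) (fun ab s => topTerm_norm f x t (w + 1) s ab)
    (y₀ := (0 : ℝ)) (topD_summable hf x t w 0) s
  have h1 : HasDerivAt (fun s : ℝ => (s : ℂ) * topLam t ab.2) (topLam t ab.2) s := by
    simpa using (Complex.ofRealCLM.hasDerivAt (x := s)).mul_const (topLam t ab.2)
  have h2 := (h1.cexp).const_mul (fc f ab.1 ab.2 * ea ab.1 x * topLam t ab.2 ^ w)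
  have h3 : fc f ab.1 ab.2 * ea ab.1 x * topLam t ab.2 ^ (w + 1) *
      exp ((s : ℂ) * topLam t ab.2) = fc f ab.1 ab.2 * ea ab.1 x * topLam t ab.2 ^ w *
      (exp ((s : ℂ) * topLam t ab.2) * topLam t ab.2) := by ring
  rw [← h3] at h2
  exact h2

theorem topD_zero {n : ℕ} {f : Ph n → ℂ} (hf : IsSm f) (x t : V n) (s : ℝ) :
    topD f x t 0 s = f (x, s • t) := by
  have h := (fc_hasSum hf (x, s • t)).tsum_eq
  rw [← h]
  unfold topD
  refine tsum_congr fun ab => ?_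
  rw [pow_zero, mul_one, mul_assoc]
  congr 1
  unfold ea EE topLam
  rw [← Complex.exp_add]
  congr 1
  simp only [Pi.smul_apply, smul_eq_mul, Complex.ofReal_mul, Finset.sum_add_distrib, mul_add,
    Finset.mul_sum]
  congr 1
  refine Finset.sum_congr rfl fun j _ => ?_
  ring

theorem topD_iterated {n : ℕ} {f : Ph n → ℂ} (hf : IsSm f) {p : Ph n → ℝ}
    (hp : ∀ q, f q = (p q : ℂ)) (x t : V n) (w : ℕ) :
    ∀ s : ℝ, ((iteratedDeriv w (fun s : ℝ => p (x, s • t)) s : ℝ) : ℂ) = topD f x t w s := by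
  induction w with
  | zero =>
    intro s
    rw [topD_zero hf, hp, iteratedDeriv_zero]
  | succ w ih =>
    intro s
    have h0 : topD f x t w = fun s => ((iteratedDeriv w (fun s : ℝ => p (x, s • t)) s : ℝ) : ℂ) :=
      funext fun s => (ih s).symm
    have h1 := topD_hasDerivAt hf x t w s
    have h2 : HasDerivAt (iteratedDeriv w (fun s : ℝ => p (x, s • t)))
        (topD f x t (w + 1) s).re s := by
      have h3 := (Complex.reCLM.hasFDerivAt (x := topD f x t w s)).comp_hasDerivAt s h1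
      have h4 : (Complex.reCLM : ℂ → ℝ) ∘ topD f x t w =
          iteratedDeriv w (fun s : ℝ => p (x, s • t)) := by
        funext s
        rw [h0]
        simp
      rw [h4] at h3
      exact h3
    have h5 := h2.ofReal_comp
    rw [h0] at h1
    have h6 := h1.unique h5
    rw [h6, iteratedDeriv_succ, h2.deriv]

theorem top_deriv {n : ℕ} {f : Ph n → ℂ} (hf : IsSm f) {p : Ph n → ℝ}
    (hp : ∀ q, f q = (p q : ℂ)) (w : ℕ) (x t : V n) :
    nu ^ w * ((w.factorial : ℂ)⁻¹ *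
      ((iteratedDeriv w (fun s : ℝ => p (x, s • t)) 0 : ℝ) : ℂ)) =
      (w.factorial : ℂ)⁻¹ * ∑' ab : (Fin n → ℤ) × (Fin n → ℤ), fc f ab.1 ab.2 * ea ab.1 x *
        (-∑ j, (ab.2 j : ℂ) * (t j : ℂ)) ^ w := by
  rw [topD_iterated hf hp x t w 0, mul_left_comm]
  congr 1
  unfold topD
  rw [← tsum_mul_left]
  refine tsum_congr fun ab => ?_
  have hpi : (Real.pi : ℂ) ≠ 0 := by exact_mod_cast Real.pi_ne_zero
  have h1 : (-∑ j, (ab.2 j : ℂ) * (t j : ℂ)) = nu * topLam t ab.2 := by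
    unfold nu topLam
    field_simp
    rw [Complex.I_sq]
    ring
  rw [h1, mul_pow, Complex.ofReal_zero, zero_mul, Complex.exp_zero, mul_one]
  ring

end H72BT
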