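import Pool.Agent.H72.BT.CommG
import Pool.Agent.H72.BT.SymC
import Pool.Agent.H72.BT.TopD
import Pool.Agent.H72.BT.BTa

/-!
BT-28. The graded symbols of commuting Berezin-Toeplitz operators.

Proof. `bt_asym` for every `j` (choose), `σ j w = symW (f j) (hf j) w`; `symW_deg`; `symW_top`,
`sym_top`, `top_deriv`; `comm_graded`.
-/

set_option autoImplicit false

open MeasureTheory Complex
open scoped ContDiff ComplexConjugate

noncomputable section

namespace H72BT

open H99.EQ

theorem symbols_core {n : ℕ} {p : Fin n → Ph n → ℝ} (h : IsQuantised p) :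
    ∃ σ : Fin n → ℕ → MvPolynomial (Fin n) (CP n),
      (∀ j w, (σ j w).totalDegree ≤ w) ∧
      (∀ (j : Fin n) (w : ℕ) (x t : V n),
        MvPolynomial.eval (fun i => (t i : ℂ))
          (MvPolynomial.map (evP x) (MvPolynomial.homogeneousComponent w (σ j w))) =
            nu ^ w * ((w.factorial : ℂ)⁻¹ *
              ((iteratedDeriv w (fun s : ℝ => p j (x, s • t)) 0 : ℝ) : ℂ))) ∧
      (∀ i j W, ∑ vw ∈ Finset.HasAntidiagonal.antidiagonal W,
        (opS pdx (σ i vw.1) * opS pdx (σ j vw.2) - opS pdx (σ j vw.2) * opS pdx (σ i vw.1)) =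
          0) := by
  obtain ⟨P, h1, -, h3⟩ := h
  choose f hf hf0 hA using fun j => bt_asym (h1 j)
  refine ⟨fun j w => symW (f j) (hf j) w, fun j w => symW_deg _ w, fun j w x t => ?_,
    fun i j W => ?_⟩
  · rw [symW_top, sym_top, top_deriv (hf j 0) (hf0 j)]
  · exact comm_graded (hf i) (hf j) (hA i) (hA j) (fun k hk s => h3 i j k hk s) W

end H72BT
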