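import Pool.Agent.H72.BT.Ops

/-!
BT-3b. Unfolding of a Gaussian integral.

Proof. `-πk(x-m-j/k)² - πk(x-m-(j+b)/k)² = -2πk(x-m-(2j+b)/(2k))² - πb²/(2k)`, and
`e^{2πiax} = e^{2πia(x-m)}`. Put `g(y) = e^{2πiay} e^{-2πk(y-(2j+b)/(2k))²}`, an integrable function on
`ℝ`. The integral is `e^{-πb²/(2k)} ∫_0^1 ∑_m g(x-m) dx = e^{-πb²/(2k)} ∫_ℝ g` (unfolding: `ℝ` is
the disjoint union of the intervals `(m, m+1]`: `MeasureTheory.hasSum_integral_iUnion` /
`integral_tsum` / `Real.fourierCoeff_tsum_comp_add`; termwise integration is justified by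
`∑_m ∫_0^1 |g(x-m)| dx = ∫_ℝ |g| < ∞`), and by `fourierIntegral_gaussian`
(or `integral_cexp_quadratic`) after the translation `y ↦ y + (2j+b)/(2k)`
`∫_ℝ g = e^{2πia(2j+b)/(2k)} (2k)^{-1/2} e^{-πa²/(2k)}`
(`(π/(2πk))^{1/2} = (2k)^{-1/2}`, `(2πa)²/(4·2πk) = πa²/(2k)`).
-/

set_option autoImplicit false

open MeasureTheory Complex
open scoped ContDiff ComplexConjugate

noncomputable section

namespace H72BT

open H99.EQ

theorem oneMelB_unfold {g : ℝ → ℂ} (hg : Integrable g) :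
    ∫ x in (0 : ℝ)..1, ∑' m : ℤ, g (x + m) = ∫ x, g x := by
  have h1 := hg.hasSum_intervalIntegral_comp_add_int
  have h2 := hg.norm.hasSum_intervalIntegral_comp_add_int
  rw [intervalIntegral.integral_of_le zero_le_one, ← h1.tsum_eq,
    ← integral_tsum_of_summable_integral_norm]
  · refine tsum_congr fun n => ?_
    rw [intervalIntegral.integral_of_le zero_le_one]
  · intro n
    exact (hg.comp_add_right (n : ℝ)).integrableOn
  · refine h2.summable.congr fun n => ?_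
    rw [intervalIntegral.integral_of_le zero_le_one]

theorem gauss_unfold {k : ℕ} (hk : 1 ≤ k) (a b j : ℤ) :
    ∫ x in (0 : ℝ)..1, exp (2 * Real.pi * I * ((a : ℂ) * (x : ℂ))) *
      ∑' m : ℤ, exp (-(Real.pi * k * ((x : ℂ) - m - (j : ℂ) / k) ^ 2) -
        Real.pi * k * ((x : ℂ) - m - ((j : ℂ) + b) / k) ^ 2) =
      (((Real.sqrt (2 * k))⁻¹ : ℝ) : ℂ) *
        exp (-(Real.pi / 2) * ((a : ℂ) ^ 2 + (b : ℂ) ^ 2) / k) *
        exp (2 * Real.pi * I * ((a : ℂ) * (2 * (j : ℂ) + b) / (2 * k))) := by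
  have hk0 : (0 : ℝ) < (k : ℝ) := by exact_mod_cast hk
  have hkc : (k : ℂ) ≠ 0 := by
    have : k ≠ 0 := by omega
    exact_mod_cast this
  set b' : ℂ := -(2 * Real.pi * k) with hb'
  set c : ℂ := 2 * Real.pi * I * a + 2 * Real.pi * (2 * j + b) with hc
  set d : ℂ := -(Real.pi * (j : ℂ) ^ 2 / k) - Real.pi * ((j : ℂ) + b) ^ 2 / k with hd
  set g : ℝ → ℂ := fun y => exp (b' * (y : ℂ) ^ 2 + c * (y : ℂ) + d) with hg
  have hbre : b'.re < 0 := by
    have e : b' = ((-(2 * Real.pi * k) : ℝ) : ℂ) := by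
      rw [hb']
      push_cast
      ring
    rw [e, Complex.ofReal_re]
    have := Real.pi_pos
    have : 0 < 2 * Real.pi * k := by positivity
    linarith
  have hgi : Integrable g := integrable_cexp_quadratic' hbre c d
  have key : ∀ x : ℝ, exp (2 * Real.pi * I * ((a : ℂ) * (x : ℂ))) *
      ∑' m : ℤ, exp (-(Real.pi * k * ((x : ℂ) - m - (j : ℂ) / k) ^ 2) -
        Real.pi * k * ((x : ℂ) - m - ((j : ℂ) + b) / k) ^ 2) = ∑' m : ℤ, g (x + m) := by
    intro x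
    rw [← tsum_mul_left, ← (Equiv.neg ℤ).tsum_eq (fun m : ℤ => g (x + m))]
    refine tsum_congr fun m => ?_
    rw [← Complex.exp_add]
    simp only [hg, Equiv.neg_apply]
    rw [Complex.exp_eq_exp_iff_exists_int]
    refine ⟨a * m, ?_⟩
    rw [hb', hc, hd]
    push_cast
    field_simp
    ring
  rw [intervalIntegral.integral_congr (fun x _ => key x), oneMelB_unfold hgi]
  simp only [hg]
  rw [integral_cexp_quadratic hbre c d]
  have e1 : ((Real.pi : ℂ) / -b') ^ (1 / 2 : ℂ) = (((Real.sqrt (2 * k))⁻¹ : ℝ) : ℂ) := by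
    have e2 : (Real.pi : ℂ) / -b' = (((2 * k : ℝ)⁻¹ : ℝ) : ℂ) := by
      rw [hb']
      push_cast
      have hpi : (Real.pi : ℂ) ≠ 0 := by exact_mod_cast Real.pi_ne_zero
      field_simp
    have e3 : (1 / 2 : ℂ) = ((1 / 2 : ℝ) : ℂ) := by
      push_cast
      ring
    rw [e2, e3, ← Complex.ofReal_cpow (by positivity), ← Real.sqrt_eq_rpow, Real.sqrt_inv]
  rw [e1, mul_assoc, ← Complex.exp_add]
  congr 2
  rw [hb', hc, hd]
  have hpi : (Real.pi : ℂ) ≠ 0 := by exact_mod_cast Real.pi_ne_zero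
  have hI : (2 * (Real.pi : ℂ) * I * a + 2 * Real.pi * (2 * j + b)) ^ 2 =
      4 * (Real.pi : ℂ) ^ 2 * (-(a : ℂ) ^ 2 + 2 * I * a * (2 * j + b) + (2 * j + b) ^ 2) := by
    ring_nf
    rw [I_sq]
    ring
  rw [hI]
  field_simp
  ring

end H72BT
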