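import Pool.Agent.H72.BT.OneMelA
import Pool.Agent.H72.BT.OneMelB

/-!
BT-3. Matrix elements of exponentials between one-dimensional theta functions.

Proof. `Set.Icc (0 : ℝ × ℝ) 1 = Set.Icc 0 1 ×ˢ Set.Icc 0 1` (`Set.Icc_prod_eq`); the integrand is
continuous (`th` is continuous in `(x,ξ)` by `th_eq`, `Th_diff`), so by `setIntegral_prod` the
integral is `∫ x, ∫ ξ` (convert `Icc` integrals to interval integrals,
`integral_Icc_eq_integral_Ioc`, `intervalIntegral.integral_of_le`). The inner integral is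
`e^{2πiax}` times `th_mel_xi` (`exp (2πi(ax+bξ)) = exp(2πiax) exp(2πibξ)`), the outer one is
`gauss_unfold`. Finally, if `l = j+b-kr`,
`e^{-πiab/k} e^{2πial/k} = e^{2πia(2j+b)/(2k)} e^{-2πiar}` and `e^{-2πiar} = 1`
(`Complex.exp_int_mul_two_pi_mul_I`).
-/

set_option autoImplicit false

open MeasureTheory Complex
open scoped ContDiff ComplexConjugate

noncomputable section

namespace H72BT

open H99.EQ

theorem OneMel_cont {k : ℕ} (hk : 1 ≤ k) (l : ℤ) :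
    Continuous fun y : ℝ × ℝ => th k l y.1 y.2 := by
  have h : (fun y : ℝ × ℝ => th k l y.1 y.2) = fun y : ℝ × ℝ =>
      exp (-(Real.pi * k * (y.1 : ℂ) ^ 2)) * Th k l ((y.1 : ℂ) + (y.2 : ℂ) * I) := by
    funext y
    exact th_eq hk l y.1 y.2
  rw [h]
  have h1 : Continuous (Th k l) := (Th_diff hk l).continuous
  have h2 : Continuous fun y : ℝ × ℝ => ((y.1 : ℂ) + (y.2 : ℂ) * I) := by fun_prop
  have h3 : Continuous fun y : ℝ × ℝ => exp (-(Real.pi * k * (y.1 : ℂ) ^ 2)) := by fun_prop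
  exact h3.mul (h1.comp h2)

theorem OneMel_fubini (F : ℝ × ℝ → ℂ) (hF : Continuous F) :
    ∫ y in Set.Icc (0 : ℝ × ℝ) 1, F y = ∫ x in (0 : ℝ)..1, ∫ ξ in (0 : ℝ)..1, F (x, ξ) := by
  have h1 : IntegrableOn F (Set.Icc (0 : ℝ × ℝ) 1) := hF.integrableOn_Icc
  have h2 : Set.Icc (0 : ℝ × ℝ) 1 = Set.Icc (0 : ℝ) 1 ×ˢ Set.Icc (0 : ℝ) 1 := by
    rw [Set.Icc_prod_eq]
    rfl
  rw [h2] at h1 ⊢
  rw [Measure.volume_eq_prod] at h1 ⊢
  rw [setIntegral_prod F h1, integral_Icc_eq_integral_Ioc,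
    intervalIntegral.integral_of_le zero_le_one]
  refine integral_congr_ae (Filter.Eventually.of_forall fun x => ?_)
  show ∫ ξ in Set.Icc (0 : ℝ) 1, F (x, ξ) = ∫ ξ in (0 : ℝ)..1, F (x, ξ)
  rw [integral_Icc_eq_integral_Ioc, intervalIntegral.integral_of_le zero_le_one]

theorem OneMel_const {k : ℕ} (hk : 1 ≤ k) (a b j l : ℤ) (h : (k : ℤ) ∣ j + b - l) :
    exp (-(Real.pi / 2) * ((a : ℂ) ^ 2 + (b : ℂ) ^ 2) / k) *
        exp (2 * Real.pi * I * ((a : ℂ) * (2 * (j : ℂ) + b) / (2 * k))) =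
      exp ((-(Real.pi / 2) * ((a : ℂ) ^ 2 + (b : ℂ) ^ 2) - Real.pi * I * ((a : ℂ) * b)) / k) *
          exp (2 * Real.pi * I * ((a : ℂ) * ((l : ℂ) / k))) := by
  obtain ⟨r, hr⟩ := h
  have hk0 : (k : ℂ) ≠ 0 := by
    have : k ≠ 0 := by omega
    exact_mod_cast this
  have hr' : (l : ℂ) = (j : ℂ) + b - k * r := by
    have h1 : l = j + b - k * r := by linarith
    rw [h1]
    push_cast
    ring
  have h2 : exp (((a * r : ℤ) : ℂ) * (2 * Real.pi * I)) = 1 := exp_int_mul_two_pi_mul_I _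
  rw [← exp_add, ← exp_add, ← mul_one (exp ((-(Real.pi / 2) * ((a : ℂ) ^ 2 + (b : ℂ) ^ 2) -
    Real.pi * I * ((a : ℂ) * b)) / k + 2 * Real.pi * I * ((a : ℂ) * ((l : ℂ) / k)))), ← h2,
    ← exp_add]
  congr 1
  rw [hr']
  push_cast
  field_simp
  ring

theorem th_mel {k : ℕ} (hk : 1 ≤ k) (a b j l : ℤ) :
    ∫ y in Set.Icc (0 : ℝ × ℝ) 1,
      exp (2 * Real.pi * I * ((a : ℂ) * (y.1 : ℂ) + (b : ℂ) * (y.2 : ℂ))) *
        th k j y.1 y.2 * conj (th k l y.1 y.2) =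
      if (k : ℤ) ∣ j + b - l then
        (((Real.sqrt (2 * k))⁻¹ : ℝ) : ℂ) *
          exp ((-(Real.pi / 2) * ((a : ℂ) ^ 2 + (b : ℂ) ^ 2) - Real.pi * I * ((a : ℂ) * b)) / k) *
          exp (2 * Real.pi * I * ((a : ℂ) * ((l : ℂ) / k)))
      else 0 := by
  rw [OneMel_fubini _ (by
    have h1 : Continuous fun y : ℝ × ℝ =>
        exp (2 * Real.pi * I * ((a : ℂ) * (y.1 : ℂ) + (b : ℂ) * (y.2 : ℂ))) := by fun_prop
    exact (h1.mul (OneMel_cont hk j)).mul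
      (Complex.continuous_conj.comp (OneMel_cont hk l)))]
  have h2 : ∀ x : ℝ, ∫ ξ in (0 : ℝ)..1,
      exp (2 * Real.pi * I * ((a : ℂ) * (x : ℂ) + (b : ℂ) * (ξ : ℂ))) *
        th k j x ξ * conj (th k l x ξ) = exp (2 * Real.pi * I * ((a : ℂ) * (x : ℂ))) *
      if (k : ℤ) ∣ j + b - l then
        ∑' m : ℤ, exp (-(Real.pi * k * ((x : ℂ) - m - (j : ℂ) / k) ^ 2) -
          Real.pi * k * ((x : ℂ) - m - ((j : ℂ) + b) / k) ^ 2)
      else 0 := by
    intro x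
    rw [← th_mel_xi hk b j l x, ← intervalIntegral.integral_const_mul]
    refine intervalIntegral.integral_congr fun ξ _ => ?_
    show exp (2 * Real.pi * I * ((a : ℂ) * (x : ℂ) + (b : ℂ) * (ξ : ℂ))) *
        th k j x ξ * conj (th k l x ξ) = exp (2 * Real.pi * I * ((a : ℂ) * (x : ℂ))) *
          (exp (2 * Real.pi * I * ((b : ℂ) * (ξ : ℂ))) * (th k j x ξ * conj (th k l x ξ)))
    rw [mul_add, exp_add]
    ring
  rw [intervalIntegral.integral_congr (g := fun x : ℝ => exp (2 * Real.pi * I * ((a : ℂ) * (x : ℂ))) *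
      if (k : ℤ) ∣ j + b - l then
        ∑' m : ℤ, exp (-(Real.pi * k * ((x : ℂ) - m - (j : ℂ) / k) ^ 2) -
          Real.pi * k * ((x : ℂ) - m - ((j : ℂ) + b) / k) ^ 2)
      else 0) fun x _ => h2 x]
  by_cases h : (k : ℤ) ∣ j + b - l
  · simp only [if_pos h]
    rw [gauss_unfold hk a b j, mul_assoc, OneMel_const hk a b j l h, ← mul_assoc]
  · simp only [if_neg h, mul_zero, intervalIntegral.integral_zero]

end H72BT
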