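import Pool.Agent.H72.BT.Ops

/-!
BT-4. Integral of a product function over the cube of phase space.

Proof. Under the measure preserving equivalence `MeasurableEquiv.arrowProdEquivProdArrow ℝ ℝ (Fin n)`
between `Fin n → ℝ × ℝ` and `(Fin n → ℝ) × (Fin n → ℝ)`
(`volume_measurePreserving_arrowProdEquivProdArrow`) the preimage of `cube n = Icc 0 1` is
`Set.univ.pi (fun _ => Set.Icc (0 : ℝ × ℝ) 1)`; then `MeasureTheory.Measure.restrict_pi_pi` and
`MeasureTheory.integral_fintype_prod_eq_prod` (no integrability needed). Second statement: the same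
with `Set.Icc (0 : Fin n → ℝ) 1 = Set.univ.pi (fun _ => Set.Icc 0 1)` (`Set.pi_univ_Icc`) and
`intervalIntegral.integral_of_le`, `integral_Icc_eq_integral_Ioc`.
-/

set_option autoImplicit false

open MeasureTheory Complex
open scoped ContDiff ComplexConjugate

noncomputable section

namespace H72BT

open H99.EQ

theorem integral_prod_cube {n : ℕ} (F : Fin n → ℝ × ℝ → ℂ) :
    ∫ q in cube n, ∏ i, F i (q.1 i, q.2 i) = ∏ i, ∫ y in Set.Icc (0 : ℝ × ℝ) 1, F i y := by
  have hmp := volume_measurePreserving_arrowProdEquivProdArrow ℝ ℝ (Fin n)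
  rw [← hmp.setIntegral_preimage_emb
    (MeasurableEquiv.arrowProdEquivProdArrow ℝ ℝ (Fin n)).measurableEmbedding]
  have hpre : (MeasurableEquiv.arrowProdEquivProdArrow ℝ ℝ (Fin n)) ⁻¹' cube n
      = Set.univ.pi (fun _ => Set.Icc (0 : ℝ × ℝ) 1) := by
    ext f
    simp only [Set.mem_preimage, cube, Set.mem_Icc, Set.mem_pi, Set.mem_univ, true_implies,
      Prod.le_def, Pi.le_def]
    constructor
    · rintro ⟨⟨h1, h2⟩, h3, h4⟩ i
      exact ⟨⟨h1 i, h2 i⟩, h3 i, h4 i⟩
    · intro h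
      exact ⟨⟨fun i => (h i).1.1, fun i => (h i).1.2⟩, fun i => (h i).2.1, fun i => (h i).2.2⟩
  rw [hpre, volume_pi, Measure.restrict_pi_pi]
  exact integral_fintype_prod_eq_prod (μ := fun _ => (volume : Measure (ℝ × ℝ)).restrict
    (Set.Icc 0 1)) F

theorem integral_prod_cube_one {n : ℕ} (F : Fin n → ℝ → ℂ) :
    ∫ x in Set.Icc (0 : V n) 1, ∏ i, F i (x i) = ∏ i, ∫ y in (0 : ℝ)..1, F i y := by
  have hpre : Set.Icc (0 : V n) 1 = Set.univ.pi (fun _ => Set.Icc (0 : ℝ) 1) := by
    rw [← Set.pi_univ_Icc]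
    rfl
  rw [hpre, volume_pi, Measure.restrict_pi_pi]
  have h1 := integral_fintype_prod_eq_prod (μ := fun _ : Fin n => (volume : Measure ℝ).restrict
    (Set.Icc 0 1)) F
  rw [h1]
  refine Finset.prod_congr rfl (fun i _ => ?_)
  rw [intervalIntegral.integral_of_le zero_le_one, integral_Icc_eq_integral_Ioc]

end H72BT
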