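import Pool.Agent.H72.BT.Bas
import Pool.Agent.H72.BT.OneMel
import Pool.Agent.H72.BT.ProdI

/-!
BT-6. Matrix elements of the exponentials `EE a b` in the basis `eb k l`.

Proof. `EE a b q * eb k j q * conj (eb k l q)` is the product over the coordinates `i` of
`exp(2πi(a_i x_i + b_i ξ_i)) th k (j i) x_i ξ_i conj(th k (l i) x_i ξ_i)` (`Complex.exp_sum`,
`Finset.mul_sum`, `Finset.prod_mul_distrib`, `map_prod`). By `integral_prod_cube` the integral is the
product of the integrals of `th_mel`. If for some `i` `k ∤ j_i + b_i - l_i` the product vanishes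
(`Finset.prod_eq_zero`); otherwise it is `∏ ((√(2k))⁻¹ * exp(..) * exp(..))` and
`∏ (√(2k))⁻¹ = (sc n k)⁻¹`, `Complex.exp_sum` backwards (`lam`, `sq`, `dt`, `ea`, `gp` unfolded,
`Finset.sum_div`, `push_cast`). `ip_eb` is the special case `a = b = 0`
(`EE 0 0 = 1`, `lam 0 0 = 0`, `ea 0 = 1`).
-/

set_option autoImplicit false

open MeasureTheory Complex
open scoped ContDiff ComplexConjugate

noncomputable section

namespace H72BT

open H99.EQ

theorem mel_EE {n k : ℕ} (hk : 1 ≤ k) (a b j l : Fin n → ℤ) :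
    ip (fun q => EE a b q * eb k j q) (eb k l) =
      if (∀ i, (k : ℤ) ∣ j i + b i - l i) then
        (sc n k : ℂ)⁻¹ * exp (lam a b / k) * ea a (gp k l) else 0 := by
  let F : Fin n → ℝ × ℝ → ℂ := fun i y =>
        exp (2 * Real.pi * I * ((a i : ℂ) * (y.1 : ℂ) + (b i : ℂ) * (y.2 : ℂ))) *
          th k (j i) y.1 y.2 * conj (th k (l i) y.1 y.2)
  have h1 : ip (fun q => EE a b q * eb k j q) (eb k l) =
      ∫ q in cube n, ∏ i, F i (q.1 i, q.2 i) := by
    unfold ip
    congr 1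
    funext q
    change EE a b q * eb k j q * (starRingEnd ℂ) (eb k l q) = ∏ i, F i (q.1 i, q.2 i)
    unfold EE eb
    rw [Finset.mul_sum, Complex.exp_sum, map_prod, ← Finset.prod_mul_distrib,
      ← Finset.prod_mul_distrib]
  refine h1.trans ((integral_prod_cube F).trans ?_)
  change ∏ i, ∫ y in Set.Icc (0 : ℝ × ℝ) 1,
      (exp (2 * Real.pi * I * ((a i : ℂ) * (y.1 : ℂ) + (b i : ℂ) * (y.2 : ℂ))) *
          th k (j i) y.1 y.2 * conj (th k (l i) y.1 y.2)) = _
  have h2 : ∀ i : Fin n, ∫ y in Set.Icc (0 : ℝ × ℝ) 1,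
      (exp (2 * Real.pi * I * ((a i : ℂ) * (y.1 : ℂ) + (b i : ℂ) * (y.2 : ℂ))) *
          th k (j i) y.1 y.2 * conj (th k (l i) y.1 y.2)) =
      if (k : ℤ) ∣ j i + b i - l i then
        (((Real.sqrt (2 * k))⁻¹ : ℝ) : ℂ) *
          exp ((-(Real.pi / 2) * ((a i : ℂ) ^ 2 + (b i : ℂ) ^ 2)
            - Real.pi * I * ((a i : ℂ) * b i)) / k) *
          exp (2 * Real.pi * I * ((a i : ℂ) * ((l i : ℂ) / k)))
      else 0 := fun i => th_mel hk (a i) (b i) (j i) (l i)
  rw [Finset.prod_congr rfl fun i _ => h2 i]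
  by_cases hd : ∀ i, (k : ℤ) ∣ j i + b i - l i
  · rw [if_pos hd, Finset.prod_congr rfl fun i _ => if_pos (hd i), Finset.prod_mul_distrib,
      Finset.prod_mul_distrib, ← Complex.exp_sum, ← Complex.exp_sum]
    congr 1
    · congr 1
      · rw [Finset.prod_const, Finset.card_univ, Fintype.card_fin]
        unfold sc
        push_cast
        rw [inv_pow]
      · congr 1
        unfold lam H99.EQ.sq dt
        rw [← Finset.sum_div]
        congr 1
        push_cast
        rw [Finset.mul_sum, Finset.mul_sum, ← Finset.sum_sub_distrib]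
    · unfold ea gp
      congr 1
      rw [Finset.mul_sum]
      push_cast
      rfl
  · rw [if_neg hd]
    push Not at hd
    obtain ⟨i, hi⟩ := hd
    exact Finset.prod_eq_zero (Finset.mem_univ i) (if_neg hi)

theorem ip_eb {n k : ℕ} (hk : 1 ≤ k) (j l : Fin n → ℤ) :
    ip (eb k j : Ph n → ℂ) (eb k l) =
      if (∀ i, (k : ℤ) ∣ j i - l i) then (sc n k : ℂ)⁻¹ else 0 := by
  have h := mel_EE hk (0 : Fin n → ℤ) 0 j l
  have h1 : (fun q => EE (0 : Fin n → ℤ) 0 q * eb k j q) = (eb k j : Ph n → ℂ) := by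
    funext q
    unfold EE
    simp
  rw [h1] at h
  rw [h]
  have h2 : lam (0 : Fin n → ℤ) 0 = 0 := by
    unfold lam H99.EQ.sq dt
    simp
  have h3 : ea (0 : Fin n → ℤ) (gp k l) = 1 := by
    unfold ea
    simp
  rw [h2, h3]
  simp

end H72BT
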