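import Pool.Agent.H72.BT.Ops

/-!
BT-1. One-dimensional theta functions
`th k l x ξ = ∑_m exp(2πi(l+km)ξ - πk(x-m-l/k)²)` and `Th k l z = ∑_m exp(-π(l+km)²/k + 2π(l+km)z)`.

Proofs (`k ≥ 1`).
* `Th_summable`: the norm of the `m`-th term is `exp(-π(l+km)²/k + 2π(l+km) Re z)`, a Gaussian in `m`.
  Either use `summable_jacobiTheta₂_term_iff` (the `m`-th term equals
  `cexp(-πl²/k+2πlz) * jacobiTheta₂_term m (-i*k*z + i*l) (i*k)`), or compare with a geometric series.
* `Th_diff`: by the same identity `Th k l z = cexp(-πl²/k+2πlz) * jacobiTheta₂ (-i*k*z+i*l) (i*k)`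
  (`tsum_mul_left`), and `differentiableAt_jacobiTheta₂_fst` (`im (ik) = k > 0`).
* `th_eq`: termwise `2πi(l+km)ξ - πk(x-m-l/k)² = -πkx² - π(l+km)²/k + 2π(l+km)(x+iξ)`, `tsum_mul_left`.
* `th_add_x`: `m`-th term at `x+1` = `exp(2πikξ)` times the `(m-1)`-st term at `x`; reindex
  (`(Equiv.addRight _).tsum_eq`), `tsum_mul_left`.
* `th_add_xi`: termwise, `exp(2πi(l+km)) = 1`.
* `th_add_mul`: the `m`-th term for `l+kr` is the `(m+r)`-th term for `l`; reindex.
-/

set_option autoImplicit false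

open MeasureTheory Complex
open scoped ContDiff ComplexConjugate

noncomputable section

namespace H72BT

open H99.EQ

theorem One_term {k : ℕ} (hk : 1 ≤ k) (l m : ℤ) (z : ℂ) :
    exp (-(Real.pi * ((l : ℂ) + k * m) ^ 2 / k) + 2 * Real.pi * ((l : ℂ) + k * m) * z) =
      exp (-(Real.pi * (l : ℂ) ^ 2 / k) + 2 * Real.pi * l * z) *
        jacobiTheta₂_term m (-(I * k * z) + I * l) (I * k) := by
  have hk0 : (k : ℂ) ≠ 0 := by
    have : (k : ℕ) ≠ 0 := by omega
    exact_mod_cast this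
  rw [jacobiTheta₂_term, ← Complex.exp_add]
  congr 1
  have h1 : (2 * (Real.pi : ℂ) * I * m * (-(I * k * z) + I * l) +
      Real.pi * I * (m : ℂ) ^ 2 * (I * k)) =
      2 * Real.pi * m * k * z - 2 * Real.pi * m * l - Real.pi * (m : ℂ) ^ 2 * k := by
    linear_combination (-2 * (Real.pi : ℂ) * m * k * z + 2 * Real.pi * m * l +
      Real.pi * (m : ℂ) ^ 2 * k) * Complex.I_sq
  rw [h1]
  field_simp
  ring

theorem One_im {k : ℕ} (hk : 1 ≤ k) : 0 < (I * (k : ℂ)).im := by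
  have : (0 : ℝ) < k := by exact_mod_cast hk
  simpa using this

theorem Th_summable {k : ℕ} (hk : 1 ≤ k) (l : ℤ) (z : ℂ) :
    Summable fun m : ℤ => ‖exp (-(Real.pi * ((l : ℂ) + k * m) ^ 2 / k) +
      2 * Real.pi * ((l : ℂ) + k * m) * z)‖ := by
  simp_rw [One_term hk, norm_mul]
  exact (((summable_jacobiTheta₂_term_iff _ _).mpr (One_im hk)).norm).mul_left _

theorem One_Th {k : ℕ} (hk : 1 ≤ k) (l : ℤ) (z : ℂ) : Th k l z =
    exp (-(Real.pi * (l : ℂ) ^ 2 / k) + 2 * Real.pi * l * z) *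
      jacobiTheta₂ (-(I * k * z) + I * l) (I * k) := by
  rw [Th, jacobiTheta₂, ← tsum_mul_left]
  exact tsum_congr fun m => One_term hk l m z

theorem Th_diff {k : ℕ} (hk : 1 ≤ k) (l : ℤ) : Differentiable ℂ (Th k l) := by
  have h : Th k l = fun z => exp (-(Real.pi * (l : ℂ) ^ 2 / k) + 2 * Real.pi * l * z) *
      jacobiTheta₂ (-(I * k * z) + I * l) (I * k) := funext fun z => One_Th hk l z
  rw [h]
  intro z
  have h1 : DifferentiableAt ℂ (fun w => jacobiTheta₂ w (I * k)) (-(I * k * z) + I * l) :=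
    differentiableAt_jacobiTheta₂_fst _ (One_im hk)
  have h2 : DifferentiableAt ℂ (fun z : ℂ => -(I * k * z) + I * l) z := by fun_prop
  have h3 : DifferentiableAt ℂ (fun z : ℂ => jacobiTheta₂ (-(I * k * z) + I * l) (I * k)) z :=
    DifferentiableAt.comp (g := fun w => jacobiTheta₂ w (I * k))
      (f := fun z : ℂ => -(I * k * z) + I * l) z h1 h2
  exact DifferentiableAt.mul (by fun_prop) h3

theorem th_eq {k : ℕ} (hk : 1 ≤ k) (l : ℤ) (x ξ : ℝ) :
    th k l x ξ = exp (-(Real.pi * k * (x : ℂ) ^ 2)) * Th k l ((x : ℂ) + (ξ : ℂ) * I) := by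
  have hk0 : (k : ℂ) ≠ 0 := by
    have : (k : ℕ) ≠ 0 := by omega
    exact_mod_cast this
  rw [th, Th, ← tsum_mul_left]
  refine tsum_congr fun m => ?_
  rw [← Complex.exp_add]
  congr 1
  field_simp
  ring

theorem th_add_x {k : ℕ} (hk : 1 ≤ k) (l : ℤ) (x ξ : ℝ) :
    th k l (x + 1) ξ = exp (2 * Real.pi * I * k * ξ) * th k l x ξ := by
  have _ := hk
  rw [th, th, ← tsum_mul_left, ← (Equiv.addRight (1 : ℤ)).tsum_eq]
  refine tsum_congr fun m => ?_
  rw [← Complex.exp_add]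
  congr 1
  simp only [Equiv.coe_addRight]
  push_cast
  ring

theorem th_add_xi (k : ℕ) (l : ℤ) (x ξ : ℝ) : th k l x (ξ + 1) = th k l x ξ := by
  rw [th, th]
  refine tsum_congr fun m => ?_
  rw [Complex.exp_eq_exp_iff_exists_int]
  refine ⟨l + k * m, ?_⟩
  push_cast
  ring

theorem th_add_mul {k : ℕ} (hk : 1 ≤ k) (l r : ℤ) (x ξ : ℝ) :
    th k (l + k * r) x ξ = th k l x ξ := by
  have hk0 : (k : ℂ) ≠ 0 := by
    have : (k : ℕ) ≠ 0 := by omega
    exact_mod_cast this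
  rw [th, th]
  conv_rhs => rw [← (Equiv.addRight (r : ℤ)).tsum_eq]
  refine tsum_congr fun m => ?_
  congr 1
  simp only [Equiv.coe_addRight]
  push_cast
  field_simp
  ring

end H72BT
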