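import Pool.Agent.H72.BT.One

/-!
BT-2. Fourier coefficients in `ξ` of the one-dimensional theta functions.

Proof. `th k l x ξ * e^{-2πiνξ} = ∑_m c_m e^{2πi(l+km-ν)ξ}` with `c_m = exp(-πk(x-m-l/k)²)`,
`∑ |c_m| < ∞` (`Th_summable` at `z = x`, times `exp(-πkx²)`), so it can be integrated termwise over
`[0,1]` (`intervalIntegral.hasSum_integral_of_dominated_convergence` or
`hasSum_integral_of_summable_integral_norm`); `∫_0^1 e^{2πiNξ} dξ = 0` for an integer `N ≠ 0`, `= 1`
for `N = 0`. There is an `m` with `l+km = ν` iff `k ∣ ν-l`, it is unique (`k ≥ 1`), and then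
`c_m = exp(-πk(x-ν/k)²)`.
-/

set_option autoImplicit false

open MeasureTheory Complex
open scoped ContDiff ComplexConjugate

noncomputable section

namespace H72BT

open H99.EQ

theorem OneFC_int (N : ℤ) :
    ∫ ξ in (0 : ℝ)..1, exp (2 * Real.pi * I * (N : ℂ) * (ξ : ℂ)) = if N = 0 then 1 else 0 := by
  by_cases hN : N = 0
  · simp [hN]
  · rw [if_neg hN]
    have hc : (2 * Real.pi * I * (N : ℂ)) ≠ 0 :=
      mul_ne_zero Complex.two_pi_I_ne_zero (by exact_mod_cast hN)
    rw [integral_exp_mul_complex hc]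
    have h1 : exp (2 * Real.pi * I * (N : ℂ) * ((1 : ℝ) : ℂ)) = 1 := by
      rw [show (2 * Real.pi * I * (N : ℂ) * ((1 : ℝ) : ℂ)) = (N : ℂ) * (2 * Real.pi * I) by
        push_cast; ring]
      exact exp_int_mul_two_pi_mul_I N
    rw [h1]
    simp

theorem OneFC_summable {k : ℕ} (hk : 1 ≤ k) (l : ℤ) (x : ℝ) :
    Summable fun m : ℤ => ‖exp (-(Real.pi * k * ((x : ℂ) - m - (l : ℂ) / k) ^ 2))‖ := by
  have hk0 : (k : ℂ) ≠ 0 := by
    have : k ≠ 0 := by omega
    exact_mod_cast this
  have h := (Th_summable hk l (x : ℂ)).mul_left ‖exp (-(Real.pi * k * (x : ℂ) ^ 2))‖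
  refine h.congr fun m => ?_
  rw [← norm_mul, ← exp_add]
  congr 2
  field_simp
  ring

theorem th_fc {k : ℕ} (hk : 1 ≤ k) (l ν : ℤ) (x : ℝ) :
    ∫ ξ in (0 : ℝ)..1, th k l x ξ * exp (-(2 * Real.pi * I * ((ν : ℂ) * (ξ : ℂ)))) =
      if (k : ℤ) ∣ ν - l then exp (-(Real.pi * k * ((x : ℂ) - (ν : ℂ) / k) ^ 2)) else 0 := by
  have hk0 : (k : ℂ) ≠ 0 := by
    have : k ≠ 0 := by omega
    exact_mod_cast this
  have hkz : (k : ℤ) ≠ 0 := by
    have : k ≠ 0 := by omega
    exact_mod_cast this
  set c : ℤ → ℂ := fun m => exp (-(Real.pi * k * ((x : ℂ) - m - (l : ℂ) / k) ^ 2)) with hc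
  set F : ℤ → ℝ → ℂ := fun m ξ =>
    c m * exp (2 * Real.pi * I * ((l + k * m - ν : ℤ) : ℂ) * (ξ : ℂ)) with hF
  have hcs : Summable fun m => ‖c m‖ := OneFC_summable hk l x
  have hFn : ∀ m ξ, ‖F m ξ‖ = ‖c m‖ := by
    intro m ξ
    rw [hF]
    simp only [norm_mul]
    rw [show (2 * Real.pi * I * ((l + k * m - ν : ℤ) : ℂ) * (ξ : ℂ)) =
      ((2 * Real.pi * (l + k * m - ν : ℤ) * ξ : ℝ) : ℂ) * I by push_cast; ring,
      norm_exp_ofReal_mul_I, mul_one]
  have hterm : ∀ (m : ℤ) (ξ : ℝ), exp (2 * Real.pi * I * ((l : ℂ) + k * m) * ξ -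
      Real.pi * k * ((x : ℂ) - m - (l : ℂ) / k) ^ 2) *
      exp (-(2 * Real.pi * I * ((ν : ℂ) * (ξ : ℂ)))) = F m ξ := by
    intro m ξ
    rw [hF, hc]
    simp only
    rw [← exp_add, ← exp_add]
    congr 1
    push_cast
    ring
  have hsum : HasSum (fun m => ∫ ξ in (0 : ℝ)..1, F m ξ)
      (∫ ξ in (0 : ℝ)..1, th k l x ξ * exp (-(2 * Real.pi * I * ((ν : ℂ) * (ξ : ℂ))))) := by
    refine intervalIntegral.hasSum_integral_of_dominated_convergence (fun m _ => ‖c m‖)
      (fun m => ?_) (fun m => ?_) ?_ ?_ ?_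
    · refine Continuous.aestronglyMeasurable ?_
      rw [hF]
      fun_prop
    · exact Filter.Eventually.of_forall fun ξ _ => (hFn m ξ).le
    · exact Filter.Eventually.of_forall fun ξ _ => hcs
    · exact intervalIntegrable_const
    · refine Filter.Eventually.of_forall fun ξ _ => ?_
      have h1 : Summable fun m => F m ξ := by
        refine Summable.of_norm ?_
        simpa only [hFn] using hcs
      have h2 : th k l x ξ * exp (-(2 * Real.pi * I * ((ν : ℂ) * (ξ : ℂ)))) = ∑' m, F m ξ := by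
        rw [th, ← tsum_mul_right]
        exact tsum_congr fun m => hterm m ξ
      rw [h2]
      exact h1.hasSum
  have hint : ∀ m, ∫ ξ in (0 : ℝ)..1, F m ξ = if l + k * m - ν = 0 then c m else 0 := by
    intro m
    rw [hF]
    simp only
    rw [intervalIntegral.integral_const_mul, OneFC_int]
    split_ifs <;> simp
  simp only [hint] at hsum
  by_cases hd : (k : ℤ) ∣ ν - l
  · rw [if_pos hd]
    obtain ⟨m0, hm0⟩ := hd
    have hm1 : l + k * m0 - ν = 0 := by linarith
    have h3 : HasSum (fun m => if l + k * m - ν = 0 then c m else 0) (c m0) := by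
      have := hasSum_single (f := fun m : ℤ => if l + k * m - ν = 0 then c m else 0) m0
        (fun m hm => by
          have : l + k * m - ν ≠ 0 := by
            intro h
            exact hm (mul_left_cancel₀ hkz (by linarith))
          simp [this])
      simpa [hm1] using this
    rw [hsum.unique h3, hc]
    simp only
    congr 3
    have : (ν : ℂ) = l + k * m0 := by
      have : ν = l + k * m0 := by linarith
      exact_mod_cast this
    rw [this]
    field_simp
    ring
  · rw [if_neg hd]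
    have h3 : HasSum (fun m : ℤ => if l + k * m - ν = 0 then c m else 0) 0 := by
      have : (fun m : ℤ => if l + k * m - ν = 0 then c m else 0) = fun _ => 0 := by
        funext m
        have : l + k * m - ν ≠ 0 := by
          intro h
          exact hd ⟨m, by linarith⟩
        simp [this]
      rw [this]
      exact hasSum_zero
    exact hsum.unique h3

end H72BT
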