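import Pool.Agent.H72.BT.One

/-!
BT-3a. The `ξ`-integral of a product of two one-dimensional theta functions.

Proof. Put `ν = j+km`, `ν' = l+km'`. `e^{2πibξ} th_j conj(th_l)` is the sum over `(m, m')` of
`e^{2πi(b+ν-ν')ξ} e^{-πk(x-m-j/k)² - πk(x-m'-l/k)²}`, absolutely summable with norms independent of
`ξ` (`Th_summable` at `z = x` times `exp(-πkx²)`; `Summable.mul_of_nonneg`,
`tsum_mul_tsum_of_summable_norm`). Integrate termwise over `ξ ∈ [0,1]` (
`intervalIntegral.hasSum_integral_of_dominated_convergence` or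
`hasSum_integral_of_summable_integral_norm`): only the pairs with `ν' = ν + b` survive. They exist
iff `k ∣ j+b-l`, and then `m' = m + (j+b-l)/k` and `m' + l/k = m + (j+b)/k`; the double sum reduces to
a single sum (`tsum_eq_single` in the inner variable after `Summable.tsum_prod`, or
`Function.Injective.tsum_eq` for `m ↦ (m, m+r)`).
-/

set_option autoImplicit false

open MeasureTheory Complex
open scoped ContDiff ComplexConjugate

noncomputable section

namespace H72BT

open H99.EQ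

/-- the Gaussian coefficient -/
def OneMelA_g (k : ℕ) (l : ℤ) (x : ℝ) (m : ℤ) : ℂ :=
  exp (-(Real.pi * k * ((x : ℂ) - m - (l : ℂ) / k) ^ 2))

theorem OneMelA_g_real (k : ℕ) (l : ℤ) (x : ℝ) (m : ℤ) :
    OneMelA_g k l x m = ((Real.exp (-(Real.pi * k * (x - m - (l : ℝ) / k) ^ 2)) : ℝ) : ℂ) := by
  unfold OneMelA_g
  push_cast
  rfl

theorem OneMelA_conj_g (k : ℕ) (l : ℤ) (x : ℝ) (m : ℤ) :
    conj (OneMelA_g k l x m) = OneMelA_g k l x m := by
  rw [OneMelA_g_real, Complex.conj_ofReal]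

theorem OneMelA_summable {k : ℕ} (hk : 1 ≤ k) (l : ℤ) (x : ℝ) :
    Summable fun m : ℤ => ‖OneMelA_g k l x m‖ := by
  have hk0 : (k : ℂ) ≠ 0 := by
    have : k ≠ 0 := by omega
    exact_mod_cast this
  have h1 := (Th_summable hk l (x : ℂ)).mul_left ‖exp (-(Real.pi * k * (x : ℂ) ^ 2))‖
  refine h1.congr ?_
  intro m
  rw [← norm_mul, ← Complex.exp_add]
  unfold OneMelA_g
  congr 2
  field_simp
  ring

/-- the oscillating factor -/
def OneMelA_e (N : ℤ) (ξ : ℝ) : ℂ := exp (2 * Real.pi * I * N * ξ)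

theorem OneMelA_norm_e (N : ℤ) (ξ : ℝ) : ‖OneMelA_e N ξ‖ = 1 := by
  unfold OneMelA_e
  have h : (2 * Real.pi * I * N * ξ : ℂ) = ((2 * Real.pi * N * ξ : ℝ) : ℂ) * I := by
    push_cast; ring
  rw [h, Complex.norm_exp_ofReal_mul_I]

theorem OneMelA_conj_e (N : ℤ) (ξ : ℝ) : conj (OneMelA_e N ξ) = OneMelA_e (-N) ξ := by
  unfold OneMelA_e
  rw [← Complex.exp_conj]
  congr 1
  simp only [map_mul, Complex.conj_I, Complex.conj_ofReal, map_ofNat, map_intCast]
  push_cast
  ring

theorem OneMelA_e_add (M N : ℤ) (ξ : ℝ) :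
    OneMelA_e M ξ * OneMelA_e N ξ = OneMelA_e (M + N) ξ := by
  unfold OneMelA_e
  rw [← Complex.exp_add]
  congr 1
  push_cast
  ring

theorem OneMelA_cont_e (N : ℤ) : Continuous (OneMelA_e N) := by
  unfold OneMelA_e
  fun_prop

theorem OneMelA_int_e (N : ℤ) : ∫ ξ in (0 : ℝ)..1, OneMelA_e N ξ = if N = 0 then 1 else 0 := by
  split_ifs with h
  · subst h
    have : (fun ξ : ℝ => OneMelA_e 0 ξ) = fun _ => (1 : ℂ) := by
      funext ξ
      unfold OneMelA_e
      simp
    rw [this]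
    simp
  · have hN : (N : ℂ) ≠ 0 := by exact_mod_cast h
    have hc : (2 * Real.pi * I * N : ℂ) ≠ 0 := by
      have h1 : (Real.pi : ℂ) ≠ 0 := by exact_mod_cast Real.pi_ne_zero
      exact mul_ne_zero (mul_ne_zero (mul_ne_zero two_ne_zero h1) Complex.I_ne_zero) hN
    have h2 := integral_exp_mul_complex (a := 0) (b := 1) hc
    unfold OneMelA_e
    rw [h2]
    have h3 : exp (2 * Real.pi * I * N * ((1 : ℝ) : ℂ)) = 1 := by
      have h4 : (2 * Real.pi * I * N * ((1 : ℝ) : ℂ) : ℂ) = N * (2 * Real.pi * I) := by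
        push_cast; ring
      rw [h4, Complex.exp_int_mul_two_pi_mul_I]
    rw [h3]
    simp

theorem OneMelA_term (k : ℕ) (l : ℤ) (x ξ : ℝ) (m : ℤ) :
    exp (2 * Real.pi * I * ((l : ℂ) + k * m) * ξ - Real.pi * k * ((x : ℂ) - m - (l : ℂ) / k) ^ 2) =
      OneMelA_e (l + k * m) ξ * OneMelA_g k l x m := by
  unfold OneMelA_e OneMelA_g
  rw [← Complex.exp_add]
  congr 1
  push_cast
  ring

theorem th_mel_xi {k : ℕ} (hk : 1 ≤ k) (b j l : ℤ) (x : ℝ) :
    ∫ ξ in (0 : ℝ)..1,
      exp (2 * Real.pi * I * ((b : ℂ) * (ξ : ℂ))) * (th k j x ξ * conj (th k l x ξ)) =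
      if (k : ℤ) ∣ j + b - l then
        ∑' m : ℤ, exp (-(Real.pi * k * ((x : ℂ) - m - (j : ℂ) / k) ^ 2) -
          Real.pi * k * ((x : ℂ) - m - ((j : ℂ) + b) / k) ^ 2)
      else 0 := by
  have hk0 : (k : ℤ) ≠ 0 := by omega
  have hkC : (k : ℂ) ≠ 0 := by exact_mod_cast (show k ≠ 0 by omega)
  set F : ℤ × ℤ → ℝ → ℂ := fun p ξ => OneMelA_e (b + (j + k * p.1) - (l + k * p.2)) ξ *
    (OneMelA_g k j x p.1 * OneMelA_g k l x p.2) with hF
  have hsj := OneMelA_summable hk j x
  have hsl := OneMelA_summable hk l x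
  have hsum : Summable fun p : ℤ × ℤ => ‖OneMelA_g k j x p.1‖ * ‖OneMelA_g k l x p.2‖ :=
    hsj.mul_of_nonneg hsl (fun _ => norm_nonneg _) (fun _ => norm_nonneg _)
  -- pointwise sum
  have hpt : ∀ ξ : ℝ, HasSum (fun p : ℤ × ℤ => F p ξ)
      (exp (2 * Real.pi * I * ((b : ℂ) * (ξ : ℂ))) * (th k j x ξ * conj (th k l x ξ))) := by
    intro ξ
    have h1 : ∀ m : ℤ, ‖OneMelA_e (j + k * m) ξ * OneMelA_g k j x m‖ = ‖OneMelA_g k j x m‖ := by
      intro m
      rw [norm_mul, OneMelA_norm_e, one_mul]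
    have h2 : ∀ m : ℤ, ‖OneMelA_e (-(l + k * m)) ξ * OneMelA_g k l x m‖ =
        ‖OneMelA_g k l x m‖ := by
      intro m
      rw [norm_mul, OneMelA_norm_e, one_mul]
    have s1 : Summable fun m : ℤ => ‖OneMelA_e (j + k * m) ξ * OneMelA_g k j x m‖ :=
      hsj.congr fun m => (h1 m).symm
    have s2 : Summable fun m : ℤ => ‖OneMelA_e (-(l + k * m)) ξ * OneMelA_g k l x m‖ :=
      hsl.congr fun m => (h2 m).symm
    have t1 : th k j x ξ = ∑' m : ℤ, OneMelA_e (j + k * m) ξ * OneMelA_g k j x m := by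
      unfold th
      exact tsum_congr fun m => OneMelA_term k j x ξ m
    have t2 : conj (th k l x ξ) = ∑' m : ℤ, OneMelA_e (-(l + k * m)) ξ * OneMelA_g k l x m := by
      unfold th
      rw [Complex.conj_tsum]
      apply tsum_congr
      intro m
      rw [OneMelA_term, map_mul, OneMelA_conj_e, OneMelA_conj_g]
    have t3 := tsum_mul_tsum_of_summable_norm s1 s2
    have t4 := (summable_mul_of_summable_norm s1 s2).hasSum
    rw [← t3, ← t1, ← t2] at t4
    have t5 := t4.mul_left (exp (2 * Real.pi * I * ((b : ℂ) * (ξ : ℂ))))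
    have t6 : (fun p : ℤ × ℤ => F p ξ) = fun p : ℤ × ℤ =>
        exp (2 * Real.pi * I * ((b : ℂ) * (ξ : ℂ))) *
          ((OneMelA_e (j + k * p.1) ξ * OneMelA_g k j x p.1) *
            (OneMelA_e (-(l + k * p.2)) ξ * OneMelA_g k l x p.2)) := ?_
    · rw [t6]
      exact t5
    funext p
    have e1 : exp (2 * Real.pi * I * ((b : ℂ) * (ξ : ℂ))) = OneMelA_e b ξ := by
      unfold OneMelA_e
      congr 1
      ring
    have e2 : OneMelA_e (b + (j + k * p.1) - (l + k * p.2)) ξ =
        OneMelA_e b ξ * (OneMelA_e (j + k * p.1) ξ * OneMelA_e (-(l + k * p.2)) ξ) := by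
      rw [OneMelA_e_add, OneMelA_e_add]
      congr 1
      ring
    simp only [hF]
    rw [e1, e2]
    ring
  have hint : HasSum (fun p : ℤ × ℤ => ∫ ξ in (0 : ℝ)..1, F p ξ)
      (∫ ξ in (0 : ℝ)..1,
        exp (2 * Real.pi * I * ((b : ℂ) * (ξ : ℂ))) * (th k j x ξ * conj (th k l x ξ))) := by
    apply intervalIntegral.hasSum_integral_of_dominated_convergence
      (fun p _ => ‖OneMelA_g k j x p.1‖ * ‖OneMelA_g k l x p.2‖)
    · intro p
      exact ((OneMelA_cont_e _).mul continuous_const).aestronglyMeasurable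
    · intro p
      refine Filter.Eventually.of_forall fun ξ _ => ?_
      simp only [hF]
      rw [norm_mul, OneMelA_norm_e, one_mul, norm_mul]
    · exact Filter.Eventually.of_forall fun ξ _ => hsum
    · exact intervalIntegrable_const
    · exact Filter.Eventually.of_forall fun ξ _ => hpt ξ
  rw [← hint.tsum_eq]
  have hterm : ∀ p : ℤ × ℤ, ∫ ξ in (0 : ℝ)..1, F p ξ =
      if b + (j + k * p.1) - (l + k * p.2) = 0 then
        OneMelA_g k j x p.1 * OneMelA_g k l x p.2 else 0 := by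
    intro p
    simp only [hF]
    rw [intervalIntegral.integral_mul_const, OneMelA_int_e]
    split_ifs <;> simp
  rw [tsum_congr hterm]
  split_ifs with hdiv
  · obtain ⟨r, hr⟩ := hdiv
    have hg : Function.Injective (fun m : ℤ => ((m, m + r) : ℤ × ℤ)) := by
      intro m m' h
      exact (Prod.mk.inj h).1
    have hsupp : (Function.support fun p : ℤ × ℤ =>
        if b + (j + k * p.1) - (l + k * p.2) = 0 then
          OneMelA_g k j x p.1 * OneMelA_g k l x p.2 else 0) ⊆
        Set.range (fun m : ℤ => ((m, m + r) : ℤ × ℤ)) := by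
      rintro ⟨m, m'⟩ hp
      rw [Function.mem_support] at hp
      have h1 : b + (j + k * m) - (l + k * m') = 0 := by
        by_contra hcon
        exact hp (if_neg hcon)
      refine ⟨m, ?_⟩
      have h2 : (k : ℤ) * (m + r - m') = 0 := by
        linear_combination h1 - hr
      rcases mul_eq_zero.1 h2 with h3 | h3
      · exact absurd h3 hk0
      · ext
        · rfl
        · show m + r = m'
          omega
    rw [← hg.tsum_eq hsupp]
    apply tsum_congr
    intro m
    have h1 : b + (j + k * m) - (l + k * (m + r)) = 0 := by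
      linear_combination hr
    show (if b + (j + k * m) - (l + k * (m + r)) = 0 then
          OneMelA_g k j x m * OneMelA_g k l x (m + r) else 0) = _
    rw [if_pos h1]
    unfold OneMelA_g
    rw [← Complex.exp_add]
    have h2 : ((m + r : ℤ) : ℂ) + (l : ℂ) / k = m + ((j : ℂ) + b) / k := by
      have h3 : ((j : ℂ) + b - l) = k * r := by exact_mod_cast congrArg (fun z : ℤ => (z : ℂ)) hr
      push_cast
      field_simp
      linear_combination -h3
    have h4 : (x : ℂ) - ((m + r : ℤ) : ℂ) - (l : ℂ) / k = (x : ℂ) - m - ((j : ℂ) + b) / k := by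
      linear_combination -h2
    rw [h4]
    congr 1
  · have hz : ∀ p : ℤ × ℤ, (if b + (j + k * p.1) - (l + k * p.2) = 0 then
        OneMelA_g k j x p.1 * OneMelA_g k l x p.2 else 0) = 0 := by
      intro p
      rw [if_neg]
      intro h
      apply hdiv
      refine ⟨p.2 - p.1, ?_⟩
      linear_combination h
    rw [tsum_congr hz, tsum_zero]

end H72BT
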