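import Pool.Agent.H99.EQ.ADefs

/-! Auxiliary definitions for block A (Berezin-Toeplitz half) of MP_c1d796_mp, setting (a).
Everything else is in `Pool.Agent.H99.EQ.ADefs`. -/

set_option autoImplicit false

open MeasureTheory Complex
open scoped ContDiff

noncomputable section

namespace H72BT

open H99.EQ

/-- the exponent `λ_{a,b} = -π(|a|²+|b|²)/2 - iπ a·b` -/
def lam {n : ℕ} (a b : Fin n → ℤ) : ℂ :=
  -(Real.pi / 2) * (sq a b : ℂ) - Real.pi * I * (dt a b : ℂ)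

/-- the exponential `exp (2πi a·x)` -/
def ea {n : ℕ} (a : Fin n → ℤ) (x : V n) : ℂ :=
  exp (2 * Real.pi * I * ∑ j, (a j : ℂ) * (x j : ℂ))

/-- `(1/m!) ∂_κ^m Φ_κ(f, u)(x)` at `κ = 0` -/
def QO {n : ℕ} (f : Ph n → ℂ) (m : ℕ) (u : V n → ℂ) (x : V n) : ℂ :=
  ∑ i ∈ Finset.range (m + 1), ((i.factorial : ℂ) * ((m - i).factorial : ℂ))⁻¹ *
    ∑' ab : (Fin n → ℤ) × (Fin n → ℤ), fc f ab.1 ab.2 * lam ab.1 ab.2 ^ (m - i) * ea ab.1 x *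
      iteratedFDeriv ℝ i u x (fun _ => -ivec ab.2)

/-- the coefficient functions -/
def cofP {n : ℕ} (f : Ph n → ℂ) (r : ℕ) {i : ℕ} (l : Fin i → Fin n) (x : V n) : ℂ :=
  ∑' ab : (Fin n → ℤ) × (Fin n → ℤ), fc f ab.1 ab.2 * lam ab.1 ab.2 ^ r *
    (∏ t, (-(ab.2 (l t) : ℂ))) * ea ab.1 x

/-- representatives of `(ℤ/k)ⁿ` -/
def jz {n k : ℕ} (j : Fin n → Fin k) : Fin n → ℤ := fun i => ((j i : ℕ) : ℤ)

/-- the grid point `l/k` -/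
def gp {n : ℕ} (k : ℕ) (l : Fin n → ℤ) : V n := fun i => (l i : ℝ) / k

/-- `(2k)^{n/2}` -/
def sc (n k : ℕ) : ℝ := Real.sqrt (2 * k) ^ n

/-- the coefficient of `eb k l` of a section -/
def cl {n : ℕ} (k : ℕ) (l : Fin n → ℤ) (s : Ph n → ℂ) : ℂ := (sc n k : ℂ) * ip s (eb k l)

/-- the section `∑_j c_j e_j` -/
def cmb {n k : ℕ} (c : (Fin n → Fin k) → ℂ) (q : Ph n) : ℂ := ∑ j, c j * eb k (jz j) q

/-- the entire function behind `th` -/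
def Th (k : ℕ) (l : ℤ) (z : ℂ) : ℂ :=
  ∑' m : ℤ, exp (-(Real.pi * ((l : ℂ) + k * m) ^ 2 / k) + 2 * Real.pi * ((l : ℂ) + k * m) * z)

end H72BT
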