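import Pool.Agent.H72.BT.Mel
import Pool.Agent.H72.BT.FCo
import Pool.Agent.H72.BT.OneFC
import Pool.Agent.H72.BT.Lin

/-!
BT-10. The sections `eb k (jz j)`, `j : Fin n → Fin k`, are an orthogonal basis of `Hol n k`.

Proofs.
* `exists_rep`: `Int.emod` coordinatewise.
* `ip_eb_jz`: `ip_eb`; for `j, l : Fin n → Fin k`, `k ∣ jz j i - jz l i` for all `i` iff `j = l`.
* `Ac_eb`: `integral_prod_cube_one` with the factors `th k (l i) (x i) ξ exp(-2πi ν_i ξ)` and `th_fc` at
  `x = 0`: `fcx (eb k l) ν 0 = ∏ [k ∣ ν_i - l_i] exp(-πν_i²/k)`.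
* `span`: `s' = s - cmb (fun j => Ac k s (jz j)) ∈ Hol n k` (`cmb_mem`). `Ac k` is additive and
  homogeneous in `s` (integrals of continuous functions over a cube). For every `ν` there is exactly
  one `j0` with `k ∣ ν_i - jz j0 i` for all `i`, so by `Ac_eb`, `Ac_congr`,
  `Ac k s' ν = Ac k s ν - Ac k s (jz j0) = 0`. Hence `s' = 0` (`eq_zero_of_Ac`), and
  `cl k (jz j) s = Ac k s (jz j)` by `ip_sum_left` and `ip_eb_jz`.
-/

set_option autoImplicit false

open MeasureTheory Complex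
open scoped ContDiff ComplexConjugate

noncomputable section

namespace H72BT

open H99.EQ

theorem span_dvd {k : ℕ} {a b : Fin k} (h : (k : ℤ) ∣ ((a : ℕ) : ℤ) - ((b : ℕ) : ℤ)) : a = b := by
  have ha : ((a : ℕ) : ℤ) < k := by exact_mod_cast a.2
  have hb : ((b : ℕ) : ℤ) < k := by exact_mod_cast b.2
  have h1 : ((a : ℕ) : ℤ) - ((b : ℕ) : ℤ) = 0 := by
    apply Int.eq_zero_of_abs_lt_dvd h
    rw [abs_lt]
    omega
  apply Fin.ext
  omega

theorem exists_rep {n k : ℕ} (hk : 1 ≤ k) (ν : Fin n → ℤ) :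
    ∃! j : Fin n → Fin k, ∀ i, (k : ℤ) ∣ ν i - jz j i := by
  have hk0 : (0 : ℤ) < k := by exact_mod_cast hk
  refine ⟨fun i => ⟨(ν i % k).toNat, ?_⟩, ?_, ?_⟩
  · have h1 := Int.emod_nonneg (ν i) hk0.ne'
    have h2 := Int.emod_lt_of_pos (ν i) hk0
    omega
  · intro i
    have h1 := Int.emod_nonneg (ν i) hk0.ne'
    simp only [jz]
    rw [Int.toNat_of_nonneg h1]
    exact Int.dvd_self_sub_emod
  · intro j hj
    funext i
    apply span_dvd
    have h1 := Int.emod_nonneg (ν i) hk0.ne'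
    have h2 := hj i
    simp only [jz] at h2
    show (k : ℤ) ∣ ((j i : ℕ) : ℤ) - (((ν i % k).toNat : ℕ) : ℤ)
    rw [Int.toNat_of_nonneg h1]
    have h3 : (k : ℤ) ∣ ν i - ν i % k := Int.dvd_self_sub_emod
    have h4 := dvd_sub h3 h2
    have h5 : ν i - ν i % k - (ν i - ((j i : ℕ) : ℤ)) = ((j i : ℕ) : ℤ) - ν i % k := by ring
    rwa [h5] at h4

theorem ip_eb_jz {n k : ℕ} (hk : 1 ≤ k) (j l : Fin n → Fin k) :
    ip (eb k (jz j) : Ph n → ℂ) (eb k (jz l)) = if j = l then (sc n k : ℂ)⁻¹ else 0 := by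
  rw [ip_eb hk]
  by_cases h : j = l
  · subst h
    simp
  · rw [if_neg h, if_neg]
    intro h1
    apply h
    funext i
    exact span_dvd (h1 i)

theorem Ac_eb {n k : ℕ} (hk : 1 ≤ k) (l ν : Fin n → ℤ) :
    Ac k (eb k l) ν = if (∀ i, (k : ℤ) ∣ ν i - l i) then 1 else 0 := by
  have hk0 : (k : ℂ) ≠ 0 := by
    have : k ≠ 0 := by omega
    exact_mod_cast this
  have h1 : fcx (eb k l) ν 0 = ∏ i, (if (k : ℤ) ∣ ν i - l i then
      exp (-(Real.pi * k * (((0 : ℝ) : ℂ) - (ν i : ℂ) / k) ^ 2)) else 0) := by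
    unfold fcx
    have h2 : ∀ ξ : V n, eb k l ((0 : V n), ξ) *
        exp (-(2 * Real.pi * I * ∑ i, (ν i : ℂ) * (ξ i : ℂ))) =
        ∏ i, (fun (i : Fin n) (y : ℝ) => th k (l i) 0 y *
          exp (-(2 * Real.pi * I * ((ν i : ℂ) * (y : ℂ))))) i (ξ i) := by
      intro ξ
      simp only
      rw [Finset.prod_mul_distrib, ← Complex.exp_sum]
      unfold eb
      congr 2
      rw [Finset.mul_sum, ← Finset.sum_neg_distrib]
    rw [MeasureTheory.integral_congr_ae (Filter.Eventually.of_forall h2)]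
    refine (integral_prod_cube_one (fun (i : Fin n) (y : ℝ) => th k (l i) 0 y *
          exp (-(2 * Real.pi * I * ((ν i : ℂ) * (y : ℂ)))))).trans ?_
    exact Finset.prod_congr rfl fun i _ => th_fc hk (l i) (ν i) 0
  unfold Ac
  rw [h1]
  by_cases h : ∀ i, (k : ℤ) ∣ ν i - l i
  · rw [if_pos h]
    rw [Finset.prod_congr rfl (fun i _ => if_pos (h i)), ← Complex.exp_sum, ← Complex.exp_add]
    have h3 : (Real.pi * (∑ i, (ν i : ℂ) ^ 2) / k : ℂ) +
        ∑ i, -(Real.pi * k * (((0 : ℝ) : ℂ) - (ν i : ℂ) / k) ^ 2) = 0 := by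
      rw [Finset.mul_sum, Finset.sum_div, ← Finset.sum_add_distrib]
      apply Finset.sum_eq_zero
      intro i _
      push_cast
      field_simp
      ring
    rw [h3, Complex.exp_zero]
  · rw [if_neg h]
    push Not at h
    obtain ⟨i, hi⟩ := h
    rw [Finset.prod_eq_zero (Finset.mem_univ i) (if_neg hi), mul_zero]

theorem span_integrable {n : ℕ} {s : Ph n → ℂ} (hs : Continuous s) (ν : Fin n → ℤ) :
    IntegrableOn (fun ξ : V n => s ((0 : V n), ξ) *
      exp (-(2 * Real.pi * I * ∑ i, (ν i : ℂ) * (ξ i : ℂ)))) (Set.Icc (0 : V n) 1) := by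
  apply ContinuousOn.integrableOn_compact isCompact_Icc
  apply Continuous.continuousOn
  apply Continuous.mul
  · exact hs.comp (by fun_prop)
  · fun_prop

theorem span_Ac_sub {n k : ℕ} {s t : Ph n → ℂ} (hs : Continuous s) (ht : Continuous t)
    (ν : Fin n → ℤ) : Ac k (s - t) ν = Ac k s ν - Ac k t ν := by
  unfold Ac fcx
  rw [← mul_sub, ← MeasureTheory.integral_sub (span_integrable hs ν) (span_integrable ht ν)]
  congr 2
  funext ξ
  simp only [Pi.sub_apply]
  ring

theorem span_Ac_cmb {n k : ℕ} (hk : 1 ≤ k) (c : (Fin n → Fin k) → ℂ) (ν : Fin n → ℤ) :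
    Ac k (cmb c) ν = ∑ j, c j * Ac k (eb k (jz j)) ν := by
  have hc : ∀ j : Fin n → Fin k, Continuous (eb k (jz j) : Ph n → ℂ) := fun j =>
    (eb_mem hk (jz j)).1.continuous
  have h1 : ∫ ξ in Set.Icc (0 : V n) 1, cmb c ((0 : V n), ξ) *
      exp (-(2 * Real.pi * I * ∑ i, (ν i : ℂ) * (ξ i : ℂ))) =
      ∑ j, ∫ ξ in Set.Icc (0 : V n) 1, c j * (eb k (jz j) ((0 : V n), ξ) *
      exp (-(2 * Real.pi * I * ∑ i, (ν i : ℂ) * (ξ i : ℂ)))) := by
    rw [← MeasureTheory.integral_finsetSum]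
    · congr 1
      funext ξ
      unfold cmb
      rw [Finset.sum_mul]
      exact Finset.sum_congr rfl fun j _ => by ring
    · intro j _
      exact (span_integrable (hc j) ν).const_mul (c j)
  unfold Ac fcx
  rw [h1, Finset.mul_sum]
  refine Finset.sum_congr rfl fun j _ => ?_
  rw [MeasureTheory.integral_const_mul]
  ring

theorem span {n k : ℕ} (hk : 1 ≤ k) {s : Ph n → ℂ} (hs : s ∈ Hol n k) :
    s = cmb (fun j : Fin n → Fin k => cl k (jz j) s) := by
  have hc : ∀ j : Fin n → Fin k, Continuous (eb k (jz j) : Ph n → ℂ) := fun j =>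
    (eb_mem hk (jz j)).1.continuous
  set c : (Fin n → Fin k) → ℂ := fun j => Ac k s (jz j) with hcdef
  have hmem : s - cmb c ∈ Hol n k := (Hol n k).sub_mem hs (cmb_mem hk c)
  have h0 : ∀ ν, Ac k (s - cmb c) ν = 0 := by
    intro ν
    obtain ⟨j0, hj0, huniq⟩ := exists_rep hk ν
    rw [span_Ac_sub hs.1.continuous (cmb_mem hk c).1.continuous, span_Ac_cmb hk,
      Ac_congr hk hs ν (jz j0) hj0]
    rw [Finset.sum_eq_single j0]
    · rw [Ac_eb hk, if_pos hj0]
      simp [hcdef]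
    · intro j _ hj
      rw [Ac_eb hk, if_neg, mul_zero]
      intro h
      exact hj (huniq j h)
    · intro h
      exact absurd (Finset.mem_univ j0) h
  have h1 := eq_zero_of_Ac hk hmem h0
  have h2 : s = cmb c := sub_eq_zero.mp h1
  have hsc : (sc n k : ℂ) ≠ 0 := by
    have : sc n k ≠ 0 := by
      unfold sc
      have : (0 : ℝ) < 2 * k := by
        have : (0 : ℝ) < k := by exact_mod_cast hk
        linarith
      exact pow_ne_zero _ (Real.sqrt_pos.mpr this).ne'
    exact_mod_cast this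
  have h3 : (fun j : Fin n → Fin k => cl k (jz j) s) = c := by
    funext j
    have h4 : ip s (eb k (jz j)) = c j * (sc n k : ℂ)⁻¹ := by
      have h5 : ip (cmb c) (eb k (jz j)) = ∑ l, c l * ip (eb k (jz l)) (eb k (jz j) : Ph n → ℂ) :=
        ip_sum_left Finset.univ c (fun l => (eb k (jz l) : Ph n → ℂ)) (eb k (jz j))
          (fun l _ => hc l) (hc j)
      calc ip s (eb k (jz j)) = ip (cmb c) (eb k (jz j)) := by rw [← h2]
        _ = _ := by
          rw [h5, Finset.sum_eq_single j]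
          · rw [ip_eb_jz hk, if_pos rfl]
          · intro l _ hl
            rw [ip_eb_jz hk, if_neg hl, mul_zero]
          · intro h
            exact absurd (Finset.mem_univ j) h
    unfold cl
    rw [h4]
    field_simp
  rw [h3]
  exact h2

end H72BT
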