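import Pool.Agent.H72.BT.Ops

/-!
BT-20. The operator `opS d σ`: additivity and words.

Proofs.
* `opS_add`: `opS d σ = Finsupp.sum σ (fun β c => mo c * dmon d β)` (with `σ.support`, `σ.coeff`), use
  `Finsupp.sum_add_index'` (`mo_zero`, `mo_add`), or extend both sums to the union of the supports.
  `opS_sum`: induction. `opS_monomial`: `Finsupp.sum_single_index`.
* `dmon_pdx_comm`: the `pdx j` commute (symmetry of second derivatives,
  `ContDiffAt.isSymmSndFDerivAt` / `second_derivative_symmetric`), so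
  `dmon pdx (β + single j 1) = dmon pdx β * dv (pdx j)` and `= dv (pdx j) * dmon pdx β`
  (lists of pairwise commuting elements: `List.prod_ofFn`-manipulation, or write `dmon` as
  `Finset.noncommProd`).
* `opS_word`: `C c * ∏_t X (l t) = monomial (∑_t single (l t) 1) c`; induction on `i`:
  `iteratedFDeriv ℝ (i+1) u x (Fin.cons v w) = fderiv ℝ (fun y => iteratedFDeriv ℝ i u y w) x v`
  (`iteratedFDeriv_succ_apply_left` and continuity of evaluation) - or the `_right` version, whichever
  is more convenient.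
-/

set_option autoImplicit false

open MeasureTheory Complex
open scoped ContDiff ComplexConjugate

noncomputable section

namespace H72BT

open H99.EQ

section
variable {C : Type*} [CommRing C] [Algebra ℂ C]

theorem SymA_eq {n : ℕ} (d : Fin n → Derivation ℂ C C) (σ : MvPolynomial (Fin n) C)
    (S : Finset (Fin n →₀ ℕ)) (h : σ.support ⊆ S) :
    opS d σ = ∑ β ∈ S, mo (σ.coeff β) * dmon d β := by
  unfold opS
  refine Finset.sum_subset h fun β _ hβ => ?_
  rw [MvPolynomial.notMem_support_iff.1 hβ, mo_zero, zero_mul]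

theorem opS_add {n : ℕ} (d : Fin n → Derivation ℂ C C) (σ τ : MvPolynomial (Fin n) C) :
    opS d (σ + τ) = opS d σ + opS d τ := by
  classical
  have h0 : (σ + τ).support ⊆ (σ + τ).support ∪ (σ.support ∪ τ.support) :=
    Finset.subset_union_left
  have h1 : σ.support ⊆ (σ + τ).support ∪ (σ.support ∪ τ.support) :=
    Finset.subset_union_left.trans Finset.subset_union_right
  have h2 : τ.support ⊆ (σ + τ).support ∪ (σ.support ∪ τ.support) :=
    Finset.subset_union_right.trans Finset.subset_union_right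
  rw [SymA_eq d _ _ h0, SymA_eq d _ _ h1, SymA_eq d _ _ h2, ← Finset.sum_add_distrib]
  refine Finset.sum_congr rfl fun β _ => ?_
  rw [MvPolynomial.coeff_add, mo_add, add_mul]

theorem opS_sum {n : ℕ} {ι : Type*} (d : Fin n → Derivation ℂ C C) (S : Finset ι)
    (σ : ι → MvPolynomial (Fin n) C) : opS d (∑ i ∈ S, σ i) = ∑ i ∈ S, opS d (σ i) := by
  classical
  induction S using Finset.induction_on with
  | empty => simp [opS]
  | insert i S hi ih => rw [Finset.sum_insert hi, Finset.sum_insert hi, opS_add, ih]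

theorem opS_monomial {n : ℕ} (d : Fin n → Derivation ℂ C C) (β : Fin n →₀ ℕ) (c : C) :
    opS d (MvPolynomial.monomial β c) = mo c * dmon d β := by
  rw [SymA_eq d _ _ MvPolynomial.support_monomial_subset, Finset.sum_singleton,
    MvPolynomial.coeff_monomial, if_pos rfl]

end

theorem SymA_list {M : Type*} [Monoid M] : ∀ {n : ℕ} (x : Fin n → M)
    (_ : ∀ i j, Commute (x i) (x j)) (a b : Fin n → ℕ) (i : Fin n) (_ : b i = a i + 1)
    (_ : ∀ j, j ≠ i → b j = a j),
    (List.ofFn fun j => x j ^ b j).prod = x i * (List.ofFn fun j => x j ^ a j).prod := by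
  intro n
  induction n with
  | zero => intro x _ a b i; exact i.elim0
  | succ n ih =>
    intro x hx a b i hi hj
    rw [List.ofFn_succ, List.ofFn_succ, List.prod_cons, List.prod_cons]
    rcases Fin.eq_zero_or_eq_succ i with rfl | ⟨i, rfl⟩
    · have h1 : (fun j : Fin n => x j.succ ^ b j.succ) = fun j : Fin n => x j.succ ^ a j.succ := by
        funext j
        rw [hj j.succ (Fin.succ_ne_zero j)]
      rw [h1, hi, pow_succ', mul_assoc]
    · rw [ih (fun j => x j.succ) (fun i j => hx _ _) (fun j => a j.succ) (fun j => b j.succ) i hi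
        (fun j hji => hj j.succ (fun h => hji (Fin.succ_injective _ h))),
        hj 0 (Fin.succ_ne_zero i).symm, ← mul_assoc, ← mul_assoc]
      congr 1
      exact ((hx i.succ 0).pow_right _).symm.eq

theorem SymA_fd {n : ℕ} (u : CP n) (v w x : V n) :
    fderiv ℝ (fun y => fderiv ℝ (u : V n → ℂ) y v) x w =
      fderiv ℝ (fderiv ℝ (u : V n → ℂ)) x w v := by
  have h1 : DifferentiableAt ℝ (fderiv ℝ (u : V n → ℂ)) x :=
    (u.2.1.fderiv_right (m := 1) (by norm_cast)).differentiable (by simp) x
  have h2 := (h1.hasFDerivAt.clm_apply (hasFDerivAt_const v x)).fderiv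
  rw [h2]
  simp

theorem SymA_comm {n : ℕ} (i j : Fin n) : Commute (dv (pdx (n := n) i)) (dv (pdx j)) := by
  apply LinearMap.ext
  intro u
  apply Subtype.ext
  funext x
  change fderiv ℝ (fun y => fderiv ℝ (u : V n → ℂ) y (Pi.single j 1)) x (Pi.single i 1)
    = fderiv ℝ (fun y => fderiv ℝ (u : V n → ℂ) y (Pi.single i 1)) x (Pi.single j 1)
  rw [SymA_fd, SymA_fd]
  have h := (u.2.1.contDiffAt (x := x)).isSymmSndFDerivAt
    (by
      rw [minSmoothness_of_isRCLikeNormedField]
      exact WithTop.coe_le_coe.2 (le_top : (2 : ℕ∞) ≤ ⊤))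
  exact h _ _

theorem dmon_add_single {n : ℕ} (β : Fin n →₀ ℕ) (j : Fin n) :
    dmon (pdx (n := n)) (β + Finsupp.single j 1) = dv (pdx j) * dmon pdx β := by
  unfold dmon
  refine SymA_list (fun j => dv (pdx (n := n) j)) (fun i j => SymA_comm i j) _ _ j ?_ ?_
  · simp
  · intro k hk
    simp [hk.symm]

theorem SymA_apply {n i : ℕ} (g : V n → ContinuousMultilinearMap ℝ (fun _ : Fin i => V n) ℂ)
    (x v : V n) (h : DifferentiableAt ℝ g x) (w : Fin i → V n) :
    fderiv ℝ (fun y => g y w) x v = fderiv ℝ g x v w := by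
  have h3 := ((ContinuousMultilinearMap.apply ℝ (fun _ : Fin i => V n) ℂ w).hasFDerivAt.comp x
    h.hasFDerivAt).fderiv
  have h4 : (fun y => g y w)
      = (ContinuousMultilinearMap.apply ℝ (fun _ : Fin i => V n) ℂ w) ∘ g := rfl
  rw [h4, h3]
  rfl

theorem SymA_word {n : ℕ} : ∀ {i : ℕ} (l : Fin i → Fin n) (u : CP n) (x : V n),
    ((dmon pdx (∑ t, Finsupp.single (l t) 1) u : CP n) : V n → ℂ) x =
      iteratedFDeriv ℝ i (u : V n → ℂ) x (fun t => Pi.single (l t) 1) := by
  intro i
  induction i with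
  | zero =>
    intro l u x
    simp [dmon]
  | succ i ih =>
    intro l u x
    rw [Fin.sum_univ_succ, add_comm, dmon_add_single, iteratedFDeriv_succ_apply_left]
    have h1 : (((dmon pdx (∑ t, Finsupp.single (l (Fin.succ t)) 1)) u : CP n) : V n → ℂ)
        = fun y => iteratedFDeriv ℝ i (u : V n → ℂ) y (fun t => Pi.single (l (Fin.succ t)) 1) := by
      funext y
      exact ih (fun t => l (Fin.succ t)) u y
    change fderiv ℝ (((dmon pdx (∑ t, Finsupp.single (l (Fin.succ t)) 1)) u : CP n) : V n → ℂ) x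
      (Pi.single (l 0) 1) = _
    rw [h1]
    have h2 : DifferentiableAt ℝ (iteratedFDeriv ℝ i (u : V n → ℂ)) x :=
      (u.2.1.differentiable_iteratedFDeriv (by exact_mod_cast (ENat.natCast_lt_top i))) x
    exact SymA_apply _ x _ h2 _

theorem opS_word {n : ℕ} {i : ℕ} (c : CP n) (l : Fin i → Fin n) (u : CP n) (x : V n) :
    ((opS pdx (MvPolynomial.C c * ∏ t, MvPolynomial.X (l t)) u : CP n) : V n → ℂ) x =
      (c : V n → ℂ) x * iteratedFDeriv ℝ i (u : V n → ℂ) x (fun t => Pi.single (l t) 1) := by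
  have h1 : (MvPolynomial.C c * ∏ t, MvPolynomial.X (l t) : MvPolynomial (Fin n) (CP n))
      = MvPolynomial.monomial (∑ t, Finsupp.single (l t) 1) c := by
    have h2 : ∀ t, (MvPolynomial.X (l t) : MvPolynomial (Fin n) (CP n))
        = MvPolynomial.monomial (Finsupp.single (l t) 1) 1 := fun t => rfl
    simp only [h2]
    rw [← MvPolynomial.monomial_sum_one, MvPolynomial.C_mul_monomial, mul_one]
  rw [h1, opS_monomial]
  change (c : V n → ℂ) x * ((dmon pdx (∑ t, Finsupp.single (l t) 1) u : CP n) : V n → ℂ) x = _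
  rw [SymA_word]

end H72BT
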