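import Pool.Agent.H72.BT.Cof

/-! Definition of the graded symbols. -/

set_option autoImplicit false

open MeasureTheory Complex
open scoped ContDiff ComplexConjugate

noncomputable section

namespace H72BT

open H99.EQ

/-- symbol of `QO f m` -/
def sym {n : ℕ} (f : Ph n → ℂ) (hf : IsSm f) (m : ℕ) : MvPolynomial (Fin n) (CP n) :=
  ∑ i ∈ Finset.range (m + 1), ∑ l : Fin i → Fin n,
    MvPolynomial.C ((((i.factorial : ℂ) * ((m - i).factorial : ℂ))⁻¹) •
      (⟨cofP f (m - i) l, cofP_mem hf _ _⟩ : CP n)) * ∏ t, MvPolynomial.X (l t)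

/-- the graded symbols of a full symbol `∑ k^{-j} f_j` -/
def symW {n : ℕ} (f : ℕ → Ph n → ℂ) (hf : ∀ j, IsSm (f j)) (w : ℕ) :
    MvPolynomial (Fin n) (CP n) :=
  ∑ j ∈ Finset.range (w + 1), sym (f j) (hf j) (w - j)

end H72BT
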