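import Pool.Agent.H72.BT.SymA
import Pool.Agent.H72.BT.SymD
import Pool.Agent.H72.BT.ExpK

/-!
BT-21. The operator with symbol `sym f hf m` is `QO f m`.

Proof. By `opS_sum` and `opS_word`, the left side is
`∑_{i≤m} (i!(m-i)!)⁻¹ ∑_l cofP f (m-i) l x * iteratedFDeriv i u x (e_{l t})`. On the other side
`-ivec b = ∑_j (-b_j) e_j`, so by multilinearity
(`ContinuousMultilinearMap.map_sum`, `map_smul_univ`; the real scalars `-b_j` act on `ℂ`)
`iteratedFDeriv i u x (fun _ => -ivec b) = ∑_l (∏_t (-b_{l t})) * iteratedFDeriv i u x (e_{l t})`, and the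
series in `QO` is `∑_l (∑'_ab fc lam^{m-i} ∏(-b_{l t}) ea a x) * iteratedFDeriv i u x (e_l)`
(`cofP_summable`, `Summable.tsum_finsetSum`, `tsum_mul_right`).

Status: complete (helper26).
-/

set_option autoImplicit false

open MeasureTheory Complex
open scoped ContDiff ComplexConjugate

noncomputable section

namespace H72BT

open H99.EQ

theorem SymB_sum_apply {n : ℕ} {ι : Type*} (S : Finset ι) (g : ι → CP n) (x : V n) :
    ((∑ i ∈ S, g i : CP n) : V n → ℂ) x = ∑ i ∈ S, (g i : V n → ℂ) x :=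
  map_sum (evP x) g S

theorem SymB_opS_sum_apply {n : ℕ} {ι : Type*} (S : Finset ι) (σ : ι → MvPolynomial (Fin n) (CP n))
    (u : CP n) (x : V n) :
    ((opS pdx (∑ i ∈ S, σ i) u : CP n) : V n → ℂ) x =
      ∑ i ∈ S, ((opS pdx (σ i) u : CP n) : V n → ℂ) x := by
  rw [opS_sum, LinearMap.sum_apply, SymB_sum_apply]

theorem SymB_expand {n : ℕ} {i : ℕ} (D : ContinuousMultilinearMap ℝ (fun _ : Fin i => V n) ℂ)
    (b : Fin n → ℤ) :
    D (fun _ => -ivec b) =
      ∑ l : Fin i → Fin n, (∏ t, (-(b (l t) : ℂ))) * D (fun t => Pi.single (l t) 1) := by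
  have e : (fun _ : Fin i => -ivec b) =
      fun _ : Fin i => ∑ j : Fin n, (-(b j : ℝ)) • (Pi.single j (1 : ℝ) : V n) := by
    funext _
    funext k
    rw [Finset.sum_apply]
    simp only [Pi.neg_apply, ivec, Pi.smul_apply, smul_eq_mul]
    rw [Finset.sum_eq_single k]
    · simp
    · intro j _ hj
      rw [Pi.single_eq_of_ne (Ne.symm hj)]
      simp
    · intro h; exact absurd (Finset.mem_univ k) h
  rw [e, D.map_sum]
  apply Finset.sum_congr rfl
  intro l _
  rw [D.map_smul_univ (fun t => (-(b (l t) : ℝ))) (fun t => Pi.single (l t) 1)]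
  rw [Complex.real_smul]
  congr 1
  push_cast
  rfl

theorem SymB_series {n : ℕ} {f : Ph n → ℂ} (hf : IsSm f) (r i : ℕ) (u : CP n) (x : V n) :
    ∑' ab : (Fin n → ℤ) × (Fin n → ℤ), fc f ab.1 ab.2 * lam ab.1 ab.2 ^ r * ea ab.1 x *
      iteratedFDeriv ℝ i (u : V n → ℂ) x (fun _ => -ivec ab.2) =
    ∑ l : Fin i → Fin n, cofP f r l x *
      iteratedFDeriv ℝ i (u : V n → ℂ) x (fun t => Pi.single (l t) 1) := by
  have e : ∀ ab : (Fin n → ℤ) × (Fin n → ℤ), fc f ab.1 ab.2 * lam ab.1 ab.2 ^ r * ea ab.1 x *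
      iteratedFDeriv ℝ i (u : V n → ℂ) x (fun _ => -ivec ab.2) =
      ∑ l : Fin i → Fin n, (fc f ab.1 ab.2 * lam ab.1 ab.2 ^ r *
        (∏ t, (-(ab.2 (l t) : ℂ))) * ea ab.1 x) *
        iteratedFDeriv ℝ i (u : V n → ℂ) x (fun t => Pi.single (l t) 1) := by
    intro ab
    rw [SymB_expand, Finset.mul_sum]
    apply Finset.sum_congr rfl
    intro l _
    ring
  rw [tsum_congr e, Summable.tsum_finsetSum]
  · apply Finset.sum_congr rfl
    intro l _
    rw [tsum_mul_right]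
    rfl
  · intro l _
    exact (cofP_summable hf r l x).mul_right _

theorem opS_sym {n : ℕ} {f : Ph n → ℂ} (hf : IsSm f) (m : ℕ) (u : CP n) (x : V n) :
    ((opS pdx (sym f hf m) u : CP n) : V n → ℂ) x = QO f m (u : V n → ℂ) x := by
  unfold sym QO
  rw [SymB_opS_sum_apply]
  apply Finset.sum_congr rfl
  intro i _
  rw [SymB_opS_sum_apply, SymB_series hf, Finset.mul_sum]
  apply Finset.sum_congr rfl
  intro l _
  rw [opS_word]
  rw [← mul_assoc]
  rfl

theorem opS_symW {n : ℕ} {f : ℕ → Ph n → ℂ} (hf : ∀ j, IsSm (f j)) (w : ℕ) (u : CP n)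
    (x : V n) :
    ((opS pdx (symW f hf w) u : CP n) : V n → ℂ) x =
      ∑ j ∈ Finset.range (w + 1), QO (f j) (w - j) (u : V n → ℂ) x := by
  unfold symW
  rw [SymB_opS_sum_apply]
  exact Finset.sum_congr rfl fun j _ => opS_sym (hf j) _ u x

end H72BT
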