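import Pool.Agent.H72.BT.Ops

/-!
BT-16. Taylor estimates and bounds.

Proofs.
* `exp_rem` (`Re z ≤ 0`): for `J = 0`: `‖exp z‖ ≤ 1`. For `J ≥ 1`: if `‖z‖ ≤ 1`, `Complex.exp_bound'` or
  `Complex.norm_exp_sub_sum_le_norm_mul_exp` (`≤ ‖z‖^J exp ‖z‖ ≤ 4‖z‖^J`, `exp 1 < 2.7182818286`);
  if `‖z‖ ≥ 1`: `‖exp z‖ ≤ 1 ≤ ‖z‖^J` and
  `∑_{m<J} ‖z‖^m/m! ≤ ‖z‖^J ∑ 1/m! ≤ exp 1 * ‖z‖^J` (`Real.sum_le_exp_of_nonneg`).
* `cp_bdd`: `x ↦ iteratedFDeriv ℝ i u x` is continuous and periodic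
  (`iteratedFDeriv_comp_add_right`), every point is congruent to a point of the compact cube
  (`Int.fract`).
* `cp_taylor`: for `g(t) = u(x + t v)`, `iteratedDeriv i g t = iteratedFDeriv ℝ i u (x + t v) (fun _ => v)`
  (induction, or `ContinuousLinearMap.iteratedFDeriv_comp_right` and
  `iteratedFDeriv_comp_add_left`); then `taylor_mean_remainder_bound` on `[0,1]` with
  `‖iteratedDeriv J g‖ ≤ M_J ‖v‖^J` (`ContinuousMultilinearMap.le_opNorm`, `cp_bdd`), or induction with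
  `g(1) - ∑_{i<J} g^{(i)}(0)/i! = ∫...`. For `J = 0` use `cp_bdd 0`.
* `lam_re`, `lam_norm`: `sq a b = ∑ (a_j²+b_j²) ≤ 2n ‖ab‖²`, `|dt a b| ≤ n ‖ab‖²`.
* `ivec_norm`: sup norms.
-/

set_option autoImplicit false

open MeasureTheory Complex
open scoped ContDiff ComplexConjugate

noncomputable section

namespace H72BT

open H99.EQ

theorem exp_rem (z : ℂ) (hz : z.re ≤ 0) (J : ℕ) :
    ‖exp z - ∑ m ∈ Finset.range J, z ^ m / (m.factorial : ℂ)‖ ≤ 4 * ‖z‖ ^ J := by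
  have he : Real.exp 1 ≤ 3 := by
    have := Real.exp_one_lt_d9
    linarith
  rcases le_total ‖z‖ 1 with h | h
  · refine (norm_exp_sub_sum_le_norm_mul_exp z J).trans ?_
    have h1 : Real.exp ‖z‖ ≤ 4 := (Real.exp_le_exp.2 h).trans (by linarith)
    rw [mul_comm]
    exact mul_le_mul_of_nonneg_right h1 (by positivity)
  · have h1 : ‖exp z‖ ≤ 1 := by
      rw [Complex.norm_exp]
      exact Real.exp_le_one_iff.2 hz
    have h2 : (1 : ℝ) ≤ ‖z‖ ^ J := one_le_pow₀ h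
    have h3 : ‖∑ m ∈ Finset.range J, z ^ m / (m.factorial : ℂ)‖ ≤ 3 * ‖z‖ ^ J := by
      calc ‖∑ m ∈ Finset.range J, z ^ m / (m.factorial : ℂ)‖
          ≤ ∑ m ∈ Finset.range J, ‖z ^ m / (m.factorial : ℂ)‖ := norm_sum_le _ _
        _ ≤ ∑ m ∈ Finset.range J, ((1 : ℝ) ^ m / (m.factorial : ℝ)) * ‖z‖ ^ J := by
            refine Finset.sum_le_sum fun m hm => ?_
            rw [norm_div, norm_pow, Complex.norm_natCast, one_pow, div_mul_eq_mul_div, one_mul]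
            refine div_le_div_of_nonneg_right ?_ (by positivity)
            exact pow_le_pow_right₀ h (Finset.mem_range.1 hm).le
        _ = (∑ m ∈ Finset.range J, ((1 : ℝ) ^ m / (m.factorial : ℝ))) * ‖z‖ ^ J := by
            rw [Finset.sum_mul]
        _ ≤ 3 * ‖z‖ ^ J := by
            refine mul_le_mul_of_nonneg_right ?_ (by positivity)
            exact (Real.sum_le_exp_of_nonneg zero_le_one J).trans he
    calc ‖exp z - ∑ m ∈ Finset.range J, z ^ m / (m.factorial : ℂ)‖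
        ≤ ‖exp z‖ + ‖∑ m ∈ Finset.range J, z ^ m / (m.factorial : ℂ)‖ := norm_sub_le _ _
      _ ≤ ‖z‖ ^ J + 3 * ‖z‖ ^ J := add_le_add (h1.trans h2) h3
      _ = 4 * ‖z‖ ^ J := by ring

theorem cp_bdd {n : ℕ} (u : CP n) (i : ℕ) :
    ∃ M : ℝ, ∀ x, ‖iteratedFDeriv ℝ i (u : V n → ℂ) x‖ ≤ M := by
  have hc : Continuous (iteratedFDeriv ℝ i (u : V n → ℂ)) :=
    u.2.1.continuous_iteratedFDeriv (by exact_mod_cast le_top)
  obtain ⟨M, hM⟩ := (isCompact_Icc (a := (0 : V n)) (b := 1)).exists_bound_of_continuousOn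
    hc.continuousOn
  refine ⟨M, fun x => ?_⟩
  have hx : x = (fun j => Int.fract (x j)) + ivec (fun j => ⌊x j⌋) := by
    ext j
    simp [ivec, Int.fract_add_floor]
  have hper : (fun z => (u : V n → ℂ) (z + ivec (fun j => ⌊x j⌋))) = (u : V n → ℂ) :=
    funext fun y => u.2.2 _ y
  have h1 := iteratedFDeriv_comp_add_right (𝕜 := ℝ) (f := (u : V n → ℂ)) i
    (ivec (fun j => ⌊x j⌋)) (fun j => Int.fract (x j))
  rw [hper, ← hx] at h1
  rw [← h1]
  refine hM _ ⟨fun j => Int.fract_nonneg _, fun j => (Int.fract_lt_one _).le⟩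

theorem cp_taylor {n : ℕ} (u : CP n) (J : ℕ) :
    ∃ M : ℝ, 0 ≤ M ∧ ∀ x v : V n, ‖(u : V n → ℂ) (x + v) - ∑ i ∈ Finset.range J,
      (i.factorial : ℂ)⁻¹ * iteratedFDeriv ℝ i (u : V n → ℂ) x (fun _ => v)‖ ≤ M * ‖v‖ ^ J := by
  obtain ⟨M, hM⟩ := cp_bdd u J
  have hM0 : 0 ≤ M := (norm_nonneg _).trans (hM 0)
  refine ⟨M, hM0, fun x v => ?_⟩
  cases J with
  | zero =>
    have := hM (x + v)
    rw [norm_iteratedFDeriv_zero] at this
    simpa using this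
  | succ m =>
    have h1 := map_add_eq_sum_add_integral_iteratedFDeriv (f := (u : V n → ℂ)) (n := m) (x := x)
      (y := v) (fun t _ => (u.2.1.of_le (by exact_mod_cast le_top)).contDiffAt)
    have h2 : (u : V n → ℂ) (x + v) - ∑ i ∈ Finset.range (m + 1),
        (i.factorial : ℂ)⁻¹ * iteratedFDeriv ℝ i (u : V n → ℂ) x (fun _ => v) =
        ((m.factorial : ℝ))⁻¹ • ∫ t in (0 : ℝ)..1, (1 - t) ^ m •
          iteratedFDeriv ℝ (m + 1) (u : V n → ℂ) (x + t • v) (fun _ => v) := by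
      rw [h1, sub_eq_iff_eq_add, add_comm]
      congr 1
      refine Finset.sum_congr rfl fun i _ => ?_
      rw [Complex.real_smul]
      push_cast
      rfl
    rw [h2, norm_smul]
    have h3 : ‖∫ t in (0 : ℝ)..1, (1 - t) ^ m •
        iteratedFDeriv ℝ (m + 1) (u : V n → ℂ) (x + t • v) (fun _ => v)‖ ≤
        (M * ‖v‖ ^ (m + 1)) * |1 - 0| := by
      refine intervalIntegral.norm_integral_le_of_norm_le_const fun t ht => ?_
      rw [Set.uIoc_of_le zero_le_one] at ht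
      rw [norm_smul]
      have h4 : ‖(1 - t) ^ m‖ ≤ 1 := by
        rw [norm_pow]
        refine pow_le_one₀ (norm_nonneg _) ?_
        rw [Real.norm_eq_abs, abs_le]
        constructor <;> linarith [ht.1, ht.2]
      have h5 : ‖iteratedFDeriv ℝ (m + 1) (u : V n → ℂ) (x + t • v) (fun _ => v)‖ ≤
          M * ‖v‖ ^ (m + 1) := by
        refine (ContinuousMultilinearMap.le_opNorm _ _).trans ?_
        rw [Finset.prod_const, Finset.card_univ, Fintype.card_fin]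
        exact mul_le_mul_of_nonneg_right (hM _) (by positivity)
      calc ‖(1 - t) ^ m‖ * ‖iteratedFDeriv ℝ (m + 1) (u : V n → ℂ) (x + t • v) (fun _ => v)‖
          ≤ 1 * (M * ‖v‖ ^ (m + 1)) := mul_le_mul h4 h5 (norm_nonneg _) zero_le_one
        _ = M * ‖v‖ ^ (m + 1) := one_mul _
    have h6 : ‖((m.factorial : ℝ))⁻¹‖ ≤ 1 := by
      rw [norm_inv, Real.norm_natCast]
      exact inv_le_one_of_one_le₀ (by exact_mod_cast m.factorial_pos)
    calc _ ≤ 1 * ((M * ‖v‖ ^ (m + 1)) * |1 - 0|) := mul_le_mul h6 h3 (norm_nonneg _) zero_le_one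
      _ = M * ‖v‖ ^ (m + 1) := by simp

theorem tay_sq_nonneg {n : ℕ} (a b : Fin n → ℤ) : 0 ≤ sq a b :=
  Finset.sum_nonneg fun j _ => by positivity

theorem lam_re {n : ℕ} (a b : Fin n → ℤ) : (lam a b).re ≤ 0 := by
  have h1 : lam a b = ((-(Real.pi / 2) * sq a b : ℝ) : ℂ) + ((-(Real.pi * dt a b) : ℝ) : ℂ) * I := by
    unfold lam
    push_cast
    ring
  rw [h1, Complex.add_re, Complex.ofReal_re, Complex.re_ofReal_mul, Complex.I_re, mul_zero, add_zero]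
  have h2 := tay_sq_nonneg a b
  have h3 := Real.pi_pos
  nlinarith

theorem tay_abs_le {n : ℕ} (ab : (Fin n → ℤ) × (Fin n → ℤ)) (j : Fin n) :
    |((ab.1 j : ℤ) : ℝ)| ≤ ‖ab‖ ∧ |((ab.2 j : ℤ) : ℝ)| ≤ ‖ab‖ := by
  constructor
  · have h1 : ‖ab.1 j‖ ≤ ‖ab.1‖ := norm_le_pi_norm ab.1 j
    rw [Int.norm_eq_abs] at h1
    exact h1.trans (norm_fst_le ab)
  · have h1 : ‖ab.2 j‖ ≤ ‖ab.2‖ := norm_le_pi_norm ab.2 j
    rw [Int.norm_eq_abs] at h1
    exact h1.trans (norm_snd_le ab)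

theorem lam_norm (n : ℕ) : ∃ C : ℝ, 0 ≤ C ∧
    ∀ ab : (Fin n → ℤ) × (Fin n → ℤ), ‖lam ab.1 ab.2‖ ≤ C * (1 + ‖ab‖) ^ 2 := by
  refine ⟨2 * Real.pi * n, by positivity, fun ab => ?_⟩
  have hpi := Real.pi_pos
  have hN : 0 ≤ ‖ab‖ := norm_nonneg _
  have hsq : sq ab.1 ab.2 ≤ n * (2 * ‖ab‖ ^ 2) := by
    unfold H99.EQ.sq
    calc ∑ j, (((ab.1 j : ℤ) : ℝ) ^ 2 + ((ab.2 j : ℤ) : ℝ) ^ 2) ≤ ∑ _j : Fin n, 2 * ‖ab‖ ^ 2 := by
          refine Finset.sum_le_sum fun j _ => ?_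
          have h1 := (tay_abs_le ab j).1
          have h2 := (tay_abs_le ab j).2
          have h3 : ((ab.1 j : ℤ) : ℝ) ^ 2 ≤ ‖ab‖ ^ 2 := by
            rw [← sq_abs]; exact pow_le_pow_left₀ (abs_nonneg _) h1 2
          have h4 : ((ab.2 j : ℤ) : ℝ) ^ 2 ≤ ‖ab‖ ^ 2 := by
            rw [← sq_abs]; exact pow_le_pow_left₀ (abs_nonneg _) h2 2
          linarith
      _ = _ := by rw [Finset.sum_const, Finset.card_univ, Fintype.card_fin, nsmul_eq_mul]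
  have hdt : |dt ab.1 ab.2| ≤ n * ‖ab‖ ^ 2 := by
    unfold dt
    calc |∑ j, ((ab.1 j : ℤ) : ℝ) * ((ab.2 j : ℤ) : ℝ)|
        ≤ ∑ j, |((ab.1 j : ℤ) : ℝ) * ((ab.2 j : ℤ) : ℝ)| := Finset.abs_sum_le_sum_abs _ _
      _ ≤ ∑ _j : Fin n, ‖ab‖ ^ 2 := by
          refine Finset.sum_le_sum fun j _ => ?_
          rw [abs_mul, pow_two]
          exact mul_le_mul (tay_abs_le ab j).1 (tay_abs_le ab j).2 (abs_nonneg _) hN
      _ = _ := by rw [Finset.sum_const, Finset.card_univ, Fintype.card_fin, nsmul_eq_mul]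
  have h1 : ‖lam ab.1 ab.2‖ ≤ Real.pi / 2 * sq ab.1 ab.2 + Real.pi * |dt ab.1 ab.2| := by
    unfold lam
    refine (norm_sub_le _ _).trans (add_le_add ?_ ?_)
    · rw [norm_mul, norm_neg, norm_div, Complex.norm_real, Complex.norm_real,
        Real.norm_of_nonneg hpi.le, Real.norm_of_nonneg (tay_sq_nonneg _ _)]
      simp
    · rw [norm_mul, norm_mul, Complex.norm_real, Complex.norm_real, Complex.norm_I, mul_one,
        Real.norm_of_nonneg hpi.le, Real.norm_eq_abs]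
  have h2 : Real.pi / 2 * sq ab.1 ab.2 + Real.pi * |dt ab.1 ab.2| ≤
      2 * Real.pi * n * ‖ab‖ ^ 2 := by
    have e1 := mul_le_mul_of_nonneg_left hsq (by positivity : 0 ≤ Real.pi / 2)
    have e2 := mul_le_mul_of_nonneg_left hdt hpi.le
    calc _ ≤ Real.pi / 2 * (n * (2 * ‖ab‖ ^ 2)) + Real.pi * (n * ‖ab‖ ^ 2) := add_le_add e1 e2
      _ = _ := by ring
  refine (h1.trans h2).trans (mul_le_mul_of_nonneg_left ?_ (by positivity))
  exact pow_le_pow_left₀ hN (by linarith) 2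

theorem ivec_norm {n : ℕ} (ab : (Fin n → ℤ) × (Fin n → ℤ)) :
    ‖(ivec ab.2 : V n)‖ ≤ 1 + ‖ab‖ := by
  have hN : 0 ≤ ‖ab‖ := norm_nonneg _
  refine (pi_norm_le_iff_of_nonneg (by linarith)).2 fun j => ?_
  have := (tay_abs_le ab j).2
  rw [Real.norm_eq_abs]
  exact this.trans (by linarith)

theorem ea_norm {n : ℕ} (a : Fin n → ℤ) (x : V n) : ‖ea a x‖ = 1 := by
  unfold ea
  have h1 : 2 * (Real.pi : ℂ) * I * ∑ j, (a j : ℂ) * (x j : ℂ) =
      ((2 * Real.pi * ∑ j, (a j : ℝ) * x j : ℝ) : ℂ) * I := by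
    push_cast
    ring
  rw [h1, Complex.norm_exp_ofReal_mul_I]

end H72BT
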