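import Pool.Agent.H72.BT.Tay

/-!
BT-17. Expansion in `κ` of one Fourier mode of `Φ_κ(f, u)`.

Proof. Write `z = κ λ` (`λ = lam ab.1 ab.2`), `v = -κ ivec b`, `D_i = iteratedFDeriv i u x (fun _ => -ivec b)`,
so `iteratedFDeriv i u x (fun _ => v) = κ^i D_i` (`ContinuousMultilinearMap.map_smul_univ`,
`Finset.prod_const`). Let `U_J = ∑_{i<J} κ^i D_i/i!`. Then
`e^z u(x+v) = e^z (u(x+v) - U_J) + ∑_{i<J} (κ^i D_i/i!) e^z`, the first term has norm
`≤ 1 · M ‖v‖^J ≤ M κ^J (1+‖ab‖)^J` (`cp_taylor`, `lam_re`, `ivec_norm`), and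
`e^z = ∑_{r<J-i} z^r/r! + R_i`, `‖R_i‖ ≤ 4‖z‖^{J-i} ≤ 4 κ^{J-i} (C(1+‖ab‖)²)^{J-i}` (`exp_rem`,
`lam_norm`), `‖κ^i D_i‖ ≤ M_i κ^i (1+‖ab‖)^i` (`cp_bdd`). All exponents of `1+‖ab‖ ≥ 1` are `≤ 2J`. The
double sum `∑_{i<J} ∑_{r<J-i} κ^{i+r} λ^r D_i/(i! r!)` is
`∑_{m<J} κ^m ∑_{i≤m} λ^{m-i} D_i/(i!(m-i)!)` (`Finset.sum_sigma'` and a bijection, or
`Finset.sum_comm'`; `m = i + r`).
-/

set_option autoImplicit false

open MeasureTheory Complex
open scoped ContDiff ComplexConjugate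

noncomputable section

namespace H72BT

open H99.EQ

theorem TermB_dsum (J : ℕ) (k l : ℂ) (D : ℕ → ℂ) :
    ∑ m ∈ Finset.range J, k ^ m * ∑ i ∈ Finset.range (m + 1),
      ((i.factorial : ℂ) * ((m - i).factorial : ℂ))⁻¹ * (l ^ (m - i) * D i) =
    ∑ i ∈ Finset.range J, (i.factorial : ℂ)⁻¹ * (k ^ i * D i) *
      ∑ r ∈ Finset.range (J - i), (k * l) ^ r / (r.factorial : ℂ) := by
  have h1 : ∑ m ∈ Finset.range J, k ^ m * ∑ i ∈ Finset.range (m + 1),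
      ((i.factorial : ℂ) * ((m - i).factorial : ℂ))⁻¹ * (l ^ (m - i) * D i) =
      ∑ m ∈ Finset.range J, ∑ i ∈ Finset.range (m + 1),
        k ^ m * (((i.factorial : ℂ) * ((m - i).factorial : ℂ))⁻¹ * (l ^ (m - i) * D i)) := by
    refine Finset.sum_congr rfl fun m _ => ?_
    rw [Finset.mul_sum]
  rw [h1, Finset.sum_comm' (t' := Finset.range J) (s' := fun i => Finset.Ico i J)]
  · refine Finset.sum_congr rfl fun i hi => ?_
    rw [Finset.sum_Ico_eq_sum_range, Finset.mul_sum]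
    refine Finset.sum_congr rfl fun r _ => ?_
    rw [Nat.add_sub_cancel_left, mul_inv, pow_add, mul_pow, div_eq_mul_inv]
    ring
  · intro m i
    simp only [Finset.mem_range, Finset.mem_Ico]
    omega

theorem term_bound {n : ℕ} (u : CP n) (J : ℕ) :
    ∃ C : ℝ, 0 ≤ C ∧ ∀ (ab : (Fin n → ℤ) × (Fin n → ℤ)) (κ : ℝ) (x : V n), 0 ≤ κ → κ ≤ 1 →
      ‖exp ((κ : ℂ) * lam ab.1 ab.2) * (u : V n → ℂ) (x - κ • ivec ab.2) -
        ∑ m ∈ Finset.range J, (κ : ℂ) ^ m * ∑ i ∈ Finset.range (m + 1),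
          ((i.factorial : ℂ) * ((m - i).factorial : ℂ))⁻¹ * (lam ab.1 ab.2 ^ (m - i) *
            iteratedFDeriv ℝ i (u : V n → ℂ) x (fun _ => -ivec ab.2))‖
        ≤ C * κ ^ J * (1 + ‖ab‖) ^ (2 * J) := by
  obtain ⟨M, hM0, hM⟩ := cp_taylor u J
  obtain ⟨C, hC0, hC⟩ := lam_norm n
  choose B hB using fun i => cp_bdd u i
  have hB0 : ∀ i, 0 ≤ B i := fun i => (norm_nonneg _).trans (hB i 0)
  refine ⟨M + ∑ i ∈ Finset.range J, 4 * B i * C ^ (J - i),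
    add_nonneg hM0 (Finset.sum_nonneg fun i _ =>
      mul_nonneg (mul_nonneg (by norm_num) (hB0 i)) (pow_nonneg hC0 _)), ?_⟩
  intro ab κ x hκ0 hκ1
  have hW : (1 : ℝ) ≤ 1 + ‖ab‖ := by linarith [norm_nonneg ab]
  set W : ℝ := 1 + ‖ab‖ with hWdef
  have hW0 : (0 : ℝ) ≤ W := le_trans zero_le_one hW
  set l : ℂ := lam ab.1 ab.2 with hl
  have hlC : ‖l‖ ≤ C * W ^ 2 := hC ab
  have hb : ‖(ivec ab.2 : V n)‖ ≤ W := ivec_norm ab
  set D : ℕ → ℂ := fun i => iteratedFDeriv ℝ i (u : V n → ℂ) x (fun _ => -ivec ab.2) with hD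
  have hDn : ∀ i, ‖D i‖ ≤ B i * W ^ i := by
    intro i
    have h1 := (iteratedFDeriv ℝ i (u : V n → ℂ) x).le_opNorm (fun _ => -(ivec ab.2 : V n))
    simp only [norm_neg, Finset.prod_const, Finset.card_univ, Fintype.card_fin] at h1
    refine h1.trans ?_
    exact mul_le_mul (hB i x) (pow_le_pow_left₀ (norm_nonneg _) hb i)
      (pow_nonneg (norm_nonneg _) _) (hB0 i)
  have hz : ((κ : ℂ) * l).re ≤ 0 := by
    rw [Complex.re_ofReal_mul]
    exact mul_nonpos_of_nonneg_of_nonpos hκ0 (lam_re ab.1 ab.2)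
  have hzn : ‖(κ : ℂ) * l‖ ≤ κ * (C * W ^ 2) := by
    rw [norm_mul, Complex.norm_real, Real.norm_of_nonneg hκ0]
    exact mul_le_mul_of_nonneg_left hlC hκ0
  have hexp : ‖exp ((κ : ℂ) * l)‖ ≤ 1 := by
    rw [Complex.norm_exp]
    exact Real.exp_le_one_iff.mpr hz
  have hsum : (∑ m ∈ Finset.range J, (κ : ℂ) ^ m * ∑ i ∈ Finset.range (m + 1),
          ((i.factorial : ℂ) * ((m - i).factorial : ℂ))⁻¹ * (l ^ (m - i) *
            iteratedFDeriv ℝ i (u : V n → ℂ) x (fun _ => -ivec ab.2))) =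
      ∑ i ∈ Finset.range J, (i.factorial : ℂ)⁻¹ * ((κ : ℂ) ^ i * D i) *
        ∑ r ∈ Finset.range (J - i), ((κ : ℂ) * l) ^ r / (r.factorial : ℂ) :=
    TermB_dsum J (κ : ℂ) l D
  rw [hsum]
  have hx : x - κ • (ivec ab.2 : V n) = x + κ • (-ivec ab.2) := by
    rw [smul_neg, sub_eq_add_neg]
  rw [hx]
  have hDk : ∀ i, iteratedFDeriv ℝ i (u : V n → ℂ) x (fun _ => κ • (-(ivec ab.2 : V n))) =
      (κ : ℂ) ^ i * D i := by
    intro i
    have h1 := (iteratedFDeriv ℝ i (u : V n → ℂ) x).map_smul_univ (fun _ => κ)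
      (fun _ => -(ivec ab.2 : V n))
    simp only [Finset.prod_const, Finset.card_univ, Fintype.card_fin] at h1
    rw [h1, Complex.real_smul, Complex.ofReal_pow]
  have hT := hM x (κ • (-ivec ab.2))
  simp only [hDk] at hT
  have hvn : ‖κ • (-(ivec ab.2 : V n))‖ ≤ κ * W := by
    rw [norm_smul, norm_neg, Real.norm_of_nonneg hκ0]
    exact mul_le_mul_of_nonneg_left hb hκ0
  have hWJ : W ^ J ≤ W ^ (2 * J) := pow_le_pow_right₀ hW (by omega)
  have hsplit : exp ((κ : ℂ) * l) * (u : V n → ℂ) (x + κ • (-ivec ab.2)) -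
      ∑ i ∈ Finset.range J, (i.factorial : ℂ)⁻¹ * ((κ : ℂ) ^ i * D i) *
        ∑ r ∈ Finset.range (J - i), ((κ : ℂ) * l) ^ r / (r.factorial : ℂ) =
      exp ((κ : ℂ) * l) * ((u : V n → ℂ) (x + κ • (-ivec ab.2)) -
        ∑ i ∈ Finset.range J, (i.factorial : ℂ)⁻¹ * ((κ : ℂ) ^ i * D i)) +
      ∑ i ∈ Finset.range J, (i.factorial : ℂ)⁻¹ * ((κ : ℂ) ^ i * D i) *
        (exp ((κ : ℂ) * l) -
          ∑ r ∈ Finset.range (J - i), ((κ : ℂ) * l) ^ r / (r.factorial : ℂ)) := by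
    simp only [mul_sub, Finset.sum_sub_distrib, Finset.mul_sum]
    have e : ∑ i ∈ Finset.range J, exp ((κ : ℂ) * l) *
        ((i.factorial : ℂ)⁻¹ * ((κ : ℂ) ^ i * D i)) =
        ∑ i ∈ Finset.range J, (i.factorial : ℂ)⁻¹ * ((κ : ℂ) ^ i * D i) *
          exp ((κ : ℂ) * l) := Finset.sum_congr rfl fun i _ => by ring
    rw [e]
    ring
  rw [hsplit]
  refine (norm_add_le _ _).trans ?_
  have hA : ‖exp ((κ : ℂ) * l) * ((u : V n → ℂ) (x + κ • (-ivec ab.2)) -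
        ∑ i ∈ Finset.range J, (i.factorial : ℂ)⁻¹ * ((κ : ℂ) ^ i * D i))‖ ≤
      M * κ ^ J * W ^ (2 * J) := by
    rw [norm_mul]
    calc _ ≤ 1 * (M * ‖κ • (-(ivec ab.2 : V n))‖ ^ J) :=
          mul_le_mul hexp hT (norm_nonneg _) zero_le_one
      _ ≤ 1 * (M * (κ * W) ^ J) := by
          gcongr
      _ = M * κ ^ J * W ^ J := by rw [mul_pow]; ring
      _ ≤ M * κ ^ J * W ^ (2 * J) := by
          gcongr
  have hBd : ∀ i ∈ Finset.range J, ‖(i.factorial : ℂ)⁻¹ * ((κ : ℂ) ^ i * D i) *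
        (exp ((κ : ℂ) * l) -
          ∑ r ∈ Finset.range (J - i), ((κ : ℂ) * l) ^ r / (r.factorial : ℂ))‖ ≤
      4 * B i * C ^ (J - i) * κ ^ J * W ^ (2 * J) := by
    intro i hi
    have hiJ : i < J := Finset.mem_range.mp hi
    rw [norm_mul]
    have h1 : ‖(i.factorial : ℂ)⁻¹ * ((κ : ℂ) ^ i * D i)‖ ≤ κ ^ i * (B i * W ^ i) := by
      rw [norm_mul, norm_mul, norm_pow, Complex.norm_real, Real.norm_of_nonneg hκ0, norm_inv,
        Complex.norm_natCast]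
      have h2 : ((i.factorial : ℝ))⁻¹ ≤ 1 := by
        apply inv_le_one_of_one_le₀
        exact_mod_cast Nat.succ_le_of_lt (Nat.factorial_pos i)
      calc _ ≤ 1 * (κ ^ i * (B i * W ^ i)) := by
            apply mul_le_mul h2 _ (by positivity) zero_le_one
            exact mul_le_mul_of_nonneg_left (hDn i) (pow_nonneg hκ0 i)
        _ = _ := one_mul _
    have h3 := exp_rem ((κ : ℂ) * l) hz (J - i)
    have h4 : ‖(κ : ℂ) * l‖ ^ (J - i) ≤ (κ * (C * W ^ 2)) ^ (J - i) :=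
      pow_le_pow_left₀ (norm_nonneg _) hzn _
    have h5 : 0 ≤ κ ^ i * (B i * W ^ i) :=
      mul_nonneg (pow_nonneg hκ0 i) (mul_nonneg (hB0 i) (pow_nonneg hW0 i))
    calc _ ≤ (κ ^ i * (B i * W ^ i)) * (4 * (κ * (C * W ^ 2)) ^ (J - i)) :=
          mul_le_mul h1 (h3.trans (mul_le_mul_of_nonneg_left h4 (by norm_num)))
            (norm_nonneg _) h5
      _ = 4 * B i * C ^ (J - i) * (κ ^ i * κ ^ (J - i)) * (W ^ i * (W ^ 2) ^ (J - i)) := by
          rw [mul_pow, mul_pow]; ring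
      _ = 4 * B i * C ^ (J - i) * κ ^ J * W ^ (i + 2 * (J - i)) := by
          rw [← pow_add, ← pow_mul, ← pow_add]
          congr 3
          omega
      _ ≤ 4 * B i * C ^ (J - i) * κ ^ J * W ^ (2 * J) := by
          apply mul_le_mul_of_nonneg_left (pow_le_pow_right₀ hW (by omega))
          exact mul_nonneg (mul_nonneg (mul_nonneg (by norm_num) (hB0 i)) (pow_nonneg hC0 _))
            (pow_nonneg hκ0 _)
  have hS := (norm_sum_le (Finset.range J) fun i => (i.factorial : ℂ)⁻¹ * ((κ : ℂ) ^ i * D i) *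
        (exp ((κ : ℂ) * l) -
          ∑ r ∈ Finset.range (J - i), ((κ : ℂ) * l) ^ r / (r.factorial : ℂ))).trans
      (Finset.sum_le_sum hBd)
  refine (add_le_add hA hS).trans (le_of_eq ?_)
  rw [add_mul, add_mul, Finset.sum_mul, Finset.sum_mul]

end H72BT
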